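import Mathlib

set_option autoImplicit false

/-!
The system `X = Y + 2 V`, `W * Z = U` is partition regular over the positive integers, in the strong
form needed for the counterexample: a multiplicatively idempotent ultrafilter all of whose members
contain a triple `Y, V, Y + 2 V`.
-/

namespace Pool.Agent.Lib.MP_a5a405_co

open Filter

/-- A set of positive integers contains a triple `Y, V, Y + 2 V`. -/
def HasSol (A : Set ℕ+) : Prop := ∃ Y V : ℕ+, Y ∈ A ∧ V ∈ A ∧ Y + 2 * V ∈ A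

lemma exists_lim {κ : Type*} [Finite κ] (U : Ultrafilter ℕ) (g : ℕ → κ) :
    ∃ c, ∀ᶠ N in (U : Filter ℕ), g N = c := by
  obtain ⟨c, hc⟩ := Ultrafilter.eq_pure_of_finite (U.map g)
  refine ⟨c, ?_⟩
  have : ({c} : Set κ) ∈ U.map g := by rw [hc]; simp
  exact Ultrafilter.mem_map.1 this

lemma brauer_aux {κ : Type*} [Finite κ] [DecidableEq κ] (T : Finset κ) :
    ∀ χ : ℕ+ → κ, (∀ n, χ n ∈ T) → ∃ Y V : ℕ+, χ Y = χ V ∧ χ (Y + 2 * V) = χ V := by
  induction T using Finset.strongInduction with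
  | H T ih =>
    intro χ hχ
    by_contra hno
    push Not at hno
    have key : ∀ N : ℕ, ∃ (a : ℕ+) (c : κ), c ∈ T ∧ ∀ j : ℕ+, (j : ℕ) ≤ N → χ (a * j) ≠ c := by
      intro N
      obtain ⟨a, ha, b, c, h⟩ := Combinatorics.exists_mono_homothetic_copy
        (Finset.range (2 * N + 1)) (fun n : ℕ => χ n.succPNat)
      have h0 : χ b.succPNat = c := by simpa using h 0 (by simp)
      obtain ⟨a', rfl⟩ : ∃ a' : ℕ+, (a' : ℕ) = a := ⟨⟨a, ha⟩, rfl⟩
      refine ⟨a', c, h0 ▸ hχ _, fun j hj hjc => ?_⟩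
      have h1 := h (2 * j) (by simp; omega)
      apply hno b.succPNat (a' * j) (by rw [h0, hjc])
      rw [hjc, ← h1]
      congr 1
      apply PNat.eq
      simp only [PNat.add_coe, PNat.mul_coe, Nat.succPNat_coe, Nat.succ_eq_add_one,
        smul_eq_mul, PNat.val_ofNat]
      ring
    choose a c hcT hc using key
    let U : Ultrafilter ℕ := hyperfilter ℕ
    obtain ⟨c₀, hc₀⟩ := exists_lim U c
    have hψ : ∀ j : ℕ+, ∃ d, ∀ᶠ N in (U : Filter ℕ), χ (a N * j) = d :=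
      fun j => exists_lim U _
    choose ψ hψ using hψ
    have hU : ∀ j : ℕ, ∀ᶠ N in (U : Filter ℕ), j ≤ N := fun j =>
      (Nat.hyperfilter_le_atTop) (eventually_ge_atTop j)
    have hc₀T : c₀ ∈ T := by
      obtain ⟨N, hN⟩ := hc₀.exists
      exact hN ▸ hcT N
    have hψT : ∀ j, ψ j ∈ T.erase c₀ := by
      intro j
      obtain ⟨N, h1, h2, h3⟩ := (hc₀.and ((hψ j).and (hU j))).exists
      rw [Finset.mem_erase, ← h2, ← h1]
      exact ⟨hc N j h3, hχ _⟩
    obtain ⟨Y, V, h1, h2⟩ := ih (T.erase c₀) (Finset.erase_ssubset hc₀T) ψ hψT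
    obtain ⟨N, e1, e2, e3⟩ := ((hψ Y).and ((hψ V).and (hψ (Y + 2 * V)))).exists
    apply hno (a N * Y) (a N * V) (by rw [e1, e2, h1])
    have : a N * Y + 2 * (a N * V) = a N * (Y + 2 * V) := by
      apply PNat.eq; simp; ring
    rw [this, e3, e2, h2]

lemma brauer {κ : Type*} [Finite κ] (χ : ℕ+ → κ) :
    ∃ Y V : ℕ+, χ Y = χ V ∧ χ (Y + 2 * V) = χ V := by
  classical
  have := Fintype.ofFinite κ
  exact brauer_aux Finset.univ χ (fun _ => Finset.mem_univ _)

lemma exists_ultrafilter_hasSol : ∃ U : Ultrafilter ℕ+, ∀ A ∈ U, HasSol A := by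
  classical
  obtain ⟨U, hU⟩ := Ultrafilter.exists_ultrafilter_of_finite_inter_nonempty
    {A : Set ℕ+ | ¬ HasSol Aᶜ} (by
      intro T hT
      by_contra hne
      rw [Set.not_nonempty_iff_eq_empty] at hne
      have hcov : ∀ n : ℕ+, ∃ A : T, n ∉ (A : Set ℕ+) := by
        intro n
        by_contra h
        push Not at h
        have : n ∈ ⋂₀ (T : Set (Set ℕ+)) := fun A hA => h ⟨A, hA⟩
        rw [hne] at this
        exact this
      choose χ hχ using hcov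
      obtain ⟨Y, V, h1, h2⟩ := brauer χ
      exact hT (χ V).2 ⟨Y, V, h1 ▸ hχ Y, hχ V, h2 ▸ hχ _⟩)
  refine ⟨U, fun A hA => ?_⟩
  by_contra h
  have : Aᶜ ∈ U := hU (by simpa using h)
  exact (Ultrafilter.compl_mem_iff_notMem.1 this) hA

attribute [local instance] Ultrafilter.mul Ultrafilter.semigroup

lemma exists_idem : ∃ U : Ultrafilter ℕ+, (∀ A ∈ U, HasSol A) ∧ U * U = U := by
  let S : Set (Ultrafilter ℕ+) := {U | ∀ A ∈ U, HasSol A}
  have hS : S = ⋂ A ∈ {A : Set ℕ+ | ¬ HasSol A}, {U : Ultrafilter ℕ+ | Aᶜ ∈ U} := by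
    ext U
    simp only [S, Set.mem_ofPred_eq, Set.mem_iInter, Ultrafilter.compl_mem_iff_notMem]
    exact ⟨fun h A hA hAU => hA (h A hAU), fun h A hA => by_contra fun hn => h A hn hA⟩
  have hclosed : IsClosed S := by
    rw [hS]
    exact isClosed_biInter fun A _ => ultrafilter_isClosed_basic _
  obtain ⟨U, hU, hUU⟩ := exists_idempotent_in_compact_subsemigroup
    Ultrafilter.continuous_mul_left S exists_ultrafilter_hasSol hclosed.isCompact (by
      intro U _ W hW A hA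
      have h1 : ∀ᶠ m in (U : Filter ℕ+), ∀ᶠ m' in (W : Filter ℕ+), m * m' ∈ A :=
        (Ultrafilter.eventually_mul U W (· ∈ A)).1 hA
      obtain ⟨m, hm⟩ := h1.exists
      obtain ⟨Y, V, h2, h3, h4⟩ := hW _ hm
      refine ⟨m * Y, m * V, h2, h3, ?_⟩
      have : m * Y + 2 * (m * V) = m * (Y + 2 * V) := by
        apply PNat.eq; simp; ring
      rw [this]
      exact h4)
  exact ⟨U, hU, hUU⟩

/-- In every finite colouring of the positive integers there are `w, z, y, y', v'` with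
`w, z, y, y + 2 w z, y', v'` of one colour and `w z = y' + 2 v'`. -/
theorem system_regular {κ : Type*} [Finite κ] (χ : ℕ+ → κ) :
    ∃ (w z y y' v' : ℕ+) (c : κ), χ w = c ∧ χ z = c ∧ χ y = c ∧ χ (y + 2 * (w * z)) = c ∧
      χ y' = c ∧ χ v' = c ∧ w * z = y' + 2 * v' := by
  obtain ⟨U, hU, hUU⟩ := exists_idem
  obtain ⟨c, hc⟩ := Ultrafilter.eq_pure_of_finite (U.map χ)
  have hA : {n | χ n = c} ∈ U := by
    have : ({c} : Set κ) ∈ U.map χ := by rw [hc]; simp
    exact Ultrafilter.mem_map.1 this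
  set A : Set ℕ+ := {n | χ n = c} with hAdef
  have hB1 : {V | ∃ Y ∈ A, Y + 2 * V ∈ A} ∈ U := by
    by_contra h
    have h' := Ultrafilter.compl_mem_iff_notMem.2 h
    obtain ⟨Y, V, h1, h2, h3⟩ := hU _ (inter_mem hA h')
    exact h2.2 ⟨Y, h1.1, h3.1⟩
  have hB2 : {X | ∃ Y ∈ A, ∃ V ∈ A, X = Y + 2 * V} ∈ U := by
    by_contra h
    have h' := Ultrafilter.compl_mem_iff_notMem.2 h
    obtain ⟨Y, V, h1, h2, h3⟩ := hU _ (inter_mem hA h')
    exact h3.2 ⟨Y, h1.1, V, h2.1, rfl⟩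
  have hB := inter_mem hB1 hB2
  rw [← hUU] at hB
  have h1 := (Ultrafilter.eventually_mul U U (· ∈ {V | ∃ Y ∈ A, Y + 2 * V ∈ A} ∩
    {X | ∃ Y ∈ A, ∃ V ∈ A, X = Y + 2 * V})).1 hB
  obtain ⟨w, hw, hw'⟩ := (h1.and hA).exists
  obtain ⟨z, ⟨⟨y, hy, hy'⟩, y', hy1, v', hv1, he⟩, hz⟩ := (hw.and hA).exists
  exact ⟨w, z, y, y', v', c, hw', hz, hy, hy', hy1, hv1, he⟩

end Pool.Agent.Lib.MP_a5a405_co
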