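import Pool.Agent.Lib.MP_a5a405_co.TK

/-!
Conditional expectations on finite sets, and the cells (residue class, position) of an interval.
-/

open Finset
open scoped Classical

namespace Pool.Agent.Lib.MP_a5a405_co.PR

section ce
variable {α κ κ' : Type}

noncomputable def ce (X : Finset α) (π : α → κ) (f : α → ℝ) (c : κ) : ℝ :=
  (∑ x ∈ X.filter (π · = c), f x) / (X.filter (π · = c)).card

lemma ce_mem (X : Finset α) (π : α → κ) {f : α → ℝ} (hf : ∀ x, 0 ≤ f x ∧ f x ≤ 1) (c : κ) :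
    0 ≤ ce X π f c ∧ ce X π f c ≤ 1 := by
  unfold ce
  refine ⟨div_nonneg (sum_nonneg fun x _ => (hf x).1) (Nat.cast_nonneg _), ?_⟩
  refine div_le_one_of_le₀ ?_ (Nat.cast_nonneg _)
  simpa using sum_le_sum (s := X.filter (π · = c)) fun x _ => (hf x).2

lemma abs_ce_le (X : Finset α) (π : α → κ) {f : α → ℝ} (hf : ∀ x, |f x| ≤ 1) (c : κ) :
    |ce X π f c| ≤ 1 := by
  unfold ce
  rw [abs_div, Nat.abs_cast]
  refine div_le_one_of_le₀ ((abs_sum_le_sum_abs _ _).trans ?_) (Nat.cast_nonneg _)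
  simpa using sum_le_sum (s := X.filter (π · = c)) fun x _ => hf x

lemma sum_fib_ce (X : Finset α) (π : α → κ) (f : α → ℝ) (c : κ) :
    ∑ x ∈ X.filter (π · = c), (f x - ce X π f c) = 0 := by
  rw [sum_sub_distrib, sum_const, nsmul_eq_mul, ce]
  rcases (X.filter (π · = c)).eq_empty_or_nonempty with h | h
  · simp [h]
  · have : ((X.filter (π · = c)).card : ℝ) ≠ 0 := by exact_mod_cast h.card_pos.ne'
    field_simp
    ring

lemma sum_ce_smul {V : Type} [AddCommGroup V] [Module ℝ V] (X : Finset α) (π : α → κ)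
    (f : α → ℝ) (φ : κ → V) : ∑ x ∈ X, (f x - ce X π f (π x)) • φ (π x) = 0 := by
  rw [← sum_fiberwise_of_maps_to (s := X) (t := X.image π) (g := π)
    (fun x hx => mem_image_of_mem _ hx)]
  refine sum_eq_zero fun c _ => ?_
  have : ∀ x ∈ X.filter (π · = c), (f x - ce X π f (π x)) • φ (π x) = (f x - ce X π f c) • φ c := by
    intro x hx
    rw [(mem_filter.1 hx).2]
  rw [sum_congr rfl this, ← sum_smul, sum_fib_ce, zero_smul]

lemma sum_ce_mul (X : Finset α) (π : α → κ) (f : α → ℝ) (φ : κ → ℝ) :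
    ∑ x ∈ X, ce X π f (π x) * φ (π x) = ∑ x ∈ X, f x * φ (π x) := by
  have h := sum_ce_smul X π f φ
  simp only [smul_eq_mul, sub_mul, sum_sub_distrib] at h
  linarith

lemma ce_pyth (X : Finset α) (π' : α → κ') (ψ : κ' → κ) (f : α → ℝ) :
    ∑ x ∈ X, (ce X π' f (π' x) - ce X (fun x => ψ (π' x)) f (ψ (π' x))) ^ 2
      = ∑ x ∈ X, ce X π' f (π' x) ^ 2 - ∑ x ∈ X, ce X (fun x => ψ (π' x)) f (ψ (π' x)) ^ 2 := by
  have h1 := sum_ce_mul X π' f (fun c => ce X (fun x => ψ (π' x)) f (ψ c))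
  have h2 := sum_ce_mul X (fun x => ψ (π' x)) f (ce X (fun x => ψ (π' x)) f)
  have h3 : ∀ x ∈ X, (ce X π' f (π' x) - ce X (fun x => ψ (π' x)) f (ψ (π' x))) ^ 2
      = ce X π' f (π' x) ^ 2 - 2 * (ce X π' f (π' x) * ce X (fun x => ψ (π' x)) f (ψ (π' x)))
        + ce X (fun x => ψ (π' x)) f (ψ (π' x)) * ce X (fun x => ψ (π' x)) f (ψ (π' x)) :=
    fun x _ => by ring
  rw [sum_congr rfl h3, sum_add_distrib, sum_sub_distrib, ← mul_sum, h1, h2]
  simp only [sq]
  linarith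

lemma ce_sub (X : Finset α) (π : α → κ) (f g : α → ℝ) (c : κ) :
    ce X π (fun x => f x - g x) c = ce X π f c - ce X π g c := by
  simp [ce, sum_sub_distrib, sub_div]

lemma ce_comp (X : Finset α) (π : α → κ) (φ : κ → ℝ) {x : α} (hx : x ∈ X) :
    ce X π (fun y => φ (π y)) (π x) = φ (π x) := by
  unfold ce
  have h1 : ∀ y ∈ X.filter (π · = π x), φ (π y) = φ (π x) := fun y hy => by
    rw [(mem_filter.1 hy).2]
  have h2 : ((X.filter (π · = π x)).card : ℝ) ≠ 0 := by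
    have h3 : x ∈ X.filter (π · = π x) := mem_filter.2 ⟨hx, rfl⟩
    exact_mod_cast (card_pos.2 ⟨x, h3⟩).ne'
  rw [sum_congr rfl h1, sum_const, nsmul_eq_mul]
  field_simp

lemma ce_sum {ι : Type} (X : Finset α) (π : α → κ) (S : Finset ι) (f : ι → α → ℝ) (a : ι → ℝ)
    (b : ℝ) (c : κ) :
    ce X π (fun x => (∑ i ∈ S, f i x / a i) / b) c = (∑ i ∈ S, ce X π (f i) c / a i) / b := by
  simp only [ce, sum_div]
  rw [sum_comm]
  refine sum_congr rfl fun i _ => sum_congr rfl fun x _ => by ring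

end ce

def cell (M N n : ℕ) : ZMod M × ℕ := ((n : ZMod M), n * M / N)

noncomputable def fib (M N : ℕ) (c : ZMod M × ℕ) : Finset ℕ := (range N).filter (cell M N · = c)

noncomputable def cav (M N : ℕ) (f : ℕ → ℝ) (c : ZMod M × ℕ) : ℝ := ce (range N) (cell M N) f c

lemma cav_def (M N : ℕ) (f : ℕ → ℝ) (c : ZMod M × ℕ) :
    cav M N f c = (∑ n ∈ fib M N c, f n) / (fib M N c).card := by
  unfold cav ce fib
  congr

lemma cell_lt {M N n : ℕ} (hM : 0 < M) (hn : n < N) : (cell M N n).2 < M := by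
  unfold cell
  rw [Nat.div_lt_iff_lt_mul (by omega), mul_comm M N]
  exact Nat.mul_lt_mul_of_pos_right hn hM

lemma sum_fib {β : Type} [AddCommMonoid β] {M k : ℕ} [NeZero M] (hk : 0 < k) (r : ZMod M) {j : ℕ}
    (hj : j < M) (F : ℕ → β) :
    ∑ n ∈ fib M (M ^ 2 * k) (r, j), F n = ∑ i ∈ Ico (j * k) ((j + 1) * k), F (r.val + M * i) := by
  have hM : 0 < M := Nat.pos_of_ne_zero (NeZero.ne M)
  have hdiv : ∀ n, n * M / (M ^ 2 * k) = n / M / k := by
    intro n
    rw [Nat.div_div_eq_div_mul, show M ^ 2 * k = M * k * M by ring, Nat.mul_div_mul_right _ _ hM]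
  symm
  refine sum_bij (fun i _ => r.val + M * i) ?_ ?_ ?_ (fun _ _ => rfl)
  · intro i hi
    obtain ⟨h1, h2⟩ := mem_Ico.1 hi
    have h3 := r.val_lt
    refine mem_filter.2 ⟨mem_range.2 ?_, ?_⟩
    · have h4 : (j + 1) * k ≤ M * k := Nat.mul_le_mul_right _ hj
      have h5 : M * (i + 1) ≤ M * (M * k) := Nat.mul_le_mul_left _ (by omega)
      nlinarith
    · unfold cell
      rw [hdiv, Nat.add_mul_div_left _ _ hM, Nat.div_eq_of_lt h3, zero_add]
      refine Prod.ext (by simp) ?_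
      exact Nat.div_eq_of_lt_le h1 h2
  · intro i _ i' _ h
    exact mul_left_cancel₀ hM.ne' (add_left_cancel h)
  · intro n hn
    obtain ⟨-, h2⟩ := mem_filter.1 hn
    unfold cell at h2
    rw [hdiv] at h2
    obtain ⟨h3, h4⟩ := Prod.mk.inj h2
    refine ⟨n / M, mem_Ico.2 ⟨?_, ?_⟩, ?_⟩
    · rw [← h4]; exact Nat.div_mul_le_self _ _
    · rw [← h4, ← Nat.div_lt_iff_lt_mul hk]; omega
    · rw [← h3, ZMod.val_natCast, Nat.mod_add_div]

lemma card_fib {M k : ℕ} [NeZero M] (hk : 0 < k) (r : ZMod M) {j : ℕ} (hj : j < M) :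
    (fib M (M ^ 2 * k) (r, j)).card = k := by
  rw [card_eq_sum_ones, sum_fib hk r hj]
  simp [add_mul]

lemma sum_fib_dil {β : Type} [AddCommMonoid β] {M N d : ℕ} (hd : 0 < d)
    (hu : IsUnit (d : ZMod M)) (r : ZMod M) (j : ℕ) (F : ℕ → β) :
    ∑ n ∈ fib M (d * N) (d * r, j), (if d ∣ n then F n else 0)
      = ∑ n ∈ fib M N (r, j), F (d * n) := by
  unfold fib
  rw [sum_filter, sum_filter]
  have h0 := sum_range_dvd (k := N) hd (fun t => if cell M N (t / d) = (r, j) then F t else 0)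
  simp only [Nat.mul_div_cancel_left _ hd] at h0
  rw [← h0]
  refine sum_congr rfl fun t _ => ?_
  by_cases h : d ∣ t
  · obtain ⟨u, rfl⟩ := h
    simp only [dvd_mul_right, if_true, Nat.mul_div_cancel_left _ hd]
    congr 1
    unfold cell
    rw [mul_assoc, Nat.mul_div_mul_left _ _ hd]
    push_cast
    simp [Prod.ext_iff, hu.mul_right_inj]
  · simp [h]

lemma card_fib_dvd {M k d : ℕ} [NeZero M] (hk : 0 < k) (hd : d ∣ k) (hu : IsUnit (d : ZMod M))
    (r : ZMod M) {j : ℕ} (hj : j < M) :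
    (((fib M (M ^ 2 * k) (r, j)).filter (d ∣ ·)).card : ℝ) = k / d := by
  obtain ⟨k', rfl⟩ := hd
  have hd0 : 0 < d := Nat.pos_of_mul_pos_right hk
  have hk' : 0 < k' := Nat.pos_of_mul_pos_left hk
  obtain ⟨r', rfl⟩ : ∃ r', r = d * r' := ⟨hu.unit⁻¹ * r, by simp [← mul_assoc]⟩
  have h := sum_fib_dil (N := M ^ 2 * k') hd0 hu r' j (fun _ => (1 : ℕ))
  rw [← card_eq_sum_ones, card_fib hk' r' hj, ← sum_filter, ← card_eq_sum_ones,
    show d * (M ^ 2 * k') = M ^ 2 * (d * k') by ring] at h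
  rw [h]
  have : (d : ℝ) ≠ 0 := by positivity
  push_cast
  field_simp

lemma tk_fib {M k : ℕ} [NeZero M] (hk : 0 < k) (S : Finset ℕ)
    (hS : ∀ p ∈ S, p.Prime ∧ IsUnit (p : ZMod M)) (hdvd : ∀ p ∈ S, ∀ q ∈ S, p * q ∣ k)
    (r : ZMod M) {j : ℕ} (hj : j < M) {f : ℕ → ℝ} (hf : ∀ t, |f t| ≤ 1) :
    ∑ p ∈ S, cav M (M ^ 2 * k) (fun t => f t * dv p t) (r, j) ^ 2 / p ≤ 1 := by
  have hk' : (0 : ℝ) < k := by exact_mod_cast hk
  have h := tk (fib M (M ^ 2 * k) (r, j)) S hk' (fun p hp => (hS p hp).1)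
    (by rw [card_fib hk r hj])
    (fun p hp => card_fib_dvd hk ((dvd_mul_right _ _).trans (hdvd p hp p hp)) (hS p hp).2 r hj)
    (fun p hp q hq _ => by
      have := card_fib_dvd hk (hdvd p hp q hq)
        (by push_cast; exact (hS p hp).2.mul (hS q hq).2) r hj
      simpa using this) f
  have h2 : ∑ t ∈ fib M (M ^ 2 * k) (r, j), f t ^ 2 ≤ k := by
    have := sum_le_sum (s := fib M (M ^ 2 * k) (r, j))
      fun t _ => (sq_le_one_iff_abs_le_one _).2 (hf t)
    simpa [card_fib hk r hj] using this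
  simp only [cav_def, card_fib hk r hj, div_pow]
  have h3 : ∀ p ∈ S, (∑ t ∈ fib M (M ^ 2 * k) (r, j), f t * dv p t) ^ 2 / (k : ℝ) ^ 2 / p
      = (∑ t ∈ fib M (M ^ 2 * k) (r, j), f t * dv p t) ^ 2 / p / (k : ℝ) ^ 2 := fun p _ => by ring
  rw [sum_congr rfl h3, ← sum_div, div_le_one (by positivity)]
  nlinarith

lemma cav_dil {M k p : ℕ} [NeZero M] (hk : 0 < k) (hp : 0 < p) (hu : IsUnit (p : ZMod M))
    (r : ZMod M) {j : ℕ} (hj : j < M) (f : ℕ → ℝ) :
    cav M (M ^ 2 * k) (fun t => f (p * t)) (r, j) - cav M (p * (M ^ 2 * k)) f (p * r, j)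
      = cav M (p * (M ^ 2 * k)) (fun t => f t * dv p t) (p * r, j) := by
  have h1 : (fib M (p * (M ^ 2 * k)) (p * r, j)).card = p * k := by
    rw [show p * (M ^ 2 * k) = M ^ 2 * (p * k) by ring, card_fib (by positivity) _ hj]
  simp only [cav_def, card_fib hk r hj, h1]
  rw [← sum_fib_dil hp hu r j f]
  have h2 : ∀ t ∈ fib M (p * (M ^ 2 * k)) (p * r, j),
      f t * dv p t = p * (if p ∣ t then f t else 0) - f t := by
    intro t _
    unfold dv
    split_ifs <;> ring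
  rw [sum_congr rfl h2, sum_sub_distrib, ← mul_sum]
  have : (p : ℝ) ≠ 0 := by positivity
  have : (k : ℝ) ≠ 0 := by positivity
  push_cast
  field_simp

lemma abs_sum_range_sub_le {f : ℕ → ℝ} (hf : ∀ t, |f t| ≤ 1) {a b : ℕ} (h : a ≤ b) :
    |∑ t ∈ range b, f t - ∑ t ∈ range a, f t| ≤ (b : ℝ) - a := by
  rw [← sum_Ico_eq_sub _ h]
  refine (abs_sum_le_sum_abs _ _).trans ?_
  simpa [Nat.cast_sub h] using sum_le_sum (s := Ico a b) fun t _ => hf t

lemma cav_close {M a b : ℕ} [NeZero M] (ha : 0 < a) (hab : a ≤ b) {η : ℝ}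
    (hb : (b : ℝ) ≤ (1 + η) * a) (r : ZMod M) {j : ℕ} (hj : j < M) {f : ℕ → ℝ}
    (hf : ∀ t, |f t| ≤ 1) :
    |cav M (M ^ 2 * a) f (r, j) - cav M (M ^ 2 * b) f (r, j)| ≤ (2 * M + 1) * η := by
  have hb0 : 0 < b := ha.trans_le hab
  have ha' : (0 : ℝ) < a := by exact_mod_cast ha
  have hb' : (0 : ℝ) < b := by exact_mod_cast hb0
  have hab' : (a : ℝ) ≤ b := by exact_mod_cast hab
  have hj' : (j : ℝ) + 1 ≤ M := by exact_mod_cast hj
  have hj0 : (0 : ℝ) ≤ j := Nat.cast_nonneg _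
  simp only [cav_def, card_fib ha r hj, card_fib hb0 r hj, sum_fib ha r hj, sum_fib hb0 r hj]
  set g : ℕ → ℝ := fun i => f (r.val + M * i) with hg
  have hg1 : ∀ t, |g t| ≤ 1 := fun t => hf _
  set A := ∑ i ∈ Ico (j * a) ((j + 1) * a), g i with hA
  set B := ∑ i ∈ Ico (j * b) ((j + 1) * b), g i with hB
  have hB1 : |B| ≤ b := by
    have := abs_sum_range_sub_le hg1 (a := j * b) (b := (j + 1) * b) (by nlinarith)
    rw [← sum_Ico_eq_sub _ (by nlinarith)] at this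
    push_cast at this
    linarith
  have hAB : |A - B| ≤ 2 * M * (b - a) := by
    rw [hA, hB, sum_Ico_eq_sub _ (by nlinarith), sum_Ico_eq_sub _ (by nlinarith)]
    have h1 := abs_sum_range_sub_le hg1 (a := j * a) (b := j * b) (Nat.mul_le_mul_left _ hab)
    have h2 := abs_sum_range_sub_le hg1 (a := (j + 1) * a) (b := (j + 1) * b)
      (Nat.mul_le_mul_left _ hab)
    push_cast at h1 h2
    rw [abs_le] at h1 h2 ⊢
    constructor <;> nlinarith [h1.1, h1.2, h2.1, h2.2]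
  have h1 : A / a - B / b = (A - B) / a + B / b * ((b - a) / a) := by field_simp; ring
  have h2 : ((b : ℝ) - a) / a ≤ η := by rw [div_le_iff₀ ha']; linarith
  have h3 : 0 ≤ ((b : ℝ) - a) / a := div_nonneg (by linarith) ha'.le
  have h4 : |B / b| ≤ 1 := by rw [abs_div, abs_of_pos hb', div_le_one hb']; exact hB1
  have h5 : |(A - B) / a| ≤ 2 * M * ((b - a) / a) := by
    rw [abs_div, abs_of_pos ha', ← mul_div_assoc]
    exact div_le_div_of_nonneg_right hAB ha'.le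
  rw [h1]
  refine (abs_add_le _ _).trans ?_
  rw [abs_mul, abs_of_nonneg h3]
  have hM : (0 : ℝ) ≤ M := Nat.cast_nonneg _
  nlinarith [mul_le_mul_of_nonneg_right h4 h3, mul_le_mul_of_nonneg_left h2 hM]

noncomputable def cells (M : ℕ) [NeZero M] : Finset (ZMod M × ℕ) := univ ×ˢ range M

lemma cells_nonempty (M : ℕ) [NeZero M] : (cells M).Nonempty :=
  ⟨(0, 0), mem_product.2 ⟨mem_univ _, mem_range.2 (Nat.pos_of_ne_zero (NeZero.ne M))⟩⟩

lemma card_cells (M : ℕ) [NeZero M] : (cells M).card = M ^ 2 := by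
  simp [cells, sq]

lemma sum_range_cells {β : Type} [AddCommMonoid β] (M N : ℕ) [NeZero M] (F : ℕ → β) :
    ∑ n ∈ range N, F n = ∑ c ∈ cells M, ∑ n ∈ fib M N c, F n := by
  have hM : 0 < M := Nat.pos_of_ne_zero (NeZero.ne M)
  have := sum_fiberwise_of_maps_to (s := range N) (t := cells M) (g := cell M N)
    (fun n hn => mem_product.2 ⟨mem_univ _, mem_range.2 (cell_lt hM (mem_range.1 hn))⟩) F
  rw [← this]
  refine sum_congr rfl fun c _ => ?_
  unfold fib
  congr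

lemma avg_cells {M k : ℕ} [NeZero M] (hk : 0 < k) (f : ℕ → ℝ) (Φ : ZMod M × ℕ → ℝ) :
    (∑ c ∈ cells M, cav M (M ^ 2 * k) f c * Φ c) / (cells M).card
      = (∑ n ∈ range (M ^ 2 * k), f n * Φ (cell M (M ^ 2 * k) n)) / (M ^ 2 * k : ℕ) := by
  have hM : (M : ℝ) ≠ 0 := by exact_mod_cast NeZero.ne M
  have hk' : (k : ℝ) ≠ 0 := by positivity
  rw [sum_range_cells M, card_cells]
  have h : ∀ c ∈ cells M, ∑ n ∈ fib M (M ^ 2 * k) c, f n * Φ (cell M (M ^ 2 * k) n)
      = k * (cav M (M ^ 2 * k) f c * Φ c) := by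
    rintro ⟨r, j⟩ hc
    have hj : j < M := mem_range.1 (mem_product.1 hc).2
    rw [cav_def, card_fib hk r hj, ← mul_assoc, mul_div_cancel₀ _ hk', sum_mul]
    refine sum_congr rfl fun n hn => ?_
    rw [(mem_filter.1 hn).2]
  rw [sum_congr rfl h, ← mul_sum]
  push_cast
  field_simp

/-- Cells for a multiple of the modulus refine the cells. -/
lemma cell_nest {M M' : ℕ} (hM' : 0 < M') (N n : ℕ) :
    cell M N n = (fun c : ZMod (M * M') × ℕ =>
      (ZMod.castHom (dvd_mul_right M M') (ZMod M) c.1, c.2 / M')) (cell (M * M') N n) := by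
  unfold cell
  simp only [map_natCast]
  rw [Nat.div_div_eq_div_mul, ← mul_assoc, Nat.mul_div_mul_right _ _ hM']

end Pool.Agent.Lib.MP_a5a405_co.PR
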