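import Pool.Agent.Lib.MP_a5a405_co.Cells

/-!
The counting lemma for the form 16 n + 17 d m.
-/

open Finset Complex
open scoped Classical

namespace Pool.Agent.Lib.MP_a5a405_co.PR

lemma card_mod_eq {q k : ℕ} (hq : 0 < q) (r : ℕ) :
    ((range (q * k)).filter fun m => m % q = r % q).card = k := by
  have h := Nat.count_modEq_card (q * k) hq r
  rw [Nat.count_eq_card_filter_range] at h
  simp only [Nat.mul_mod_right, not_lt_zero, if_false, add_zero, Nat.mul_div_cancel_left _ hq] at h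
  rw [← h]
  congr

/-- The weight of a pair. -/
noncomputable def wt (q : ℕ) (a b : ℕ → ℝ) (x : ℕ × ℕ) : ℝ :=
  if x.1 % q = x.2 % q then a x.1 * b x.2 else 0

def tau (d : ℕ) (x : ℕ × ℕ) : ℕ := 16 * x.1 + 17 * d * x.2

lemma sum_cong_le {q k : ℕ} (hq : 0 < q) (N : ℕ) :
    ∑ x ∈ range N ×ˢ range (q * k), (if x.1 % q = x.2 % q then (1 : ℝ) else 0) = N * k := by
  rw [sum_product]
  have : ∀ n ∈ range N, ∑ m ∈ range (q * k), (if n % q = m % q then (1 : ℝ) else 0) = k := by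
    intro n _
    rw [← sum_filter, sum_const, nsmul_eq_mul, mul_one]
    have := card_mod_eq (k := k) hq n
    simp only [eq_comm (a := n % q)]
    exact_mod_cast this
  rw [sum_congr rfl this]
  simp

lemma rep_le {q k d : ℕ} (hq : 0 < q) (hco : (16 + 17 * d).Coprime q) (N t : ℕ) :
    ∑ y ∈ range N ×ˢ range (q * k), (if t = tau d y ∧ y.1 % q = y.2 % q then (1 : ℝ) else 0)
      ≤ k := by
  rw [← sum_filter, sum_const, nsmul_eq_mul, mul_one]
  set Y := (range N ×ˢ range (q * k)).filter fun y => t = tau d y ∧ y.1 % q = y.2 % q with hY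
  rcases Y.eq_empty_or_nonempty with h | ⟨y0, hy0⟩
  · simp [h]
  have hmod : ∀ y ∈ Y, t ≡ (16 + 17 * d) * y.2 [MOD q] := by
    intro y hy
    obtain ⟨-, h1, h2⟩ := mem_filter.1 hy
    rw [h1, add_mul]
    exact Nat.ModEq.add_right _ (Nat.ModEq.mul_left _ h2)
  have h := card_le_card_of_injOn (s := Y) (t := (range (q * k)).filter fun m => m % q = y0.2 % q)
    (fun y => y.2) (fun y hy => by
      refine mem_filter.2 ⟨(mem_product.1 (mem_filter.1 hy).1).2, ?_⟩
      exact Nat.ModEq.cancel_left_of_coprime hco.symm ((hmod y hy).symm.trans (hmod y0 hy0)))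
    (fun y hy y' hy' h => by
      have h1 := (mem_filter.1 hy).2.1
      have h2 := (mem_filter.1 hy').2.1
      unfold tau at h1 h2
      dsimp only at h
      rw [h] at h1
      exact Prod.ext (by omega) h)
  rw [card_mod_eq hq] at h
  exact_mod_cast h

lemma abs_wt_le {q : ℕ} {a b : ℕ → ℝ} (ha : ∀ n, |a n| ≤ 1) (hb : ∀ n, |b n| ≤ 1) (x : ℕ × ℕ) :
    |wt q a b x| ≤ if x.1 % q = x.2 % q then 1 else 0 := by
  unfold wt
  split_ifs
  · rw [abs_mul]; exact mul_le_one₀ (ha _) (abs_nonneg _) (hb _)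
  · simp

lemma count_fourier {q k d H : ℕ} (hq : 0 < q) (hk : 0 < k) (hd : 0 < d) (hH : 17 * d ≤ H)
    (hco : (16 + 17 * d).Coprime q) {a b c c' : ℕ → ℝ} (ha : ∀ n, |a n| ≤ 1)
    (hb : ∀ n, |b n| ≤ 1) (hc : ∀ n, |c n| ≤ 1) {δ η τ : ℝ} (hδ : 0 < δ) (hτ : 0 < τ)
    (N L : ℕ) (hN : N = H * (q * k)) (hL : L = 16 * N)
    (hnear : ∀ ζ : ℂ, ‖ζ‖ = 1 → δ * L ≤ ‖fs c L ζ‖ → ‖fs c L ζ - fs c' L ζ‖ ≤ η * L) :
    |∑ x ∈ range N ×ˢ range (q * k), wt q a b x * (if tau d x < L then c (tau d x) else 0)|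
      ≤ N * k * (τ / 2 + 16 * ((∑ t ∈ range L, c' t ^ 2) / L + η ^ 2 / δ ^ 2) / τ
        + 16 * δ * q ^ 2 * H) := by
  have hH0 : 0 < H := by omega
  have hN0 : 0 < N := by rw [hN]; positivity
  have hN' : q * k ≤ N := by rw [hN]; exact Nat.le_mul_of_pos_left _ hH0
  set P := 17 * N with hP
  set X := range N ×ˢ range (q * k) with hX
  have hk' : (0 : ℝ) < k := by exact_mod_cast hk
  have hNr : (0 : ℝ) < N := by exact_mod_cast hN0
  have hPr : (P : ℝ) = 17 * N := by rw [hP]; push_cast; ring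
  have hLr : (L : ℝ) = 16 * N := by rw [hL]; push_cast; ring
  have hLP : L ≤ P := by omega
  have hm : ∀ m < q * k, 17 * d * m < N := by
    intro m hm
    calc 17 * d * m ≤ H * m := Nat.mul_le_mul_right _ hH
      _ < H * (q * k) := Nat.mul_lt_mul_of_pos_left hm hH0
      _ = N := hN.symm
  have hτP : ∀ x ∈ X, tau d x < P := by
    intro x hx
    obtain ⟨h1, h2⟩ := mem_product.1 hx
    have := hm _ (mem_range.1 h2)
    have := mem_range.1 h1
    unfold tau
    omega
  set T := ∑ x ∈ X, wt q a b x * (if tau d x < L then c (tau d x) else 0) with hT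
  set R : ℕ → ℂ := fun j => FS X (tau d) (wt q a b) (rt P ^ j) with hR
  set C : ℕ → ℂ := fun j => fs c L (rt P ^ j) with hC
  have h1 : ∑ j ∈ range P, R j * (starRingEnd ℂ) (C j) = ((P * T : ℝ) : ℂ) := by
    rw [hR, hC]
    refine (bilinear X (range L) (tau d) id (wt q a b) c hτP
      (fun y hy => (mem_range.1 hy).trans_le hLP)).trans ?_
    congr 2
    refine sum_congr rfl fun x _ => ?_
    simp only [id, sum_ite_eq, mem_range]
    split_ifs <;> simp
  have h2 : P * |T| ≤ ∑ j ∈ range P, ‖R j‖ * ‖C j‖ := by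
    have h3 := norm_sum_le (range P) fun j => R j * (starRingEnd ℂ) (C j)
    rw [h1, norm_real, Real.norm_eq_abs, abs_mul, Nat.abs_cast] at h3
    simpa only [norm_mul, RCLike.norm_conj] using h3
  set S := (range P).filter fun j => δ * L ≤ ‖C j‖ with hS
  have hR2 : ∑ j ∈ range P, ‖R j‖ ^ 2 ≤ P * (N * k * k) := by
    rw [hR, parseval X _ _ hτP]
    refine mul_le_mul_of_nonneg_left ?_ (Nat.cast_nonneg _)
    rw [← sum_cong_le (k := k) hq N, sum_mul]
    refine sum_le_sum fun x _ => ?_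
    refine le_trans ?_ (mul_le_mul_of_nonneg_left (rep_le hq hco N (tau d x))
      (by split_ifs <;> simp))
    rw [mul_sum]
    refine sum_le_sum fun y _ => ?_
    have h4 := abs_wt_le (q := q) ha hb x
    have h5 := abs_wt_le (q := q) ha hb y
    by_cases h6 : tau d x = tau d y
    · simp only [h6, if_true, true_and]
      refine (le_abs_self _).trans ?_
      rw [abs_mul]
      exact mul_le_mul h4 h5 (abs_nonneg _) ((abs_nonneg _).trans h4)
    · simp [h6]
  have hR1 : ∑ j ∈ range P, ‖R j‖ ≤ q * (P * N) := by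
    set ar : ℕ → ℕ → ℝ := fun r n => if n % q = r then a n else 0 with har
    set br : ℕ → ℕ → ℝ := fun r n => if n % q = r then b n else 0 with hbr
    have h3 : ∀ j, R j = ∑ r ∈ range q, FS (range N) (16 * ·) (ar r) (rt P ^ j)
        * FS (range (q * k)) (17 * d * ·) (br r) (rt P ^ j) := by
      intro j
      simp only [hR, FS, sum_mul_sum, hX, sum_product]
      rw [sum_comm (s := range q)]
      refine sum_congr rfl fun n _ => ?_
      rw [sum_comm (s := range q)]
      refine sum_congr rfl fun m _ => ?_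
      rw [sum_eq_single (n % q)]
      · simp only [har, hbr, wt, tau, if_true, pow_add, eq_comm (a := m % q)]
        split_ifs <;> push_cast <;> ring
      · intro r _ hr
        simp [har, hr.symm]
      · intro h; exact absurd (mem_range.2 (Nat.mod_lt _ hq)) h
    have h4 : ∀ r ∈ range q, ∑ j ∈ range P, ‖FS (range N) (16 * ·) (ar r) (rt P ^ j)
        * FS (range (q * k)) (17 * d * ·) (br r) (rt P ^ j)‖ ≤ P * N := by
      intro r _
      have h5 := parseval_inj (P := P) (range N) (16 * ·) (ar r)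
        (fun x hx => by have := mem_range.1 hx; omega) (fun x _ y _ h => by omega)
      have h6 := parseval_inj (P := P) (range (q * k)) (17 * d * ·) (br r)
        (fun x hx => by have := hm x (mem_range.1 hx); omega)
        (fun x _ y _ h => mul_left_cancel₀ (by omega : 17 * d ≠ 0) h)
      have h7 := sum_sq_le (f := ar r) (fun n => by
        simp only [har]; split_ifs; exacts [ha n, by simp]) N
      have h8 := sum_sq_le (f := br r) (fun n => by
        simp only [hbr]; split_ifs; exacts [hb n, by simp]) (q * k)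
      have h9 : ((q * k : ℕ) : ℝ) ≤ N := by exact_mod_cast hN'
      calc _ ≤ ∑ j ∈ range P, (‖FS (range N) (16 * ·) (ar r) (rt P ^ j)‖ ^ 2
            + ‖FS (range (q * k)) (17 * d * ·) (br r) (rt P ^ j)‖ ^ 2) / 2 :=
            sum_le_sum fun j _ => by
              rw [norm_mul]
              nlinarith [sq_nonneg (‖FS (range N) (16 * ·) (ar r) (rt P ^ j)‖
                - ‖FS (range (q * k)) (17 * d * ·) (br r) (rt P ^ j)‖)]
        _ ≤ _ := by
          rw [← sum_div, sum_add_distrib, h5, h6]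
          have : (0 : ℝ) ≤ P := Nat.cast_nonneg _
          nlinarith [mul_le_mul_of_nonneg_left h7 this, mul_le_mul_of_nonneg_left (h8.trans h9) this]
    simp only [h3]
    refine (sum_le_sum fun j _ => norm_sum_le _ _).trans ?_
    rw [sum_comm]
    simpa using sum_le_sum h4
  have hL0 : (0 : ℝ) < L := by rw [hLr]; positivity
  have hSc : (S.card : ℝ) * (δ * L) ^ 2 ≤ P * L := card_large_le hLP hc (by positivity)
  have hC2 : ∑ j ∈ S, ‖C j‖ ^ 2 ≤ 2 * P * (∑ t ∈ range L, c' t ^ 2 + η ^ 2 / δ ^ 2 * L) := by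
    have h3 : ∀ j ∈ S, ‖C j‖ ^ 2 ≤ 2 * ‖fs c' L (rt P ^ j)‖ ^ 2 + 2 * (η * L) ^ 2 := by
      intro j hj
      have h4 := hnear _ (norm_rt_pow P j) (mem_filter.1 hj).2
      have h5 := norm_sub_norm_le (fs c L (rt P ^ j)) (fs c' L (rt P ^ j))
      have h6 : ‖C j‖ ≤ ‖fs c' L (rt P ^ j)‖ + η * L := by simp only [hC]; linarith
      have h7 := pow_le_pow_left₀ (norm_nonneg _) h6 2
      nlinarith [sq_nonneg (‖fs c' L (rt P ^ j)‖ - η * L)]
    refine (sum_le_sum h3).trans ?_
    rw [sum_add_distrib, ← mul_sum, sum_const, nsmul_eq_mul]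
    have h4 : ∑ j ∈ S, ‖fs c' L (rt P ^ j)‖ ^ 2 ≤ P * ∑ t ∈ range L, c' t ^ 2 := by
      rw [← parseval_fs hLP]
      exact sum_le_sum_of_subset_of_nonneg (filter_subset _ _) fun _ _ _ => sq_nonneg _
    have h5 : (S.card : ℝ) * (η * L) ^ 2 ≤ P * (η ^ 2 / δ ^ 2 * L) := by
      calc (S.card : ℝ) * (η * L) ^ 2 = η ^ 2 / δ ^ 2 * (S.card * (δ * L) ^ 2) := by field_simp
        _ ≤ η ^ 2 / δ ^ 2 * (P * L) := mul_le_mul_of_nonneg_left hSc (by positivity)
        _ = _ := by ring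
    linarith
  have h3 : ∑ j ∈ range P, ‖R j‖ * ‖C j‖ ≤ ∑ j ∈ range P, (τ / k / 2 * ‖R j‖ ^ 2
      + k / τ / 2 * (if j ∈ S then ‖C j‖ ^ 2 else 0) + δ * L * ‖R j‖) := by
    refine sum_le_sum fun j hj => ?_
    have h4 : 0 ≤ δ * L * ‖R j‖ := by positivity
    split_ifs with h5
    · have h6 : τ / k / 2 * ‖R j‖ ^ 2 + k / τ / 2 * ‖C j‖ ^ 2 - ‖R j‖ * ‖C j‖
          = k / τ / 2 * (τ / k * ‖R j‖ - ‖C j‖) ^ 2 := by field_simp; ring
      have h7 : 0 ≤ k / τ / 2 * (τ / k * ‖R j‖ - ‖C j‖) ^ 2 := by positivity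
      linarith
    · have h6 : ‖C j‖ ≤ δ * L := by
        by_contra hc
        exact h5 (mem_filter.2 ⟨hj, (not_le.1 hc).le⟩)
      have h7 : 0 ≤ τ / k / 2 * ‖R j‖ ^ 2 := by positivity
      nlinarith [mul_le_mul_of_nonneg_left h6 (norm_nonneg (R j))]
  rw [sum_add_distrib, sum_add_distrib, ← mul_sum, ← mul_sum, ← mul_sum, sum_ite_mem,
    inter_eq_right.2 (filter_subset _ _)] at h3
  have hP0 : (0 : ℝ) < P := by rw [hPr]; positivity
  refine le_of_mul_le_mul_left (h2.trans (h3.trans ?_)) hP0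
  have hNH : (N : ℝ) = H * (q * k) := by rw [hN]; push_cast; ring
  calc _ ≤ τ / k / 2 * (P * (N * k * k))
        + k / τ / 2 * (2 * P * (∑ t ∈ range L, c' t ^ 2 + η ^ 2 / δ ^ 2 * L))
        + δ * L * (q * (P * N)) := by gcongr
    _ = P * (N * k * (τ / 2 + 16 * ((∑ t ∈ range L, c' t ^ 2) / L + η ^ 2 / δ ^ 2) / τ))
        + P * N * (16 * δ * q * N) := by rw [hLr]; field_simp
    _ = _ := by
      have : 16 * δ * q * N = k * (16 * δ * q ^ 2 * H) := by rw [hNH]; ring
      rw [this]; ring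

lemma norm_geom_le {z : ℂ} (hz : ‖z‖ = 1) (a b : ℕ) :
    ‖∑ i ∈ Ico a b, z ^ i‖ * ‖z - 1‖ ≤ 2 := by
  rcases le_total a b with h | h
  · rw [← norm_mul, geom_sum_Ico_mul _ h]
    refine (norm_sub_le _ _).trans ?_
    rw [norm_pow, norm_pow, hz]; norm_num
  · simp [Ico_eq_empty_of_le h]

lemma fs_cell_le {M k : ℕ} [NeZero M] (hk : 0 < k) {G : ZMod M × ℕ → ℝ} (hG : ∀ c, |G c| ≤ 1)
    {ζ : ℂ} (hζ : ‖ζ‖ = 1) :
    ‖fs (fun t => G (cell M (M ^ 2 * k) t)) (M ^ 2 * k) ζ‖ * ‖ζ ^ M - 1‖ ≤ 2 * M ^ 2 := by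
  rw [fs_def, sum_range_cells M]
  refine (mul_le_mul_of_nonneg_right (norm_sum_le _ _) (norm_nonneg _)).trans ?_
  rw [sum_mul]
  have h : ∀ c ∈ cells M, ‖∑ n ∈ fib M (M ^ 2 * k) c, (G (cell M (M ^ 2 * k) n) : ℂ) * ζ ^ n‖
      * ‖ζ ^ M - 1‖ ≤ 2 := by
    rintro ⟨r, j⟩ hc
    have hj : j < M := mem_range.1 (mem_product.1 hc).2
    have h1 : ∀ n ∈ fib M (M ^ 2 * k) (r, j), (G (cell M (M ^ 2 * k) n) : ℂ) * ζ ^ n
        = G (r, j) * ζ ^ n := fun n hn => by rw [(mem_filter.1 hn).2]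
    rw [sum_congr rfl h1, ← mul_sum, sum_fib hk r hj]
    simp only [pow_add, pow_mul, ← mul_sum]
    rw [norm_mul, norm_mul, norm_pow, hζ, one_pow, one_mul, norm_real, mul_assoc]
    have h2 := norm_geom_le (z := ζ ^ M) (by rw [norm_pow, hζ, one_pow]) (j * k) ((j + 1) * k)
    exact (mul_le_mul (hG _) h2 (by positivity) zero_le_one).trans (by norm_num)
  have := sum_le_sum h
  rw [sum_const, card_cells, nsmul_eq_mul] at this
  push_cast at this
  linarith

lemma fs_sub (f g : ℕ → ℝ) (L : ℕ) (ζ : ℂ) :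
    fs (fun t => f t - g t) L ζ = fs f L ζ - fs g L ζ := by
  simp [fs_def, sub_mul, sum_sub_distrib]

lemma fs_major_le {M L m : ℕ} (hM : 0 < M) (hL : 0 < L) (hm : m ∣ M) (hm1 : 1 ≤ m) {g : ℕ → ℝ}
    (hg : ∀ t, 0 ≤ g t ∧ g t ≤ 1) {ζ : ℂ} (hζ : ‖ζ‖ = 1) {C : ℝ} (h : ‖ζ ^ m - 1‖ ≤ C / L) :
    ‖fs (fun t => g t - cav M L g (cell M L t)) L ζ‖ ≤ C / M * L := by
  have hL' : (0 : ℝ) < L := by exact_mod_cast hL
  have hM' : (0 : ℝ) < M := by exact_mod_cast hM
  have hC : 0 ≤ C := by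
    have := (norm_nonneg _).trans h
    exact (div_nonneg_iff.1 this).elim (·.1) fun h => by linarith [h.2]
  have key : ∀ t t', t ≤ t' → cell M L t = cell M L t' → ‖ζ ^ t' - ζ ^ t‖ ≤ C / M := by
    intro t t' htt hc
    obtain ⟨h1, h2⟩ := Prod.mk.inj hc
    obtain ⟨i, hi⟩ := hm.trans ((Nat.modEq_iff_dvd' htt).1 ((ZMod.natCast_eq_natCast_iff _ _ _).1 h1))
    have h3 : (t' - t) * M < L := by
      have h4 := Nat.div_add_mod (t * M) L
      have h5 := Nat.div_add_mod (t' * M) L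
      have h6 := Nat.mod_lt (t' * M) hL
      rw [Nat.sub_mul]
      rw [h2] at h4
      omega
    have h4 : ζ ^ t' - ζ ^ t = ζ ^ t * ((ζ ^ m) ^ i - 1 ^ i) := by
      rw [← pow_mul, ← hi, mul_sub, ← pow_add, Nat.add_sub_cancel' htt]; simp
    rw [h4, norm_mul, norm_pow, hζ, one_pow, one_mul]
    refine (norm_pow_sub_pow_le (by rw [norm_pow, hζ, one_pow]) norm_one i).trans ?_
    have h5 : i * M ≤ L := by
      have : i ≤ t' - t := by rw [hi]; exact Nat.le_mul_of_pos_left _ hm1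
      exact (Nat.mul_le_mul_right _ this).trans h3.le
    have h6 : (i : ℝ) ≤ L / M := by rw [le_div_iff₀ hM']; exact_mod_cast h5
    calc _ ≤ (L / M : ℝ) * (C / L) := by gcongr
      _ = _ := by field_simp
  set rep := Function.invFunOn (cell M L) (range L : Set ℕ) with hrep
  have h0 := sum_ce_smul (range L) (cell M L) g (fun c => ζ ^ rep c)
  have h1 : fs (fun t => g t - cav M L g (cell M L t)) L ζ
      = ∑ t ∈ range L, ((g t - cav M L g (cell M L t) : ℝ) : ℂ) * (ζ ^ t - ζ ^ rep (cell M L t)) := by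
    simp only [mul_sub, sum_sub_distrib]
    simp only [real_smul] at h0
    unfold cav
    rw [h0, sub_zero]
    rfl
  rw [h1]
  refine (norm_sum_le _ _).trans ?_
  have h2 : ∀ t ∈ range L, ‖((g t - cav M L g (cell M L t) : ℝ) : ℂ)
      * (ζ ^ t - ζ ^ rep (cell M L t))‖ ≤ C / M := by
    intro t ht
    have h3 : cell M L (rep (cell M L t)) = cell M L t :=
      Function.invFunOn_eq (f := cell M L) (s := (range L : Set ℕ)) ⟨t, by simpa using ht, rfl⟩
    have h4 : ‖ζ ^ t - ζ ^ rep (cell M L t)‖ ≤ C / M := by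
      rcases le_total t (rep (cell M L t)) with h5 | h5
      · rw [norm_sub_rev]; exact key _ _ h5 h3.symm
      · exact key _ _ h5 h3
    have h5 := ce_mem (range L) (cell M L) hg (cell M L t)
    have h6 : |g t - cav M L g (cell M L t)| ≤ 1 := by
      unfold cav
      rw [abs_le]
      constructor <;> linarith [(hg t).1, (hg t).2, h5.1, h5.2]
    rw [norm_mul, norm_real, Real.norm_eq_abs]
    exact (mul_le_mul h6 h4 (norm_nonneg _) zero_le_one).trans (by rw [one_mul])
  have := sum_le_sum h2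
  rw [sum_const, card_range, nsmul_eq_mul] at this
  linarith

lemma card_near_end {M l Δ : ℕ} :
    ∑ n ∈ range (M * l), (if l ≤ n % l + Δ then (1 : ℝ) else 0) ≤ M * Δ := by
  induction M with
  | zero => simp
  | succ M ih =>
    rw [add_mul, one_mul, sum_range_add]
    have h : ∑ x ∈ range l, (if l ≤ (M * l + x) % l + Δ then (1 : ℝ) else 0) ≤ Δ := by
      rw [← sum_filter, sum_const, nsmul_eq_mul, mul_one]
      have h1 : ((range l).filter fun x => l ≤ (M * l + x) % l + Δ) ⊆ Ico (l - Δ) l := by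
        intro x hx
        obtain ⟨h2, h3⟩ := mem_filter.1 hx
        have h4 := mem_range.1 h2
        rw [mul_comm, Nat.mul_add_mod, Nat.mod_eq_of_lt h4] at h3
        exact mem_Ico.2 ⟨by omega, h4⟩
      have h2 := card_le_card h1
      rw [Nat.card_Ico] at h2
      exact_mod_cast h2.trans (by omega)
    push_cast
    linarith

/-- The deterministic inequality: if there is no solution, the main term is small. -/
theorem det_main {q k d H M M' C : ℕ} [NeZero M] (hq : 0 < q) (hk : 0 < k) (hd : 0 < d)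
    (hH : 17 * d ≤ H) (hco : (16 + 17 * d).Coprime q) (hM' : 0 < M') {κ : ZMod M}
    (hκ : ∀ n m : ℕ, n % q = m % q → ((tau d (n, m) : ℕ) : ZMod M) = κ * n)
    {a b g : ℕ → ℝ} (ha : ∀ n, 0 ≤ a n ∧ a n ≤ 1) (hb : ∀ n, 0 ≤ b n ∧ b n ≤ 1)
    (hg : ∀ n, 0 ≤ g n ∧ g n ≤ 1) (hno : ∀ n m, a n * b m * g (tau d (n, m)) = 0)
    {δ τ : ℝ} (hδ : 0 < δ) (hτ : 0 < τ) (N L : ℕ) (hN : N = H * (q * k)) (hL : L = 16 * N)
    (hMN : M ^ 2 ∣ N) (hMC : M ≤ C) (hδC : 4 * (M : ℝ) ^ 2 / δ ≤ C)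
    (hdvd : ∀ m, 1 ≤ m → m ≤ C → m ∣ M * M')
    (hmaj : ∀ ζ : ℂ, ‖ζ‖ = 1 → δ / 2 * L ≤ ‖fs g L ζ‖ →
      ∃ m, 1 ≤ m ∧ m ≤ C ∧ ‖ζ ^ m - 1‖ ≤ C / L) :
    (∑ x ∈ range N ×ˢ range (q * k), wt q a b x * cav M L g (κ * x.1, (cell M N x.1).2)) / (N * k)
      ≤ 2 * M * d / H + (τ / 2 + 16 * ((∑ t ∈ range L, (cav (M * M') L g (cell (M * M') L t)
        - cav M L g (cell M L t)) ^ 2) / L + (C / (M * M' : ℕ)) ^ 2 / δ ^ 2) / τ
        + 16 * δ * q ^ 2 * H) := by
  have hM : 0 < M := Nat.pos_of_ne_zero (NeZero.ne M)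
  have hH0 : 0 < H := by omega
  have hN0 : 0 < N := by rw [hN]; positivity
  have hL0 : 0 < L := by omega
  have hL' : (0 : ℝ) < L := by exact_mod_cast hL0
  have habs : ∀ {f : ℕ → ℝ}, (∀ n, 0 ≤ f n ∧ f n ≤ 1) → ∀ n, |f n| ≤ 1 := fun hf n => by
    rw [abs_of_nonneg (hf n).1]; exact (hf n).2
  have hG : ∀ c, 0 ≤ cav M L g c ∧ cav M L g c ≤ 1 := ce_mem _ _ hg
  have h1 := count_fourier hq hk hd hH hco (habs ha) (habs hb)
    (c := fun t => g t - cav M L g (cell M L t))
    (c' := fun t => cav (M * M') L g (cell (M * M') L t) - cav M L g (cell M L t))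
    (fun t => by
      rw [abs_le]
      constructor <;> linarith [(hg t).1, (hg t).2, (hG (cell M L t)).1, (hG (cell M L t)).2])
    hδ hτ (η := C / (M * M' : ℕ)) N L hN hL (by
      intro ζ hζ hl
      have h2 : ∃ m, 1 ≤ m ∧ m ≤ C ∧ ‖ζ ^ m - 1‖ ≤ C / L := by
        by_cases h3 : δ / 2 * L ≤ ‖fs g L ζ‖
        · exact hmaj ζ hζ h3
        · rw [fs_sub] at hl
          have h4 := norm_sub_le (fs g L ζ) (fs (fun t => cav M L g (cell M L t)) L ζ)
          have h5 : δ / 2 * L ≤ ‖fs (fun t => cav M L g (cell M L t)) L ζ‖ := by linarith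
          obtain ⟨k', hk'⟩ : M ^ 2 ∣ L := hL ▸ hMN.mul_left 16
          have hk0 : 0 < k' := Nat.pos_of_mul_pos_left (hk' ▸ hL0)
          have h6 := fs_cell_le hk0 (G := cav M L g)
            (fun c => by rw [abs_of_nonneg (hG c).1]; exact (hG c).2) hζ
          rw [← hk'] at h6
          refine ⟨M, hM, hMC, ?_⟩
          rw [le_div_iff₀ hL']
          refine le_trans ?_ hδC
          rw [le_div_iff₀ hδ]
          nlinarith [mul_le_mul_of_nonneg_right h5 (norm_nonneg (ζ ^ M - 1))]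
      obtain ⟨m, hm1, hm2, hm3⟩ := h2
      rw [← fs_sub]
      simp only [sub_sub_sub_cancel_right]
      exact fs_major_le (by positivity) hL0 (hdvd m hm1 hm2) hm1 hg hζ hm3)
  obtain ⟨k', hk'⟩ := hMN
  set l := M * k' with hl
  have hNl : N = M * l := by rw [hk', hl]; ring
  have hl0 : 0 < l := Nat.pos_of_mul_pos_left (hNl ▸ hN0)
  have hwt : ∀ x, 0 ≤ wt q a b x := fun x => by
    unfold wt; split_ifs; exacts [mul_nonneg (ha _).1 (hb _).1, le_rfl]
  have h2 : ∀ x ∈ range N ×ˢ range (q * k), wt q a b x * cav M L g (κ * x.1, (cell M N x.1).2)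
      ≤ (if x.1 % q = x.2 % q then 1 else 0) * (if l ≤ x.1 % l + 2 * d * (q * k) then 1 else 0)
        - wt q a b x * (if tau d x < L then g (tau d x) - cav M L g (cell M L (tau d x)) else 0) := by
    rintro ⟨n, m⟩ hx
    obtain ⟨hn, hm⟩ := mem_product.1 hx
    have hn := mem_range.1 hn
    have hm := mem_range.1 hm
    dsimp only at hn hm ⊢
    by_cases hc : n % q = m % q
    swap
    · simp [wt, hc]
    have h3 : wt q a b (n, m) * g (tau d (n, m)) = 0 := by simp only [wt, hc, if_true]; exact hno n m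
    have h4 : wt q a b (n, m) ≤ 1 := by
      have := abs_wt_le (q := q) (habs ha) (habs hb) (n, m)
      simp only [hc, if_true] at this
      exact (le_abs_self _).trans this
    have h5 := hwt (n, m)
    simp only [hc, if_true, one_mul]
    by_cases hbad : l ≤ n % l + 2 * d * (q * k)
    · rw [if_pos hbad]
      have h6 := mul_le_one₀ h4 (hG (κ * n, (cell M N n).2)).1 (hG (κ * n, (cell M N n).2)).2
      split_ifs
      · have := mul_nonneg h5 (hG (cell M L (tau d (n, m)))).1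
        rw [mul_sub, h3]; linarith
      · simpa using h6
    · rw [if_neg hbad]
      have h6 : 17 * d * m ≤ 16 * (2 * d * (q * k)) := by nlinarith
      have h7 := Nat.div_add_mod n l
      have h8 : tau d (n, m) / (16 * l) = n / l := by
        have e1 : n / l * (16 * l) = 16 * (l * (n / l)) := by ring
        have e2 : (n / l + 1) * (16 * l) = 16 * (l * (n / l)) + 16 * l := by ring
        refine Nat.div_eq_of_lt_le ?_ ?_ <;> unfold tau <;> dsimp only <;> omega
      have h9 : n / l < M := by rw [Nat.div_lt_iff_lt_mul hl0]; omega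
      have h10 : tau d (n, m) < L := by
        rw [← h8, Nat.div_lt_iff_lt_mul (by omega)] at h9
        rw [hL, hNl]; nlinarith
      have h11 : cell M L (tau d (n, m)) = (κ * n, (cell M N n).2) := by
        unfold cell
        refine Prod.ext (hκ n m hc) ?_
        dsimp only
        rw [hL, hNl, show 16 * (M * l) = 16 * l * M by ring, Nat.mul_div_mul_right _ _ hM, h8,
          mul_comm M l, Nat.mul_div_mul_right _ _ hM]
      rw [if_pos h10, h11, mul_sub, h3]
      linarith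
  have h3 : ∑ x ∈ range N ×ˢ range (q * k), (if x.1 % q = x.2 % q then (1 : ℝ) else 0)
      * (if l ≤ x.1 % l + 2 * d * (q * k) then 1 else 0) ≤ k * (M * (2 * d * (q * k) : ℕ)) := by
    rw [sum_product]
    have h4 : ∀ n ∈ range N, ∑ m ∈ range (q * k), (if n % q = m % q then (1 : ℝ) else 0)
        * (if l ≤ n % l + 2 * d * (q * k) then 1 else 0)
        = k * (if l ≤ n % l + 2 * d * (q * k) then 1 else 0) := by
      intro n _
      rw [← sum_mul, ← sum_filter, sum_const, nsmul_eq_mul, mul_one]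
      have := card_mod_eq (k := k) hq n
      simp only [eq_comm (a := n % q)]
      rw [this]
    rw [sum_congr rfl h4, ← mul_sum, hNl]
    exact mul_le_mul_of_nonneg_left card_near_end (Nat.cast_nonneg _)
  have h4 := sum_le_sum h2
  rw [sum_sub_distrib] at h4
  have hk'' : (0 : ℝ) < k := by exact_mod_cast hk
  have hNr : (0 : ℝ) < N := by exact_mod_cast hN0
  have hHr : (0 : ℝ) < H := by exact_mod_cast hH0
  rw [div_le_iff₀ (by positivity)]
  have h5 : (k : ℝ) * (M * (2 * d * (q * k) : ℕ)) = 2 * M * d / H * (N * k) := by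
    rw [hN]; push_cast; field_simp
  have h6 := (abs_le.1 h1).1
  rw [add_mul]
  linarith

end Pool.Agent.Lib.MP_a5a405_co.PR
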