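import Pool.Agent.Lib.MP_a5a405_co.Mean

/-!
An Efron-Stein inequality on subsets of a finite set of primes, and a coupling of squarefree numbers
with prescribed ratio and prescribed residue.
-/

open Finset Filter Topology
open scoped Classical

namespace Pool.Agent.Lib.MP_a5a405_co.PR

/-- Weighted sum over the subsets. -/
noncomputable def wsum (w : ℕ → ℝ) (P : Finset ℕ) (f : Finset ℕ → ℝ) : ℝ :=
  ∑ T ∈ P.powerset, (∏ p ∈ T, w p) * f T

lemma wsum_insert (w : ℕ → ℝ) {P : Finset ℕ} {q : ℕ} (hq : q ∉ P) (f : Finset ℕ → ℝ) :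
    wsum w (insert q P) f = wsum w P f + w q * wsum w P (fun T => f (insert q T)) := by
  unfold wsum
  rw [sum_powerset_insert hq, mul_sum]
  congr 1
  refine sum_congr rfl fun T hT => ?_
  rw [prod_insert (fun h => hq (mem_powerset.1 hT h))]
  ring

lemma wsum_nonneg {w : ℕ → ℝ} (hw : ∀ p, 0 ≤ w p) (P : Finset ℕ) {f : Finset ℕ → ℝ}
    (hf : ∀ T, 0 ≤ f T) : 0 ≤ wsum w P f :=
  sum_nonneg fun T _ => mul_nonneg (prod_nonneg fun p _ => hw p) (hf T)

lemma wsum_cs {w : ℕ → ℝ} (hw : ∀ p, 0 ≤ w p) (P : Finset ℕ) (f : Finset ℕ → ℝ) :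
    wsum w P f ^ 2 ≤ wsum w P (fun _ => 1) * wsum w P (fun T => f T ^ 2) := by
  unfold wsum
  refine sum_sq_le_sum_mul_sum_of_sq_le_mul _
    (fun T _ => mul_nonneg (prod_nonneg fun p _ => hw p) zero_le_one)
    (fun T _ => mul_nonneg (prod_nonneg fun p _ => hw p) (sq_nonneg _)) fun T _ => le_of_eq (by ring)

lemma wsum_sub (w : ℕ → ℝ) (P : Finset ℕ) (f g : Finset ℕ → ℝ) :
    wsum w P (fun T => f T - g T) = wsum w P f - wsum w P g := by
  simp [wsum, mul_sub, sum_sub_distrib]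

lemma wsum_pos {w : ℕ → ℝ} (hw : ∀ p, 0 ≤ w p) (P : Finset ℕ) : 1 ≤ wsum w P (fun _ => 1) := by
  unfold wsum
  simpa using single_le_sum (s := P.powerset) (f := fun T => (∏ p ∈ T, w p) * 1)
    (fun T _ => mul_nonneg (prod_nonneg fun p _ => hw p) zero_le_one) (empty_mem_powerset P)

lemma es {w : ℕ → ℝ} (hw : ∀ p, 0 ≤ w p) (P : Finset ℕ) (f : Finset ℕ → ℝ) :
    wsum w P (fun _ => 1) * wsum w P (fun T => f T ^ 2) - wsum w P f ^ 2
      ≤ wsum w P (fun _ => 1)
        * ∑ p ∈ P, w p * wsum w (P.erase p) (fun T => (f (insert p T) - f T) ^ 2) := by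
  induction P using Finset.induction_on generalizing f with
  | empty => simp [wsum]
  | insert q P hq ih =>
    have h0 := ih f
    have h1 := ih fun T => f (insert q T)
    have h2 := wsum_cs hw P fun T => f (insert q T) - f T
    rw [wsum_sub] at h2
    have h3 : ∑ p ∈ P, w p * wsum w ((insert q P).erase p) (fun T => (f (insert p T) - f T) ^ 2)
        = ∑ p ∈ P, w p * wsum w (P.erase p) (fun T => (f (insert p T) - f T) ^ 2)
          + w q * ∑ p ∈ P, w p * wsum w (P.erase p)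
            (fun T => (f (insert q (insert p T)) - f (insert q T)) ^ 2) := by
      rw [mul_sum, ← sum_add_distrib]
      refine sum_congr rfl fun p hp => ?_
      rw [erase_insert_of_ne (by rintro rfl; exact hq hp),
        wsum_insert w (fun h => hq (mem_of_mem_erase h))]
      simp only [insert_comm p q]
      ring
    rw [sum_insert hq, erase_insert hq, h3]
    simp only [wsum_insert w hq]
    have hq0 := hw q
    have h4 := mul_le_mul_of_nonneg_left h0 (by linarith : 0 ≤ 1 + w q)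
    have h5 := mul_le_mul_of_nonneg_left h1 (mul_nonneg (by linarith : 0 ≤ 1 + w q) hq0)
    have h6 := mul_le_mul_of_nonneg_left h2 hq0
    have h7 := mul_nonneg (mul_nonneg hq0 hq0) (mul_nonneg (wsum_nonneg hw P fun _ => zero_le_one)
      (wsum_nonneg hw P fun T => sq_nonneg (f (insert q T) - f T)))
    nlinarith

lemma es' {w : ℕ → ℝ} (hw : ∀ p, 0 ≤ w p) (P : Finset ℕ) (f : Finset ℕ → ℝ) :
    wsum w P (fun T => (f T - wsum w P f / wsum w P (fun _ => 1)) ^ 2)
      ≤ ∑ p ∈ P, w p * wsum w (P.erase p) (fun T => (f (insert p T) - f T) ^ 2) := by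
  have h0 := es hw P f
  have hZ : 0 < wsum w P (fun _ => 1) := one_pos.trans_le (wsum_pos hw P)
  refine le_of_mul_le_mul_left (le_trans (le_of_eq ?_) h0) hZ
  set c := wsum w P f / wsum w P (fun _ => 1) with hc
  have h1 : wsum w P (fun T => (f T - c) ^ 2)
      = wsum w P (fun T => f T ^ 2) - 2 * c * wsum w P f + c ^ 2 * wsum w P (fun _ => 1) := by
    simp only [wsum, mul_sum, ← sum_sub_distrib, ← sum_add_distrib]
    exact sum_congr rfl fun T _ => by ring
  rw [h1, hc]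
  field_simp
  ring

/-- The coupling map. -/
noncomputable def phi (Q g k : ℕ) : ℕ := Q * ⌈√2 * ((k / Q : ℕ) + 1 : ℝ)⌉₊ + g * k % Q

lemma phi_modEq (Q g k : ℕ) : phi Q g k ≡ g * k [MOD Q] := by
  unfold phi Nat.ModEq
  simp

lemma phi_inj {Q g : ℕ} (hQ : 0 < Q) (hg : g.Coprime Q) : Function.Injective (phi Q g) := by
  intro k k' h
  have h1 : k ≡ k' [MOD Q] := by
    refine Nat.ModEq.cancel_left_of_coprime hg.symm ?_
    exact (phi_modEq Q g k).symm.trans (h ▸ phi_modEq Q g k')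
  have h2 : g * k % Q = g * k' % Q := h1.mul_left g
  unfold phi at h
  rw [h2, add_left_inj, mul_right_inj' hQ.ne'] at h
  have hs : (1 : ℝ) ≤ √2 := Real.one_le_sqrt.2 (by norm_num)
  have key : ∀ a b : ℕ, a < b → ⌈√2 * (a + 1 : ℝ)⌉₊ < ⌈√2 * (b + 1 : ℝ)⌉₊ := by
    intro a b hab
    have h3 : (a : ℝ) + 1 ≤ b := by exact_mod_cast hab
    have h4 : ⌈√2 * (a + 1 : ℝ) + 1⌉₊ ≤ ⌈√2 * (b + 1 : ℝ)⌉₊ := Nat.ceil_mono (by nlinarith)
    rw [Nat.ceil_add_one (by positivity)] at h4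
    omega
  have h3 : k / Q = k' / Q := by
    rcases lt_trichotomy (k / Q) (k' / Q) with h3 | h3 | h3
    · exact absurd h (key _ _ h3).ne
    · exact h3
    · exact absurd h (key _ _ h3).ne'
  rw [← Nat.div_add_mod k Q, ← Nat.div_add_mod k' Q, h3, h1]

lemma phi_bounds {Q : ℕ} (hQ : 0 < Q) (g k : ℕ) :
    √2 * k ≤ phi Q g k ∧ (phi Q g k : ℝ) ≤ √2 * k + 4 * Q := by
  have hs : (1 : ℝ) ≤ √2 := Real.one_le_sqrt.2 (by norm_num)
  have hs2 : √2 ≤ (2 : ℝ) := Real.sqrt_le_iff.2 (by norm_num)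
  have h1 : (k : ℝ) = Q * (k / Q : ℕ) + (k % Q : ℕ) := by exact_mod_cast (Nat.div_add_mod k Q).symm
  have h2 : ((k % Q : ℕ) : ℝ) ≤ Q := by exact_mod_cast (Nat.mod_lt k hQ).le
  have h3 : ((g * k % Q : ℕ) : ℝ) ≤ Q := by exact_mod_cast (Nat.mod_lt _ hQ).le
  have h4 := Nat.le_ceil (√2 * ((k / Q : ℕ) + 1 : ℝ))
  have h5 := (Nat.ceil_lt_add_one (a := √2 * ((k / Q : ℕ) + 1 : ℝ)) (by positivity)).le
  have hQ' : (0 : ℝ) ≤ Q := Nat.cast_nonneg _
  have h6 := mul_le_mul_of_nonneg_left h4 hQ'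
  have h7 := mul_le_mul_of_nonneg_left h5 hQ'
  have h8 : (0 : ℝ) ≤ (k % Q : ℕ) := Nat.cast_nonneg _
  have h9 : (0 : ℝ) ≤ (g * k % Q : ℕ) := Nat.cast_nonneg _
  unfold phi
  rw [Nat.cast_add, Nat.cast_mul]
  constructor <;> nlinarith

lemma phi_eventually {Q : ℕ} (hQ : 0 < Q) (g : ℕ) {η : ℝ} (hη : 0 < η) :
    ∃ K0 : ℕ, 0 < K0 ∧ ∀ k, K0 ≤ k → phi Q g k ≤ 2 * k ∧ 16 * k ^ 8 ≤ phi Q g k ^ 8 ∧
      (phi Q g k : ℝ) ^ 8 ≤ (1 + η) * (16 * (k : ℝ) ^ 8) := by
  have h16 : (√2 : ℝ) ^ 8 = 16 := by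
    rw [show (√2 : ℝ) ^ 8 = (√2 ^ 2) ^ 4 by ring, Real.sq_sqrt (by norm_num)]; norm_num
  have h1 : Tendsto (fun k : ℕ => √2 + 4 * (Q : ℝ) / k) atTop (𝓝 (√2 + 0)) :=
    tendsto_const_nhds.add (tendsto_const_div_atTop_nhds_zero_nat _)
  rw [add_zero] at h1
  have h2 := (h1.pow 8).eventually (gt_mem_nhds (by rw [h16]; linarith : √2 ^ 8 < (1 + η) * 16))
  have h3 := h1.eventually (gt_mem_nhds ((Real.sqrt_lt' two_pos).2 (by norm_num) : √2 < (2 : ℝ)))
  obtain ⟨K0, hK0⟩ := eventually_atTop.1 (h2.and h3)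
  refine ⟨K0 + 1, Nat.succ_pos _, fun k hk => ?_⟩
  obtain ⟨h4, h5⟩ := hK0 k (by omega)
  obtain ⟨h6, h7⟩ := phi_bounds hQ g k
  have hk0 : (0 : ℝ) < k := by exact_mod_cast (by omega : 0 < k)
  have h8 : (phi Q g k : ℝ) ≤ (√2 + 4 * (Q : ℝ) / k) * k := by
    rw [add_mul, div_mul_cancel₀ _ hk0.ne']; exact h7
  refine ⟨?_, ?_, ?_⟩
  · have : (phi Q g k : ℝ) ≤ 2 * k := h8.trans (mul_le_mul_of_nonneg_right h5.le hk0.le)
    exact_mod_cast this
  · have := pow_le_pow_left₀ (by positivity) h6 8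
    rw [mul_pow, h16] at this
    exact_mod_cast this
  · refine (pow_le_pow_left₀ (Nat.cast_nonneg _) h8 8).trans ?_
    rw [mul_pow, ← mul_assoc]
    exact mul_le_mul_of_nonneg_right h4.le (by positivity)

/-- The weight of an integer. -/
noncomputable def uw (Q : ℕ) (σ : ℝ) (k : ℕ) : ℝ := if k.Coprime Q then (k : ℝ) ^ (-σ) else 0

lemma uw_nonneg (Q : ℕ) (σ : ℝ) (k : ℕ) : 0 ≤ uw Q σ k := by
  unfold uw; split_ifs <;> positivity

lemma uw_le (Q : ℕ) (σ : ℝ) (k : ℕ) : uw Q σ k ≤ (k : ℝ) ^ (-σ) := by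
  unfold uw; split_ifs <;> [rfl; positivity]

lemma uw_summable (Q : ℕ) {σ : ℝ} (hσ : 1 < σ) : Summable (uw Q σ) :=
  Summable.of_nonneg_of_le (uw_nonneg Q σ) (uw_le Q σ) (Real.summable_nat_rpow.2 (by linarith))

lemma uw_large {Q : ℕ} (hQ : 0 < Q) (B : ℝ) :
    ∃ σ : ℝ, 1 < σ ∧ σ ≤ 2 ∧ B ≤ ∑' k, uw Q σ k := by
  have hQ' : (0 : ℝ) < Q := by exact_mod_cast hQ
  obtain ⟨J, hJ⟩ := (Real.tendsto_sum_range_one_div_nat_succ_atTop.eventually
    (eventually_gt_atTop (Q * B))).exists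
  have h1 : Continuous fun σ : ℝ => ∑ j ∈ range J, ((Q * j + 1 : ℕ) : ℝ) ^ (-σ) :=
    continuous_finsetSum _ fun j _ =>
      (Real.continuous_const_rpow (by positivity)).comp continuous_neg
  have h2 : B < ∑ j ∈ range J, ((Q * j + 1 : ℕ) : ℝ) ^ (-(1 : ℝ)) := by
    refine lt_of_mul_lt_mul_left (hJ.trans_le ?_) hQ'.le
    rw [mul_sum]
    refine sum_le_sum fun j _ => ?_
    rw [Real.rpow_neg_one, ← div_eq_mul_inv, div_le_div_iff₀ (by positivity) (by positivity)]
    have : (1 : ℝ) ≤ Q := by exact_mod_cast hQ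
    push_cast
    nlinarith
  have h3 := ((h1.tendsto 1).mono_left (nhdsWithin_le_nhds (s := Set.Ioi 1))).eventually
    (lt_mem_nhds h2)
  obtain ⟨σ, h4, h5⟩ := (h3.and (Ioc_mem_nhdsGT (by norm_num : (1 : ℝ) < 2))).exists
  refine ⟨σ, h5.1, h5.2, h4.le.trans ?_⟩
  refine le_trans (le_of_eq ?_) ((uw_summable Q h5.1).sum_le_tsum
    ((range J).image fun j => Q * j + 1) fun k _ => uw_nonneg Q σ k)
  rw [sum_image fun a _ b _ h => mul_left_cancel₀ hQ.ne' (add_right_cancel h)]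
  refine sum_congr rfl fun j _ => ?_
  rw [uw, if_pos (by simp)]

lemma prod_rpow_neg (T : Finset ℕ) (σ : ℝ) :
    ∏ p ∈ T, (p : ℝ) ^ (-σ) = ((∏ p ∈ T, p : ℕ) : ℝ) ^ (-σ) := by
  rw [Real.finsetProd_rpow _ _ fun _ _ => Nat.cast_nonneg _]
  push_cast
  rfl

theorem couple {Q : ℕ} (hQ0 : 0 < Q) (hQ : ∀ p, p.Prime → p ≤ 100 → p ∣ Q) {g : ℕ}
    (hg : g.Coprime Q) {η : ℝ} (hη : 0 < η) :
    ∃ σ : ℝ, 1 ≤ σ ∧ ∃ P : Finset ℕ, (∀ p ∈ P, p.Prime ∧ p.Coprime Q) ∧
      ∀ G : Finset ℕ → Prop,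
        wsum (fun p => (p : ℝ) ^ (-σ)) P (fun T => if G T then 0 else 1)
          ≤ 1 / 20 * wsum (fun p => (p : ℝ) ^ (-σ)) P (fun _ => 1) →
        ∃ T ⊆ P, ∃ T' ⊆ P, G T ∧ G T' ∧ ∏ p ∈ T', p ≡ g * ∏ p ∈ T, p [MOD Q] ∧
          16 * (∏ p ∈ T, p) ^ 8 ≤ (∏ p ∈ T', p) ^ 8 ∧
          ((∏ p ∈ T', p : ℕ) : ℝ) ^ 8 ≤ (1 + η) * (16 * ((∏ p ∈ T, p : ℕ) : ℝ) ^ 8) := by
  obtain ⟨K0, hK0, hK⟩ := phi_eventually hQ0 g hη
  obtain ⟨σ, hσ1, hσ2, hZ⟩ := uw_large hQ0 (10 * K0)
  have hsum := uw_summable Q hσ1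
  set u := uw Q σ with hu
  set Z := ∑' k, u k with hZdef
  have hK0' : (0 : ℝ) < K0 := by exact_mod_cast hK0
  have hZ0 : 0 < Z := by linarith
  obtain ⟨X, hX, hXK⟩ := ((hsum.hasSum.tendsto_sum_nat.eventually
    (lt_mem_nhds (by linarith : 9 / 10 * Z < Z))).and (eventually_ge_atTop K0)).exists
  have hle : ∀ s : Finset ℕ, ∑ k ∈ s, u k ≤ Z := fun s =>
    hsum.sum_le_tsum s fun k _ => uw_nonneg Q σ k
  set P := (range (2 * X)).filter fun p => p.Prime ∧ p.Coprime Q with hP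
  have hPp : ∀ p ∈ P, p.Prime ∧ p.Coprime Q := fun p hp => (mem_filter.1 hp).2
  refine ⟨σ, hσ1.le, P, hPp, fun G hG => ?_⟩
  have h0 : u 0 = 0 := by
    rw [hu, uw, if_neg]
    rw [Nat.coprime_zero_left]
    rintro rfl
    simpa using hQ 2 Nat.prime_two (by norm_num)
  have hpf : ∀ k < 2 * X, k.Coprime Q → k.primeFactors ⊆ P := by
    intro k hk hc p hp
    exact mem_filter.2 ⟨mem_range.2 ((Nat.le_of_mem_primeFactors hp).trans_lt hk),
      Nat.prime_of_mem_primeFactors hp, hc.coprime_dvd_left (Nat.dvd_of_mem_primeFactors hp)⟩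
  have hZsq : wsum (fun p => (p : ℝ) ^ (-σ)) P (fun _ => 1) ≤ Z := by
    refine le_trans (le_of_eq ?_) (hle (P.powerset.image fun T => ∏ p ∈ T, p))
    rw [sum_image]
    · refine sum_congr rfl fun T hT => ?_
      rw [mul_one, prod_rpow_neg, hu, uw, if_pos]
      exact Nat.Coprime.prod_left fun p hp => (hPp p (mem_powerset.1 hT hp)).2
    · intro T hT T' hT' h
      have h1 := Nat.primeFactors_prod fun p hp => (hPp p (mem_powerset.1 hT hp)).1
      have h2 := Nat.primeFactors_prod fun p hp => (hPp p (mem_powerset.1 hT' hp)).1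
      dsimp only at h
      rw [← h1, ← h2, h]
  set bad : ℕ → ℝ := fun k => if Squarefree k ∧ G k.primeFactors then 0 else u k with hbad
  have hbad0 : ∀ k, 0 ≤ bad k := fun k => by
    simp only [hbad]; split_ifs; exacts [le_rfl, uw_nonneg _ _ _]
  have hβ : ∑ k ∈ range (2 * X), bad k ≤ 7 / 100 * Z := by
    have h1 : ∀ k ∈ range (2 * X), bad k ≤ (∑ n ∈ Ioo 100 (2 * X), if n * n ∣ k then u k else 0)
        + (if Squarefree k ∧ k.Coprime Q ∧ ¬ G k.primeFactors then u k else 0) := by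
      intro k hk
      have h2 : ∀ n ∈ Ioo 100 (2 * X), 0 ≤ if n * n ∣ k then u k else 0 := fun n _ => by
        split_ifs; exacts [uw_nonneg _ _ _, le_rfl]
      have h3 := sum_nonneg h2
      have h4 : 0 ≤ if Squarefree k ∧ k.Coprime Q ∧ ¬ G k.primeFactors then u k else 0 := by
        split_ifs; exacts [uw_nonneg _ _ _, le_rfl]
      by_cases hc : k.Coprime Q
      swap
      · have : bad k = 0 := by simp [hbad, hu, uw, hc]
        linarith
      rcases Nat.eq_zero_or_pos k with rfl | hk0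
      · have : bad 0 = 0 := by simp [hbad, h0]
        linarith
      by_cases hs : Squarefree k
      · by_cases hGk : G k.primeFactors
        · have : bad k = 0 := by simp [hbad, hs, hGk]
          linarith
        · rw [if_pos ⟨hs, hc, hGk⟩]
          have : bad k = u k := by simp [hbad, hGk]
          linarith
      · have h5 : bad k = u k := by simp [hbad, hs]
        rw [Nat.squarefree_iff_prime_squarefree] at hs
        push Not at hs
        obtain ⟨p, hp, hpk⟩ := hs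
        have h6 : p ∣ k := (dvd_mul_right p p).trans hpk
        have h7 : p ∈ Ioo 100 (2 * X) := by
          refine mem_Ioo.2 ⟨?_, (Nat.le_of_dvd hk0 h6).trans_lt (mem_range.1 hk)⟩
          by_contra h8
          exact hp.one_lt.ne' (Nat.eq_one_of_dvd_coprimes hc h6 (hQ p hp (not_lt.1 h8)))
        have h8 := single_le_sum h2 h7
        rw [if_pos hpk] at h8
        linarith
    refine (sum_le_sum h1).trans ?_
    rw [sum_add_distrib, sum_comm]
    have h2 : ∀ n ∈ Ioo 100 (2 * X), ∑ k ∈ range (2 * X), (if n * n ∣ k then u k else 0)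
        ≤ ((n : ℝ) ^ 2)⁻¹ * Z := by
      intro n hn
      have hn0 : 0 < n := by have := (mem_Ioo.1 hn).1; omega
      have hn1 : (1 : ℝ) ≤ n := by exact_mod_cast hn0
      rw [← sum_filter]
      refine le_trans ?_ (mul_le_mul_of_nonneg_left
        (hle (((range (2 * X)).filter (n * n ∣ ·)).image (· / (n * n)))) (by positivity))
      rw [sum_image, mul_sum]
      · refine sum_le_sum fun k hk => ?_
        obtain ⟨j, rfl⟩ := (mem_filter.1 hk).2
        rw [Nat.mul_div_cancel_left _ (by positivity)]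
        simp only [hu, uw]
        split_ifs with h3 h4
        · push_cast
          rw [Real.mul_rpow (by positivity) (by positivity)]
          refine mul_le_mul_of_nonneg_right ?_ (by positivity)
          rw [← Real.rpow_neg_one, sq]
          exact Real.rpow_le_rpow_of_exponent_le (by nlinarith) (by linarith)
        · exact absurd (h3.coprime_dvd_left (dvd_mul_left _ _)) h4
        · positivity
        · simp
      · intro a ha b hb h
        obtain ⟨a', rfl⟩ := (mem_filter.1 ha).2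
        obtain ⟨b', rfl⟩ := (mem_filter.1 hb).2
        dsimp only at h
        rw [Nat.mul_div_cancel_left _ (by positivity), Nat.mul_div_cancel_left _ (by positivity)] at h
        rw [h]
    have h3 := sum_le_sum h2
    rw [← sum_mul] at h3
    have h4 := mul_le_mul_of_nonneg_right (sum_Ioo_inv_sq_le (α := ℝ) 100 (2 * X)) hZ0.le
    have h5 : ∑ k ∈ range (2 * X), (if Squarefree k ∧ k.Coprime Q ∧ ¬ G k.primeFactors then u k else 0)
        ≤ wsum (fun p => (p : ℝ) ^ (-σ)) P (fun T => if G T then 0 else 1) := by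
      rw [← sum_filter]
      unfold wsum
      beta_reduce
      set Y := (range (2 * X)).filter
        fun k => Squarefree k ∧ k.Coprime Q ∧ ¬ G k.primeFactors with hY
      refine le_trans (le_of_eq ?_) (sum_le_sum_of_subset_of_nonneg (s := Y.image Nat.primeFactors)
        ?_ fun T _ _ => mul_nonneg (prod_nonneg fun p _ => by positivity) (by split_ifs <;> simp))
      · rw [sum_image]
        · refine sum_congr rfl fun k hk => ?_
          obtain ⟨-, h6, h7, h8⟩ := mem_filter.1 hk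
          rw [if_neg h8, mul_one, prod_rpow_neg, Nat.prod_primeFactors_of_squarefree h6, hu, uw,
            if_pos h7]
        · intro a ha b hb h
          rw [← Nat.prod_primeFactors_of_squarefree (mem_filter.1 ha).2.1,
            ← Nat.prod_primeFactors_of_squarefree (mem_filter.1 hb).2.1, h]
      · intro T hT
        obtain ⟨k, hk, rfl⟩ := mem_image.1 hT
        obtain ⟨h6, -, h7, -⟩ := mem_filter.1 hk
        exact mem_powerset.2 (hpf k (mem_range.1 h6) h7)
    norm_num at h4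
    linarith
  by_contra hcon
  have h1 : ∀ k ∈ Ico K0 X, u k ≤ bad k + 4 * bad (phi Q g k) := by
    intro k hk
    obtain ⟨hk1, hk2⟩ := mem_Ico.1 hk
    obtain ⟨h2, h3, h4⟩ := hK k hk1
    have h5 := hbad0 k
    have h6 := hbad0 (phi Q g k)
    by_cases hc : k.Coprime Q
    swap
    · have : u k = 0 := by simp [hu, uw, hc]
      linarith
    have hc' : (phi Q g k).Coprime Q := by
      rw [Nat.coprime_iff_gcd_eq_one, (phi_modEq Q g k).gcd_eq]
      exact Nat.Coprime.mul_left hg hc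
    by_cases h7 : Squarefree k ∧ G k.primeFactors
    swap
    · have : bad k = u k := by simp only [hbad, if_neg h7]
      linarith
    by_cases h8 : Squarefree (phi Q g k) ∧ G (phi Q g k).primeFactors
    · refine absurd ⟨_, hpf k (by omega) hc, _, hpf _ (by omega) hc', h7.2, h8.2, ?_⟩ hcon
      rw [Nat.prod_primeFactors_of_squarefree h7.1, Nat.prod_primeFactors_of_squarefree h8.1]
      exact ⟨phi_modEq Q g k, h3, h4⟩
    · have h9 : bad (phi Q g k) = u (phi Q g k) := by simp only [hbad, if_neg h8]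
      have hk0 : (0 : ℝ) < k := by exact_mod_cast (by omega : 0 < k)
      have h10 : (0 : ℝ) < phi Q g k := lt_of_lt_of_le (by positivity) (phi_bounds hQ0 g k).1
      have h11 : ((2 : ℝ) * k) ^ (-σ) ≤ (phi Q g k : ℝ) ^ (-σ) :=
        Real.rpow_le_rpow_of_nonpos h10 (by exact_mod_cast h2) (by linarith)
      have h12 : (2 : ℝ) ^ (-2 : ℝ) ≤ 2 ^ (-σ) :=
        Real.rpow_le_rpow_of_exponent_le (by norm_num) (by linarith)
      rw [Real.mul_rpow (by norm_num) hk0.le] at h11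
      have h13 : (2 : ℝ) ^ (-2 : ℝ) = 1 / 4 := by rw [Real.rpow_neg (by norm_num)]; norm_num
      have h14 : (0 : ℝ) ≤ (k : ℝ) ^ (-σ) := by positivity
      rw [h9]
      simp only [hu, uw, if_pos hc, if_pos hc']
      rw [h13] at h12
      linarith [mul_le_mul_of_nonneg_right h12 h14]
  have h2 := sum_le_sum h1
  rw [sum_add_distrib, ← mul_sum, sum_Ico_eq_sub _ hXK] at h2
  have h3 : ∑ k ∈ Ico K0 X, bad k ≤ ∑ k ∈ range (2 * X), bad k :=
    sum_le_sum_of_subset_of_nonneg (fun k hk => mem_range.2 (by have := (mem_Ico.1 hk).2; omega))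
      fun k _ _ => hbad0 k
  have h4 : ∑ k ∈ Ico K0 X, bad (phi Q g k) ≤ ∑ k ∈ range (2 * X), bad k := by
    rw [← sum_image (s := Ico K0 X) (g := phi Q g) fun a _ b _ h => phi_inj hQ0 hg h]
    refine sum_le_sum_of_subset_of_nonneg (fun k hk => ?_) fun k _ _ => hbad0 k
    obtain ⟨j, hj, rfl⟩ := mem_image.1 hk
    have := (hK j (mem_Ico.1 hj).1).1
    have := (mem_Ico.1 hj).2
    exact mem_range.2 (by omega)
  have h5 : ∑ k ∈ range K0, u k ≤ K0 := by
    have : ∀ k ∈ range K0, u k ≤ 1 := by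
      intro k _
      rcases Nat.eq_zero_or_pos k with rfl | hk0
      · rw [h0]; exact zero_le_one
      · exact (uw_le _ _ _).trans
          (Real.rpow_le_one_of_one_le_of_nonpos (by exact_mod_cast hk0) (by linarith))
    simpa using sum_le_sum this
  linarith

lemma m_wsum {Ω : Type} (E : Mean Ω) (w : ℕ → ℝ) (P : Finset ℕ) (f : Finset ℕ → Ω → ℝ) :
    E.m (fun x => wsum w P (fun T => f T x)) = wsum w P (fun T => E.m (f T)) := by
  unfold wsum
  rw [E.sum]
  exact sum_congr rfl fun T _ => E.const_mul _ _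

lemma bdd_wsum {Ω : Type} (w : ℕ → ℝ) (P : Finset ℕ) {f : Finset ℕ → Ω → ℝ}
    (hf : ∀ T, Bdd (f T)) : Bdd (fun x => wsum w P (fun T => f T x)) :=
  Bdd.sum _ fun T => (Bdd.const _).mul (hf T)

lemma wsum_mono {w : ℕ → ℝ} (hw : ∀ p, 0 ≤ w p) (P : Finset ℕ) {f g : Finset ℕ → ℝ}
    (h : ∀ T ⊆ P, f T ≤ g T) : wsum w P f ≤ wsum w P g :=
  sum_le_sum fun T hT =>
    mul_le_mul_of_nonneg_left (h T (mem_powerset.1 hT)) (prod_nonneg fun p _ => hw p)

theorem couple_mean {Ω ι : Type} [Fintype ι] (E : Mean Ω) (V : ι → ℕ → ℕ → Ω → ℝ)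
    (hV : ∀ i a b, Bdd (V i a b)) {M : ℕ} (hM : 0 < M)
    (hinv : ∀ i a b a' b' c d, 0 < c → 0 < d → d.Coprime M →
      E.m (fun x => (V i (a * c) (b * d) x - V i (a' * c) (b' * d) x) ^ 2)
        = E.m (fun x => (V i a b x - V i a' b' x) ^ 2))
    (htk : ∀ i (P : Finset ℕ), (∀ p ∈ P, p.Prime ∧ p.Coprime M) →
      ∑ p ∈ P, E.m (fun x => (V i p 1 x - V i 1 p x) ^ 2) / p ≤ 1)
    {g : ℕ} (hg : g.Coprime M) {η γ : ℝ} (hη : 0 < η) (hγ : 0 < γ) :
    ∃ a b : ℕ, 0 < a ∧ 0 < b ∧ b.Coprime M ∧ a ≡ g * b [MOD M] ∧ 16 * b ^ 8 ≤ a ^ 8 ∧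
      (a : ℝ) ^ 8 ≤ (1 + η) * (16 * (b : ℝ) ^ 8) ∧
      ∀ i, E.nrm (fun x => V i a b x - V i b a x) ≤ γ := by
  set e : ι → ℕ → ℝ := fun i p => E.m (fun x => (V i p 1 x - V i 1 p x) ^ 2) with he
  have he0 : ∀ i p, 0 ≤ e i p := fun i p => E.sq_nonneg' ((hV _ _ _).sub (hV _ _ _))
  set f : ℕ → ℝ := fun p => if p.Prime ∧ p.Coprime M then ∑ i, e i p / p else 0 with hf
  have hf0 : ∀ p, 0 ≤ f p := fun p => by
    simp only [hf]
    split_ifs
    exacts [sum_nonneg fun i _ => div_nonneg (he0 i p) (Nat.cast_nonneg _), le_rfl]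
  have hsum : Summable f := by
    refine summable_of_sum_le (c := Fintype.card ι) hf0 fun u => ?_
    rw [← sum_filter, sum_comm]
    simpa using sum_le_sum (s := univ) fun i _ =>
      htk i (u.filter fun p => p.Prime ∧ p.Coprime M) fun p hp => (mem_filter.1 hp).2
  obtain ⟨s, hs⟩ := summable_iff_vanishing_norm.1 hsum ((γ / 2) ^ 2 / 20) (by positivity)
  set B := max 100 (s.sup id) with hB
  set Q := M * B.factorial with hQ
  have hQ0 : 0 < Q := mul_pos hM (Nat.factorial_pos _)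
  have hBQ : ∀ p, p.Prime → p ≤ B → p ∣ Q := fun p hp h =>
    (Nat.dvd_factorial hp.pos h).mul_left _
  obtain ⟨g', hg1, hg2, hg3⟩ := Nat.forall_exists_prime_gt_and_modEq Q hM.ne' hg
  obtain ⟨σ, hσ, P, hP, hG⟩ := couple hQ0 (fun p hp h => hBQ p hp (h.trans (le_max_left _ _)))
    (g := g') ((Nat.Prime.coprime_iff_not_dvd hg2).2 fun h => (Nat.le_of_dvd hQ0 h).not_gt hg1) hη
  have hPM : ∀ p ∈ P, p.Coprime M := fun p hp => (hP p hp).2.coprime_dvd_right (dvd_mul_right _ _)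
  have hpos : ∀ T ⊆ P, 0 < ∏ p ∈ T, p := fun T hT => prod_pos fun p hp => (hP p (hT hp)).1.pos
  have hco : ∀ T ⊆ P, (∏ p ∈ T, p).Coprime M := fun T hT =>
    Nat.Coprime.prod_left fun p hp => hPM p (hT hp)
  set w : ℕ → ℝ := fun p => (p : ℝ) ^ (-σ) with hw
  have hw0 : ∀ p, 0 ≤ w p := fun p => by simp only [hw]; positivity
  set Z := wsum w P (fun _ => 1) with hZ
  have hZ0 : 0 < Z := one_pos.trans_le (wsum_pos hw0 P)
  set F : ι → Finset ℕ → Ω → ℝ := fun i T => V i (∏ p ∈ T, p) (∏ p ∈ P \ T, p) with hF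
  have hFb : ∀ i T, Bdd (F i T) := fun i T => hV _ _ _
  set c : ι → Ω → ℝ := fun i x => wsum w P (fun T => F i T x) / Z with hc
  have hcb : ∀ i, Bdd (c i) := fun i => (bdd_wsum w P (hFb i)).div_const _
  set v : ι → Finset ℕ → ℝ := fun i T => E.m (fun x => (F i T x - c i x) ^ 2) with hv
  have hv0 : ∀ i T, 0 ≤ v i T := fun i T => E.sq_nonneg' ((hFb i T).sub (hcb i))
  have h1 : ∀ i, wsum w P (v i) ≤ Z * ∑ p ∈ P, e i p / p := by
    intro i
    have h2 := E.mono (bdd_wsum w P fun T => ((hFb i T).sub (hcb i)).pow 2)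
      (Bdd.sum P fun p => (Bdd.const (w p)).mul (bdd_wsum w (P.erase p) fun T =>
        ((hFb i (insert p T)).sub (hFb i T)).pow 2)) fun x => es' hw0 P fun T => F i T x
    rw [m_wsum, E.sum] at h2
    refine h2.trans ?_
    rw [mul_sum]
    refine sum_le_sum fun p hp => ?_
    rw [E.const_mul, m_wsum, mul_comm]
    have hp1 : (1 : ℝ) ≤ p := by exact_mod_cast (hP p hp).1.pos
    have h3 : wsum w (P.erase p) (fun T => E.m fun x => (F i (insert p T) x - F i T x) ^ 2)
        ≤ Z * e i p := by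
      have h4 : ∀ T ⊆ P.erase p, (E.m fun x => (F i (insert p T) x - F i T x) ^ 2) ≤ e i p := by
        intro T hT
        have h5 : p ∉ T := fun h => by simpa using hT h
        have h6 : P \ T = insert p (P \ insert p T) := by
          ext q
          by_cases h : q = p
          · subst h; simp [hp, h5]
          · simp [h]
        have h7 := hinv i p 1 1 p _ _ (hpos T (hT.trans (erase_subset _ _)))
          (hpos (P \ insert p T) sdiff_subset) (hco (P \ insert p T) sdiff_subset)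
        simp only [one_mul] at h7
        simp only [hF]
        rw [prod_insert h5, h6, prod_insert (by simp), h7]
      refine (wsum_mono hw0 _ h4).trans ?_
      have h5 : wsum w (P.erase p) (fun _ => e i p) = wsum w (P.erase p) (fun _ => 1) * e i p := by
        simp [wsum, sum_mul]
      rw [h5]
      refine mul_le_mul_of_nonneg_right ?_ (he0 i p)
      exact sum_le_sum_of_subset_of_nonneg (powerset_mono.2 (erase_subset _ _))
        fun T _ _ => mul_nonneg (prod_nonneg fun p _ => hw0 p) zero_le_one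
    have h4 : w p ≤ 1 / p := by
      rw [one_div, ← Real.rpow_neg_one]
      exact Real.rpow_le_rpow_of_exponent_le hp1 (by linarith)
    calc _ ≤ Z * e i p * (1 / p) :=
          mul_le_mul h3 h4 (hw0 p) (mul_nonneg hZ0.le (he0 i p))
      _ = _ := by ring
  have h2 : ∑ i, ∑ p ∈ P, e i p / p ≤ (γ / 2) ^ 2 / 20 := by
    have h3 := hs P (disjoint_left.2 fun p hp hps => (hP p hp).1.one_lt.ne'
      (Nat.eq_one_of_dvd_coprimes (hP p hp).2 dvd_rfl
        (hBQ p (hP p hp).1 ((le_sup (f := id) hps).trans (le_max_right _ _)))))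
    rw [sum_comm]
    refine le_trans (le_of_eq ?_) ((le_abs_self _).trans h3.le)
    exact sum_congr rfl fun p hp => by simp only [hf]; rw [if_pos ⟨(hP p hp).1, hPM p hp⟩]
  obtain ⟨T, hT, T', hT', hG1, hG2, h3, h4, h5⟩ := hG (fun T => ∑ i, v i T ≤ (γ / 2) ^ 2) (by
    have h6 : wsum w P (fun T => if ∑ i, v i T ≤ (γ / 2) ^ 2 then 0 else 1)
        ≤ wsum w P (fun T => (∑ i, v i T) / (γ / 2) ^ 2) := by
      refine wsum_mono hw0 P fun T _ => ?_
      split_ifs with h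
      · exact div_nonneg (sum_nonneg fun i _ => hv0 i T) (sq_nonneg _)
      · rw [le_div_iff₀ (by positivity), one_mul]; exact (not_le.1 h).le
    have h7 : wsum w P (fun T => (∑ i, v i T) / (γ / 2) ^ 2) = (∑ i, wsum w P (v i)) / (γ / 2) ^ 2 := by
      unfold wsum
      rw [sum_comm, sum_div]
      exact sum_congr rfl fun T _ => by rw [← mul_sum, mul_div_assoc]
    have h8 := sum_le_sum (s := univ) fun i _ => h1 i
    rw [← mul_sum] at h8
    refine le_trans (le_of_eq (by congr)) (h6.trans ?_)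
    rw [h7, div_le_iff₀ (by positivity)]
    nlinarith [mul_le_mul_of_nonneg_left h2 hZ0.le])
  refine ⟨_, _, hpos T' hT', hpos T hT, hco T hT,
    (h3.of_dvd (dvd_mul_right _ _)).trans (hg3.mul_right _), h4, h5, fun i => ?_⟩
  have h6 : ∀ T, ∑ i, v i T ≤ (γ / 2) ^ 2 → E.nrm (fun x => F i T x - c i x) ≤ γ / 2 := by
    intro T h
    rw [Mean.nrm, Real.sqrt_le_left (by positivity)]
    exact (single_le_sum (fun j _ => hv0 j T) (mem_univ i)).trans h
  have h7 := E.nrm_sub_le (hFb i T') (hcb i) (hFb i T)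
  rw [E.nrm_sub_comm (c i)] at h7
  have h8 : E.nrm (fun x => V i (∏ p ∈ T', p) (∏ p ∈ T, p) x - V i (∏ p ∈ T, p) (∏ p ∈ T', p) x)
      = E.nrm (fun x => F i T' x - F i T x) := by
    unfold Mean.nrm
    rw [← hinv i _ _ _ _ 1 _ one_pos (hpos P subset_rfl) (hco P subset_rfl),
      ← hinv i _ (∏ p ∈ P \ T', p) _ (∏ p ∈ P \ T, p) 1 _ one_pos
        (mul_pos (hpos T hT) (hpos T' hT')) (Nat.Coprime.mul_left (hco T hT) (hco T' hT'))]
    have e1 : (∏ p ∈ P \ T', p) * ((∏ p ∈ T, p) * ∏ p ∈ T', p) = (∏ p ∈ T, p) * ∏ p ∈ P, p := by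
      rw [← prod_sdiff hT']; ring
    have e2 : (∏ p ∈ P \ T, p) * ((∏ p ∈ T, p) * ∏ p ∈ T', p) = (∏ p ∈ T', p) * ∏ p ∈ P, p := by
      rw [← prod_sdiff hT]; ring
    rw [e1, e2]
  linarith [h6 T hG1, h6 T' hG2]

end Pool.Agent.Lib.MP_a5a405_co.PR
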