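import Pool.Agent.Lib.MP_a5a405_co.Omega

/-!
Energy saturation, and the lower bound for the main term.
-/

open Finset Filter Topology
open scoped Classical

namespace Pool.Agent.Lib.MP_a5a405_co.PR

noncomputable def en (M : ℕ) (F : ℕ → ℝ) (y : ℕ × ℕ) : ℝ :=
  (∑ t ∈ range y.2, cav M y.2 (fun t => F (y.1 * t)) (cell M y.2 t) ^ 2) / y.2

noncomputable def inc (M M' : ℕ) (f : ℕ → ℝ) (L : ℕ) : ℝ :=
  (∑ t ∈ range L, (cav (M * M') L f (cell (M * M') L t) - cav M L f (cell M L t)) ^ 2) / L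

lemma avg_sq_mem {f : ℕ → ℝ} (hf : ∀ t, |f t| ≤ 1) (L : ℕ) :
    0 ≤ (∑ t ∈ range L, f t ^ 2) / L ∧ (∑ t ∈ range L, f t ^ 2) / L ≤ 1 :=
  ⟨div_nonneg (sum_nonneg fun _ _ => sq_nonneg _) (Nat.cast_nonneg _),
    div_le_one_of_le₀ (sum_sq_le hf L) (Nat.cast_nonneg _)⟩

lemma en_mem (M : ℕ) {F : ℕ → ℝ} (hF : ∀ n, 0 ≤ F n ∧ F n ≤ 1) (y : ℕ × ℕ) :
    0 ≤ en M F y ∧ en M F y ≤ 1 :=
  avg_sq_mem (fun _ => abs_ce_le _ _ (fun _ => abs_of_mem hF _) _) _

lemma inc_mem (M M' : ℕ) {f : ℕ → ℝ} (hf : ∀ n, 0 ≤ f n ∧ f n ≤ 1) (L : ℕ) :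
    0 ≤ inc M M' f L ∧ inc M M' f L ≤ 1 := by
  refine avg_sq_mem (fun t => ?_) _
  have h1 := ce_mem (range L) (cell (M * M') L) hf (cell (M * M') L t)
  have h2 := ce_mem (range L) (cell M L) hf (cell M L t)
  unfold cav
  rw [abs_le]
  constructor <;> linarith [h1.1, h1.2, h2.1, h2.2]

lemma inc_eq (M : ℕ) {M' : ℕ} (hM' : 0 < M') (F : ℕ → ℝ) (y : ℕ × ℕ) :
    inc M M' (fun t => F (y.1 * t)) y.2 = en (M * M') F y - en M F y := by
  have h := ce_pyth (range y.2) (cell (M * M') y.2) (fun c : ZMod (M * M') × ℕ =>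
      (ZMod.castHom (dvd_mul_right M M') (ZMod M) c.1, c.2 / M')) (fun t => F (y.1 * t))
  simp only [← cell_nest hM'] at h
  unfold inc en cav
  rw [← sub_div]
  congr 1

theorem saturate {ι : Type} [Fintype ι] (F : ι → ℕ → ℝ) (hF : ∀ i n, 0 ≤ F i n ∧ F i n ≤ 1)
    {ε : ℝ} (hε : 0 < ε) : ∃ M : ℕ, 0 < M ∧ 2 ∣ M ∧ ∀ M', 0 < M' → ∀ i,
      MM.m (fun y => inc M M' (fun t => F i (y.1 * t)) y.2) ≤ ε := by
  set V : Set ℝ := {v | ∃ M : ℕ, 0 < M ∧ 2 ∣ M ∧ v = ∑ i, MM.m (en M (F i))} with hV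
  have hne : V.Nonempty := ⟨_, 2, two_pos, dvd_rfl, rfl⟩
  have hbdd : BddAbove V := ⟨∑ _i : ι, 1, by
    rintro _ ⟨M, -, -, rfl⟩
    exact sum_le_sum fun i _ => MM.le_const (Bdd.of_mem (en_mem M (hF i))) fun y =>
      (en_mem M (hF i) y).2⟩
  obtain ⟨_, ⟨M, hM, hM2, rfl⟩, hv⟩ := exists_lt_of_lt_csSup hne (sub_lt_self (sSup V) hε)
  refine ⟨M, hM, hM2, fun M' hM' i => ?_⟩
  have h1 := le_csSup hbdd ⟨M * M', mul_pos hM hM', hM2.mul_right _, rfl⟩
  have h2 : ∀ i, MM.m (fun y => inc M M' (fun t => F i (y.1 * t)) y.2)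
      = MM.m (en (M * M') (F i)) - MM.m (en M (F i)) := fun i => by
    simp only [inc_eq M hM', MM.sub]
  have h3 := single_le_sum (s := univ)
    (f := fun i => MM.m (fun y => inc M M' (fun t => F i (y.1 * t)) y.2))
    (fun i _ => MM.const_le (Bdd.of_mem fun y => inc_mem M M' (fun _ => hF i _) _)
      fun y => (inc_mem M M' (fun _ => hF i _) _).1) (mem_univ i)
  refine h3.trans ?_
  simp only [h2, sum_sub_distrib]
  linarith

lemma gAv_mem {F : ℕ → ℝ} (hF : ∀ n, 0 ≤ F n ∧ F n ≤ 1) (S : Finset ℕ) (D s t : ℕ) :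
    0 ≤ gAv F S D s t ∧ gAv F S D s t ≤ 1 := by
  unfold gAv
  refine ⟨div_nonneg (sum_nonneg fun p _ => div_nonneg (hF _).1 (Nat.cast_nonneg _))
    (sum_nonneg fun p _ => by positivity), div_le_one_of_le₀ (sum_le_sum fun p _ =>
      div_le_div_of_nonneg_right (hF _).2 (Nat.cast_nonneg _)) (sum_nonneg fun p _ => by positivity)⟩

lemma cav_gAv (M L : ℕ) (F : ℕ → ℝ) (S : Finset ℕ) (D s : ℕ) (c : ZMod M × ℕ) :
    cav M L (gAv F S D s) c = (∑ p ∈ S, cav M L (fun t => F (s * (D / p) ^ 8 * t)) c / p)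
      / ∑ p ∈ S, 1 / (p : ℝ) :=
  ce_sum (range L) (cell M L) S (fun p t => F (s * (D / p) ^ 8 * t)) (fun p => (p : ℝ)) _ c

lemma inc_gAv (M M' L : ℕ) (F : ℕ → ℝ) (S : Finset ℕ) (D s : ℕ) (hS : 0 < ∑ p ∈ S, 1 / (p : ℝ)) :
    inc M M' (gAv F S D s) L ≤ (∑ p ∈ S, inc M M' (fun t => F (s * (D / p) ^ 8 * t)) L / p)
      / ∑ p ∈ S, 1 / (p : ℝ) := by
  set Λ := ∑ p ∈ S, 1 / (p : ℝ) with hΛ
  set x : ℕ → ℕ → ℝ := fun p t =>
    cav (M * M') L (fun t => F (s * (D / p) ^ 8 * t)) (cell (M * M') L t)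
      - cav M L (fun t => F (s * (D / p) ^ 8 * t)) (cell M L t) with hx
  have h1 : ∀ t ∈ range L, (cav (M * M') L (gAv F S D s) (cell (M * M') L t)
      - cav M L (gAv F S D s) (cell M L t)) ^ 2 ≤ (∑ p ∈ S, x p t ^ 2 / p) / Λ := by
    intro t _
    rw [cav_gAv, cav_gAv, ← sub_div, ← sum_sub_distrib, div_pow, ← hΛ,
      div_le_div_iff₀ (by positivity) hS]
    have h2 := sum_sq_le_sum_mul_sum_of_sq_le_mul S (r := fun p => x p t / p)
      (f := fun p => x p t ^ 2 / p) (g := fun p => 1 / (p : ℝ)) (fun p _ => by positivity)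
      (fun p _ => by positivity) fun p _ => le_of_eq (by ring)
    simp only [← sub_div]
    rw [sq Λ, ← mul_assoc]
    exact mul_le_mul_of_nonneg_right h2 hS.le
  refine (div_le_div_of_nonneg_right (sum_le_sum h1) (Nat.cast_nonneg _)).trans (le_of_eq ?_)
  rw [← sum_div, sum_comm, div_right_comm, sum_div]
  congr 1
  refine sum_congr rfl fun p _ => ?_
  rw [← sum_div, div_right_comm]
  rfl

section lower
variable {ι : Type} [Fintype ι] [Nonempty ι] {d : ι → ℕ} {F : ℕ → ℝ} {K : ℕ} {η θ : ℝ}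

lemma chi_small (hF : ∀ n, 0 ≤ F n ∧ F n ≤ 1) (hd : ∀ i, 0 < d i) (hθ : 0 < θ)
    (hη : ∀ i, EE.nrm (fun x => hAv d F (d i * x) - hAv d F x) ≤ η) :
    EE.m (fun x => F x * max 0 (1 - hAv d F x / θ)) ≤ θ + η / θ := by
  set h := hAv d F with hh
  have hm := hAv_mem d hF
  have hb : Bdd h := Bdd.of_mem hm
  have hFb : Bdd F := Bdd.of_mem hF
  have hχ : Bdd fun x => max 0 (1 - h x / θ) := Bdd.of_mem (a := 0) (b := 1) fun x =>
    ⟨le_max_left _ _, max_le zero_le_one (by linarith [div_nonneg (hm x).1 hθ.le])⟩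
  have h1 : ∀ i, EE.m (fun x => F x * max 0 (1 - h x / θ))
      ≤ EE.m (fun x => F (d i * x) * max 0 (1 - h x / θ)) + η / θ := by
    intro i
    rw [← EE_dil (hd i) (hFb.mul hχ)]
    have h2 := EE.mono ((hFb.mul hχ).comp (d i * ·)) (((hFb.comp (d i * ·)).mul hχ).add
      (((hb.comp (d i * ·)).sub hb).abs.div_const θ)) fun x => by
        have h3 := abs_max_sub_max_le_max 0 (1 - h (d i * x) / θ) 0 (1 - h x / θ)
        rw [sub_self, abs_zero, max_eq_right (abs_nonneg (_ - _ : ℝ)), sub_sub_sub_cancel_left, ← sub_div,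
          abs_div, abs_of_pos hθ, abs_sub_comm (h x)] at h3
        have h5 := (abs_le.1 h3).2
        have h6 : 0 ≤ |h (d i * x) - h x| / θ := by positivity
        nlinarith [mul_le_mul_of_nonneg_left h5 (hF (d i * x)).1,
          mul_le_mul_of_nonneg_right (hF (d i * x)).2 h6]
    rw [EE.add, EE.div_const] at h2
    have h3 := (EE.abs_le_nrm ((hb.comp (d i * ·)).sub hb)).trans (hη i)
    linarith [div_le_div_of_nonneg_right h3 hθ.le]
  have hc : (0 : ℝ) < Fintype.card ι := by exact_mod_cast Fintype.card_pos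
  have h2 := sum_le_sum (s := univ) fun i _ => h1 i
  rw [sum_add_distrib, sum_const, ← EE.sum] at h2
  have h3 : EE.m (fun x => ∑ i, F (d i * x) * max 0 (1 - h x / θ)) ≤ Fintype.card ι * θ := by
    refine EE.le_const (Bdd.sum _ fun i => (hFb.comp _).mul hχ) fun x => ?_
    have h4 : ∑ i, F (d i * x) = Fintype.card ι * h x := by rw [hh, hAv]; field_simp
    rw [← sum_mul, h4, mul_assoc]
    refine mul_le_mul_of_nonneg_left ?_ hc.le
    rcases le_total (h x) θ with h5 | h5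
    · refine (mul_le_of_le_one_right (hm x).1 ?_).trans h5
      exact max_le zero_le_one (by linarith [div_nonneg (hm x).1 hθ.le])
    · rw [max_eq_left (by rw [sub_nonpos, one_le_div hθ]; exact h5), mul_zero]
      exact hθ.le
  simp only [sum_const, card_univ, nsmul_eq_mul] at h2
  refine le_of_mul_le_mul_left ?_ hc
  linarith

lemma pos_of_modEq (hK : 0 < K) {e : ℕ} (he : e ≡ 1 [MOD 2 ^ K]) : Odd e := by
  have := he.of_dvd (dvd_pow_self 2 hK.ne')
  rwa [Nat.odd_iff]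

lemma pair_lower (hF : ∀ n, 0 ≤ F n ∧ F n ≤ 1) (hK : 0 < K) (hd : ∀ i, d i ≡ 1 [MOD 2 ^ K])
    (hθ : 0 < θ) (hη0 : 0 ≤ η)
    (hη : ∀ e, 0 < e → e ≡ 1 [MOD 2 ^ K] → EE.nrm (fun x => hAv d F (e * x) - hAv d F x) ≤ η)
    {G : ℕ → ℝ} (hG : ∀ s, 0 ≤ G s ∧ G s ≤ 1) {σ n m : ℕ} (hσ : 0 < σ) (hnm : n ≡ m [MOD 2 ^ K]) :
    θ * EE.m (fun s => F (σ * s * n) * (od n * G s)) - (θ ^ 2 + 3 * η)
      ≤ EE.m (fun s => od n * F (σ * s * n) * hAv d F (σ * s * m) * G s) := by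
  by_cases hn : Odd n
  swap
  · simp only [od, if_neg hn, zero_mul, mul_zero, EE.const]
    nlinarith
  simp only [od, if_pos hn, one_mul]
  have hχ := chi_small hF (fun i => (pos_of_modEq hK (hd i)).pos) hθ
    fun i => hη _ (pos_of_modEq hK (hd i)).pos (hd i)
  set h := hAv d F with hh
  have hm := hAv_mem d hF
  have hb : Bdd h := Bdd.of_mem hm
  have hFb : Bdd F := Bdd.of_mem hF
  have hGb : Bdd G := Bdd.of_mem hG
  have hχb : Bdd fun x => max 0 (1 - h x / θ) := Bdd.of_mem (a := 0) (b := 1) fun x =>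
    ⟨le_max_left _ _, max_le zero_le_one (by linarith [div_nonneg (hm x).1 hθ.le])⟩
  have hm0 : 0 < m := by
    have := hnm.of_dvd (dvd_pow_self 2 hK.ne')
    have := Nat.odd_iff.1 hn
    unfold Nat.ModEq at *
    omega
  obtain ⟨u, -, hu⟩ := Nat.exists_mul_mod_eq_one_of_coprime
    (Nat.Coprime.pow_right K (Nat.coprime_two_right.2 hn)) (Nat.one_lt_two_pow hK.ne')
  have hu1 : n * u ≡ 1 [MOD 2 ^ K] := by
    unfold Nat.ModEq
    rw [hu, Nat.mod_eq_of_lt (Nat.one_lt_two_pow hK.ne')]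
  have hu2 : m * u ≡ 1 [MOD 2 ^ K] := (hnm.symm.mul_right u).trans hu1
  have h1 := hη _ (pos_of_modEq hK hu1).pos hu1
  have h2 := hη _ (pos_of_modEq hK hu2).pos hu2
  rw [← (EE_pres (mul_pos hσ hm0)).nrm ((hb.comp _).sub hb)] at h1
  rw [← (EE_pres (mul_pos hσ hn.pos)).nrm ((hb.comp _).sub hb)] at h2
  have h3 := EE.nrm_sub_le (hb.comp fun s => σ * m * s) (hb.comp fun s => n * u * (σ * m * s))
    (hb.comp fun s => σ * n * s)
  rw [EE.nrm_sub_comm] at h1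
  have e1 : ∀ s, m * u * (σ * n * s) = n * u * (σ * m * s) := fun s => by ring
  simp only [e1] at h2
  have h4 := EE.abs_le_nrm ((hb.comp fun s => σ * m * s).sub (hb.comp fun s => σ * n * s))
  rw [← EE_dil (mul_pos hσ hn.pos) (hFb.mul hχb)] at hχ
  simp only [mul_right_comm σ _ n, mul_right_comm σ _ m]
  have h5 := EE.mono (f := fun s => θ * (F (σ * n * s) * G s)
      - (θ * (F (σ * n * s) * max 0 (1 - h (σ * n * s) / θ)) + |h (σ * m * s) - h (σ * n * s)|))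
    (g := fun s => F (σ * n * s) * h (σ * m * s) * G s)
    (((Bdd.const _).mul ((hFb.comp _).mul hGb)).sub (((Bdd.const _).mul ((hFb.mul hχb).comp _)).add
      ((hb.comp _).sub (hb.comp _)).abs)) (((hFb.comp _).mul (hb.comp _)).mul hGb) fun s => by
      set f := F (σ * n * s)
      have hf : 0 ≤ f ∧ f ≤ 1 := hF _
      have hg := hG s
      set c := max 0 (1 - h (σ * n * s) / θ) with hc
      have hc0 : 0 ≤ c := le_max_left _ _
      have h6 : θ - θ * c ≤ h (σ * n * s) := by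
        have h7 := mul_le_mul_of_nonneg_left (le_max_right 0 (1 - h (σ * n * s) / θ)) hθ.le
        rw [mul_sub, mul_div_cancel₀ _ hθ.ne'] at h7
        linarith
      have h7 := neg_abs_le (h (σ * m * s) - h (σ * n * s))
      have h8 := abs_nonneg (h (σ * m * s) - h (σ * n * s))
      have h9 : 0 ≤ f * G s := mul_nonneg hf.1 hg.1
      have h10 : f * G s ≤ 1 := mul_le_one₀ hf.2 hg.1 hg.2
      have h11 := mul_le_mul_of_nonneg_left h6 h9
      have h12 := mul_le_mul_of_nonneg_left h7 h9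
      have h13 := mul_le_mul_of_nonneg_right h10 h8
      have h14 := mul_le_mul_of_nonneg_left hg.2 (mul_nonneg hθ.le (mul_nonneg hf.1 hc0))
      nlinarith
  rw [EE.sub, EE.add, EE.const_mul, EE.const_mul] at h5
  have h6 := mul_le_mul_of_nonneg_left hχ hθ.le
  rw [mul_add, mul_div_cancel₀ _ hθ.ne'] at h6
  nlinarith

lemma sum_lower (hF : ∀ n, 0 ≤ F n ∧ F n ≤ 1) (hK : 0 < K) (hd : ∀ i, d i ≡ 1 [MOD 2 ^ K])
    (hθ : 0 < θ) (hη0 : 0 ≤ η)
    (hη : ∀ e, 0 < e → e ≡ 1 [MOD 2 ^ K] → EE.nrm (fun x => hAv d F (e * x) - hAv d F x) ≤ η)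
    {G : ℕ → ℕ → ℝ} (hG : ∀ s n, 0 ≤ G s n ∧ G s n ≤ 1) {σ N k : ℕ} (hσ : 0 < σ) (hN : 0 < N)
    (hk : 0 < k) :
    EE.m (fun s => θ * ((∑ n ∈ range N, F (σ * s * n) * (od n * G s n)) / N) - (θ ^ 2 + 3 * η))
      ≤ EE.m (fun s => (∑ i, (∑ x ∈ range N ×ˢ range (2 ^ K * k),
        wt (2 ^ K) (fun n => od n * F (σ * s * n)) (fun m => F (d i * (σ * s * m))) x * G s x.1)
          / (N * k)) / Fintype.card ι) := by
  have hN' : (0 : ℝ) < N := by exact_mod_cast hN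
  have hk' : (0 : ℝ) < k := by exact_mod_cast hk
  have h1 : ∀ s, (∑ i, (∑ x ∈ range N ×ˢ range (2 ^ K * k),
        wt (2 ^ K) (fun n => od n * F (σ * s * n)) (fun m => F (d i * (σ * s * m))) x * G s x.1)
          / (N * k)) / Fintype.card ι = (∑ x ∈ range N ×ˢ range (2 ^ K * k),
        (if x.1 % 2 ^ K = x.2 % 2 ^ K then 1 else 0)
          * (od x.1 * F (σ * s * x.1) * hAv d F (σ * s * x.2) * G s x.1)) / (N * k) := by
    intro s
    rw [← sum_div, div_right_comm, sum_comm, sum_div]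
    congr 1
    refine sum_congr rfl fun x _ => ?_
    unfold wt hAv
    split_ifs
    · rw [← sum_mul, ← mul_sum]; ring
    · simp
  simp only [h1]
  rw [EE.sub, EE.const, EE.const_mul, EE.div_const, EE.div_const, EE.sum, EE.sum,
    le_div_iff₀ (by positivity)]
  simp only [EE.const_mul (ite _ _ _)]
  have h2 : ∀ x ∈ range N ×ˢ range (2 ^ K * k), (if x.1 % 2 ^ K = x.2 % 2 ^ K then (1 : ℝ) else 0)
      * (θ * EE.m (fun s => F (σ * s * x.1) * (od x.1 * G s x.1)) - (θ ^ 2 + 3 * η))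
      ≤ (if x.1 % 2 ^ K = x.2 % 2 ^ K then (1 : ℝ) else 0)
        * EE.m (fun s => od x.1 * F (σ * s * x.1) * hAv d F (σ * s * x.2) * G s x.1) := by
    intro x _
    split_ifs with h
    · rw [one_mul, one_mul]
      exact pair_lower hF hK hd hθ hη0 hη (fun s => hG s x.1) hσ h
    · simp
  refine le_trans (le_of_eq ?_) (sum_le_sum h2)
  rw [sum_product]
  have h3 : ∀ n ∈ range N, ∑ m ∈ range (2 ^ K * k), (if n % 2 ^ K = m % 2 ^ K then (1 : ℝ) else 0)
      * (θ * EE.m (fun s => F (σ * s * n) * (od n * G s n)) - (θ ^ 2 + 3 * η))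
      = k * (θ * EE.m (fun s => F (σ * s * n) * (od n * G s n)) - (θ ^ 2 + 3 * η)) := by
    intro n _
    rw [← sum_mul, ← sum_filter, sum_const, nsmul_eq_mul, mul_one]
    have := card_mod_eq (q := 2 ^ K) (k := k) (by positivity) n
    simp only [eq_comm (a := n % 2 ^ K)]
    rw [this]
  rw [sum_congr rfl h3, ← mul_sum, sum_sub_distrib, ← mul_sum, sum_const, card_range, nsmul_eq_mul]
  field_simp

end lower

end Pool.Agent.Lib.MP_a5a405_co.PR
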