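import Mathlib

/-!
Finite Fourier analysis on a grid of roots of unity.
-/

open Finset Complex

namespace Pool.Agent.Lib.MP_a5a405_co.PR

noncomputable def FS {α : Type} (X : Finset α) (e : α → ℕ) (f : α → ℝ) (ζ : ℂ) : ℂ :=
  ∑ x ∈ X, (f x : ℂ) * ζ ^ e x

noncomputable def fs (f : ℕ → ℝ) (L : ℕ) (ζ : ℂ) : ℂ := FS (range L) id f ζ

lemma fs_def (f : ℕ → ℝ) (L : ℕ) (ζ : ℂ) : fs f L ζ = ∑ t ∈ range L, (f t : ℂ) * ζ ^ t := rfl

noncomputable def rt (P : ℕ) : ℂ := exp (2 * Real.pi * I / P)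

lemma norm_rt (P : ℕ) : ‖rt P‖ = 1 := by
  have : rt P = exp (((2 * Real.pi / P : ℝ) : ℂ) * I) := by
    unfold rt; congr 1; push_cast; ring
  rw [this, norm_exp_ofReal_mul_I]

lemma norm_rt_pow (P k : ℕ) : ‖rt P ^ k‖ = 1 := by rw [norm_pow, norm_rt, one_pow]

lemma mul_conj_unit {z : ℂ} (h : ‖z‖ = 1) : z * (starRingEnd ℂ) z = 1 := by
  rw [mul_conj, normSq_eq_norm_sq, h]; simp

lemma orth {P a b : ℕ} (ha : a < P) (hb : b < P) :
    ∑ k ∈ range P, (rt P ^ k) ^ a * (starRingEnd ℂ) ((rt P ^ k) ^ b)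
      = if a = b then (P : ℂ) else 0 := by
  have hP : P ≠ 0 := by omega
  have hprim : IsPrimitiveRoot (rt P) P := isPrimitiveRoot_exp P hP
  split_ifs with h
  · subst h
    have : ∀ k ∈ range P, (rt P ^ k) ^ a * (starRingEnd ℂ) ((rt P ^ k) ^ a) = 1 := fun k _ =>
      mul_conj_unit (by rw [norm_pow, norm_rt_pow, one_pow])
    rw [sum_congr rfl this]
    simp
  · set u : ℂ := rt P ^ a * (starRingEnd ℂ) (rt P ^ b) with hu
    have h1 : ∀ k ∈ range P, (rt P ^ k) ^ a * (starRingEnd ℂ) ((rt P ^ k) ^ b) = u ^ k := by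
      intro k _
      rw [hu, mul_pow, ← map_pow, ← pow_mul, ← pow_mul, ← pow_mul, ← pow_mul, mul_comm k a,
        mul_comm k b]
    rw [sum_congr rfl h1]
    have h2 : u ^ P = 1 := by
      rw [hu, mul_pow, ← map_pow, ← pow_mul, ← pow_mul, mul_comm a P, mul_comm b P, pow_mul,
        pow_mul, hprim.pow_eq_one]
      simp
    have h3 : u ≠ 1 := by
      intro h4
      apply h
      have h5 : rt P ^ a = rt P ^ b := by
        have h6 := mul_conj_unit (norm_rt_pow P b)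
        calc rt P ^ a = rt P ^ a * (rt P ^ b * (starRingEnd ℂ) (rt P ^ b)) := by rw [h6, mul_one]
          _ = u * rt P ^ b := by rw [hu]; ring
          _ = _ := by rw [h4, one_mul]
      exact hprim.pow_inj ha hb h5
    rw [geom_sum_eq h3, h2]
    simp

lemma bilinear {α β : Type} {P : ℕ} (X : Finset α) (Y : Finset β) (e : α → ℕ) (e' : β → ℕ)
    (f : α → ℝ) (g : β → ℝ) (hX : ∀ x ∈ X, e x < P) (hY : ∀ y ∈ Y, e' y < P) :
    ∑ k ∈ range P, FS X e f (rt P ^ k) * (starRingEnd ℂ) (FS Y e' g (rt P ^ k))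
      = ((P * ∑ x ∈ X, ∑ y ∈ Y, if e x = e' y then f x * g y else 0 : ℝ) : ℂ) := by
  simp only [FS, map_sum, sum_mul_sum, map_mul, conj_ofReal]
  rw [sum_comm]
  push_cast
  rw [mul_sum]
  refine sum_congr rfl fun x hx => ?_
  rw [sum_comm, mul_sum]
  refine sum_congr rfl fun y hy => ?_
  have h := orth (hX x hx) (hY y hy)
  calc _ = (f x : ℂ) * g y * ∑ k ∈ range P, (rt P ^ k) ^ e x * (starRingEnd ℂ) ((rt P ^ k) ^ e' y) := by
        rw [mul_sum]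
        exact sum_congr rfl fun k _ => by ring
    _ = _ := by
        rw [h]
        split_ifs <;> simp [mul_comm]

lemma parseval {α : Type} {P : ℕ} (X : Finset α) (e : α → ℕ) (f : α → ℝ)
    (hX : ∀ x ∈ X, e x < P) :
    ∑ k ∈ range P, ‖FS X e f (rt P ^ k)‖ ^ 2
      = P * ∑ x ∈ X, ∑ y ∈ X, if e x = e y then f x * f y else 0 := by
  have h := bilinear X X e e f f hX hX
  simp only [mul_conj, normSq_eq_norm_sq] at h
  exact_mod_cast h

lemma parseval_inj {α : Type} {P : ℕ} (X : Finset α) (e : α → ℕ) (f : α → ℝ)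
    (hX : ∀ x ∈ X, e x < P) (hinj : ∀ x ∈ X, ∀ y ∈ X, e x = e y → x = y) :
    ∑ k ∈ range P, ‖FS X e f (rt P ^ k)‖ ^ 2 = P * ∑ x ∈ X, f x ^ 2 := by
  classical
  rw [parseval X e f hX]
  congr 1
  refine sum_congr rfl fun x hx => ?_
  rw [sum_eq_single x]
  · simp [sq]
  · intro y hy hyx
    rw [if_neg fun h => hyx (hinj x hx y hy h).symm]
  · intro h; exact absurd hx h

lemma parseval_fs {P L : ℕ} (hL : L ≤ P) (f : ℕ → ℝ) :
    ∑ k ∈ range P, ‖fs f L (rt P ^ k)‖ ^ 2 = P * ∑ t ∈ range L, f t ^ 2 :=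
  parseval_inj _ _ _ (fun _ hx => (mem_range.1 hx).trans_le hL) (fun _ _ _ _ h => h)

lemma exists_near_grid {P : ℕ} (hP : 0 < P) {ζ : ℂ} (hζ : ‖ζ‖ = 1) :
    ∃ k < P, ‖ζ - rt P ^ k‖ ≤ 7 / P := by
  have hP' : (0 : ℝ) < P := by exact_mod_cast hP
  have hpi := Real.pi_pos
  set θ : ℝ := arg ζ + 2 * Real.pi with hθ
  have hθ0 : 0 ≤ θ := by have := neg_pi_lt_arg ζ; linarith
  have h1 : ζ = exp (θ * I) := by
    have h := norm_mul_exp_arg_mul_I ζ
    rw [hζ] at h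
    rw [hθ]
    push_cast
    rw [add_mul, exp_add, exp_two_pi_mul_I]
    simpa using h.symm
  set k := ⌊θ * P / (2 * Real.pi)⌋₊ with hk
  have hprim : IsPrimitiveRoot (rt P) P := isPrimitiveRoot_exp P hP.ne'
  refine ⟨k % P, Nat.mod_lt _ hP, ?_⟩
  have h2 : rt P ^ (k % P) = rt P ^ k := by
    conv_rhs => rw [← Nat.mod_add_div k P, pow_add, pow_mul, hprim.pow_eq_one]
    simp
  have h3 : rt P ^ k = exp (((2 * Real.pi * k / P : ℝ) : ℂ) * I) := by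
    unfold rt
    rw [← exp_nat_mul]
    congr 1
    push_cast; ring
  set φ : ℝ := 2 * Real.pi * k / P with hφ
  have h4 : ζ - exp (φ * I) = exp (φ * I) * (exp (I * ((θ - φ : ℝ) : ℂ)) - 1) := by
    rw [mul_sub, ← exp_add, mul_one, h1]
    congr 2
    push_cast; ring
  rw [h2, h3, h4, norm_mul, norm_exp_ofReal_mul_I, one_mul]
  refine (Real.norm_exp_I_mul_ofReal_sub_one_le).trans ?_
  have h5 : (k : ℝ) ≤ θ * P / (2 * Real.pi) := Nat.floor_le (by positivity)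
  have h6 : θ * P / (2 * Real.pi) < k + 1 := Nat.lt_floor_add_one _
  rw [le_div_iff₀ (by positivity)] at h5
  rw [div_lt_iff₀ (by positivity)] at h6
  have h7 : θ - φ = (θ * P - k * (2 * Real.pi)) / P := by rw [hφ]; field_simp
  rw [Real.norm_eq_abs, h7, abs_div, abs_of_pos hP', abs_of_nonneg (by linarith)]
  refine div_le_div_of_nonneg_right ?_ hP'.le
  have := Real.pi_lt_d2
  linarith

lemma norm_pow_sub_pow_le {ζ ξ : ℂ} (hζ : ‖ζ‖ = 1) (hξ : ‖ξ‖ = 1) (t : ℕ) :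
    ‖ζ ^ t - ξ ^ t‖ ≤ t * ‖ζ - ξ‖ := by
  induction t with
  | zero => simp
  | succ t ih =>
    have h : ζ ^ (t + 1) - ξ ^ (t + 1) = ζ * (ζ ^ t - ξ ^ t) + (ζ - ξ) * ξ ^ t := by ring
    rw [h]
    refine (norm_add_le _ _).trans ?_
    rw [norm_mul, norm_mul, norm_pow, hζ, hξ, one_pow]
    push_cast
    linarith

lemma fs_lip {ζ ξ : ℂ} (hζ : ‖ζ‖ = 1) (hξ : ‖ξ‖ = 1) (f : ℕ → ℝ) (L : ℕ) :
    ‖fs f L ζ - fs f L ξ‖ ≤ L * ‖ζ - ξ‖ * ∑ t ∈ range L, |f t| := by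
  rw [fs_def, fs_def, ← sum_sub_distrib, mul_sum]
  refine (norm_sum_le _ _).trans (sum_le_sum fun t ht => ?_)
  rw [← mul_sub, norm_mul, norm_real, Real.norm_eq_abs, mul_comm]
  refine mul_le_mul_of_nonneg_right ((norm_pow_sub_pow_le hζ hξ t).trans ?_) (abs_nonneg _)
  exact mul_le_mul_of_nonneg_right (by exact_mod_cast (mem_range.1 ht).le) (norm_nonneg _)

lemma sum_abs_le {f : ℕ → ℝ} (hf : ∀ t, |f t| ≤ 1) (L : ℕ) : ∑ t ∈ range L, |f t| ≤ L := by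
  simpa using sum_le_sum (s := range L) fun t _ => hf t

lemma sum_sq_le {f : ℕ → ℝ} (hf : ∀ t, |f t| ≤ 1) (L : ℕ) : ∑ t ∈ range L, f t ^ 2 ≤ L := by
  simpa using sum_le_sum (s := range L) fun t _ => (sq_le_one_iff_abs_le_one _).2 (hf t)

lemma card_large_le {P L : ℕ} (hLP : L ≤ P) {f : ℕ → ℝ} (hf : ∀ t, |f t| ≤ 1) {c : ℝ}
    (hc : 0 ≤ c) :
    (((range P).filter fun k => c ≤ ‖fs f L (rt P ^ k)‖).card : ℝ) * c ^ 2 ≤ P * L := by
  calc _ = ∑ _k ∈ (range P).filter (fun k => c ≤ ‖fs f L (rt P ^ k)‖), c ^ 2 := by simp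
    _ ≤ ∑ k ∈ (range P).filter (fun k => c ≤ ‖fs f L (rt P ^ k)‖), ‖fs f L (rt P ^ k)‖ ^ 2 :=
        sum_le_sum fun k hk => pow_le_pow_left₀ hc (mem_filter.1 hk).2 2
    _ ≤ ∑ k ∈ range P, ‖fs f L (rt P ^ k)‖ ^ 2 :=
        sum_le_sum_of_subset_of_nonneg (filter_subset _ _) fun _ _ _ => sq_nonneg _
    _ ≤ _ := by
        rw [parseval_fs hLP]
        exact mul_le_mul_of_nonneg_left (sum_sq_le hf L) (Nat.cast_nonneg _)

/-- The large spectrum is covered by boundedly many short arcs. -/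
lemma spec_cover {f : ℕ → ℝ} (hf : ∀ t, |f t| ≤ 1) {L R : ℕ} (hL : 0 < L) {δ : ℝ} (hδ : 0 < δ)
    (hR : 14 / δ ≤ R) (hR1 : 1 ≤ R) :
    ∃ K : Finset ℂ, (K.card : ℝ) ≤ 4 * R / δ ^ 2 ∧ (∀ ξ ∈ K, ‖ξ‖ = 1) ∧
      ∀ ζ : ℂ, ‖ζ‖ = 1 → δ * L ≤ ‖fs f L ζ‖ → ∃ ξ ∈ K, ‖ζ - ξ‖ ≤ 7 / (R * L) := by
  classical
  have hL' : (0 : ℝ) < L := by exact_mod_cast hL
  have hR' : (0 : ℝ) < R := by exact_mod_cast hR1
  set S := (range (R * L)).filter fun k => δ * L / 2 ≤ ‖fs f L (rt (R * L) ^ k)‖ with hS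
  refine ⟨S.image fun k => rt (R * L) ^ k, ?_, ?_, ?_⟩
  · have h1 := card_large_le (P := R * L) (L := L) (Nat.le_mul_of_pos_left _ hR1) hf
      (c := δ * L / 2) (by positivity)
    have h2 : ((S.image fun k => rt (R * L) ^ k).card : ℝ) ≤ S.card := by
      exact_mod_cast card_image_le
    refine h2.trans ?_
    rw [le_div_iff₀ (by positivity)]
    push_cast at h1
    rw [← hS] at h1
    have h3 : (S.card : ℝ) * δ ^ 2 * L ^ 2 ≤ 4 * R * L ^ 2 := by nlinarith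
    exact le_of_mul_le_mul_right h3 (by positivity)
  · intro ξ hξ
    obtain ⟨k, -, rfl⟩ := mem_image.1 hξ
    exact norm_rt_pow _ _
  · intro ζ hζ h
    obtain ⟨k, hk, hk'⟩ := exists_near_grid (P := R * L) (by positivity) hζ
    push_cast at hk'
    refine ⟨_, mem_image.2 ⟨k, mem_filter.2 ⟨mem_range.2 hk, ?_⟩, rfl⟩, hk'⟩
    have h1 := fs_lip hζ (norm_rt_pow (R * L) k) f L
    have h2 : (L : ℝ) * ‖ζ - rt (R * L) ^ k‖ * ∑ t ∈ range L, |f t| ≤ L * (7 / (R * L)) * L := by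
      gcongr
      exact sum_abs_le hf L
    have h3 : (L : ℝ) * (7 / (R * L)) * L ≤ δ * L / 2 := by
      rw [div_le_iff₀ hδ] at hR
      have : (L : ℝ) * (7 / (R * L)) * L = 7 / R * L := by field_simp
      rw [this, mul_div_right_comm]
      refine mul_le_mul_of_nonneg_right ?_ hL'.le
      rw [div_le_iff₀ hR']
      linarith
    have h4 := norm_sub_norm_le (fs f L ζ) (fs f L (rt (R * L) ^ k))
    linarith

end Pool.Agent.Lib.MP_a5a405_co.PR
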