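import Pool.Agent.Lib.MP_a5a405_co.Mean

/-!
A mean on the natural numbers that is invariant under all dilations.
-/

open Finset Filter Topology

namespace Pool.Agent.Lib.MP_a5a405_co.PR

noncomputable def avgPow (K d : ℕ) (f : ℕ → ℝ) (n : ℕ) : ℝ :=
  (∑ i ∈ range (K + 1), f (d ^ i * n)) / (K + 1)

noncomputable def avgAll (K : ℕ) : ℕ → (ℕ → ℝ) → ℕ → ℝ
  | 0, f => f
  | m + 1, f => avgPow K (m + 1) (avgAll K m f)

lemma avgPow_le {K d : ℕ} {f : ℕ → ℝ} {c : ℝ} (h : ∀ n, 0 < n → f n ≤ c) (hd : 0 < d) (n : ℕ)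
    (hn : 0 < n) : avgPow K d f n ≤ c := by
  unfold avgPow
  rw [div_le_iff₀ (by positivity)]
  calc ∑ i ∈ range (K + 1), f (d ^ i * n) ≤ ∑ _i ∈ range (K + 1), c :=
        sum_le_sum fun i _ => h _ (by positivity)
    _ = _ := by simp; ring

lemma avgAll_le {K : ℕ} {f : ℕ → ℝ} {c : ℝ} (h : ∀ n, 0 < n → f n ≤ c) (m n : ℕ) (hn : 0 < n) :
    avgAll K m f n ≤ c := by
  induction m generalizing n with
  | zero => exact h n hn
  | succ m ih => exact avgPow_le ih (Nat.succ_pos m) n hn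

lemma avgAll_add (K m : ℕ) (f g : ℕ → ℝ) :
    avgAll K m (f + g) = avgAll K m f + avgAll K m g := by
  induction m with
  | zero => rfl
  | succ m ih =>
    ext n
    simp [avgAll, ih, avgPow, sum_add_distrib, add_div]

lemma avgAll_smul (K m : ℕ) (c : ℝ) (f : ℕ → ℝ) :
    avgAll K m (c • f) = c • avgAll K m f := by
  induction m with
  | zero => rfl
  | succ m ih =>
    ext n
    simp [avgAll, ih, avgPow, ← mul_sum, mul_div_assoc]

lemma avgAll_abs_le {K : ℕ} {f : ℕ → ℝ} {c : ℝ} (h : ∀ n, 0 < n → |f n| ≤ c) (m n : ℕ)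
    (hn : 0 < n) : |avgAll K m f n| ≤ c := by
  rw [abs_le]
  refine ⟨?_, avgAll_le (fun n hn => (abs_le.1 (h n hn)).2) m n hn⟩
  have h1 := avgAll_le (K := K) (f := (-1 : ℝ) • f) (c := c)
    (fun n hn => by have := (abs_le.1 (h n hn)).1; simp; linarith) m n hn
  rw [avgAll_smul] at h1
  simp at h1
  linarith

lemma avgAll_dil (K m d : ℕ) (f : ℕ → ℝ) (n : ℕ) :
    avgAll K m (fun x => f (d * x)) n = avgAll K m f (d * n) := by
  induction m generalizing n with
  | zero => rfl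
  | succ m ih =>
    simp only [avgAll, avgPow, ih]
    congr 1
    refine sum_congr rfl fun i _ => ?_
    congr 1
    ring

lemma avgAll_inv {K : ℕ} {f : ℕ → ℝ} {c : ℝ} (h : ∀ n, 0 < n → |f n| ≤ c) (m d : ℕ) (hd : 0 < d)
    (hdm : d ≤ m) (n : ℕ) (hn : 0 < n) :
    |avgAll K m f (d * n) - avgAll K m f n| ≤ 2 * c / (K + 1) := by
  induction m generalizing n with
  | zero => omega
  | succ m ih =>
    have hK : (0 : ℝ) < K + 1 := by positivity
    rcases Nat.lt_or_ge d (m + 1) with h1 | h1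
    · simp only [avgAll, avgPow]
      rw [← sub_div, ← sum_sub_distrib, abs_div, abs_of_pos hK, div_le_iff₀ hK]
      refine (abs_sum_le_sum_abs _ _).trans ?_
      calc _ ≤ ∑ _i ∈ range (K + 1), 2 * c / (K + 1) := by
            refine sum_le_sum fun i _ => ?_
            have := ih (by omega) ((m + 1) ^ i * n) (by positivity)
            rwa [mul_left_comm] at this
        _ = _ := by simp; ring
    · obtain rfl : d = m + 1 := by omega
      simp only [avgAll, avgPow]
      rw [← sub_div, ← sum_sub_distrib, abs_div, abs_of_pos hK]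
      refine div_le_div_of_nonneg_right ?_ hK.le
      have h2 : ∑ i ∈ range (K + 1), (avgAll K m f ((m + 1) ^ i * ((m + 1) * n))
          - avgAll K m f ((m + 1) ^ i * n))
          = avgAll K m f ((m + 1) ^ (K + 1) * n) - avgAll K m f ((m + 1) ^ 0 * n) := by
        rw [← sum_range_sub (fun i => avgAll K m f ((m + 1) ^ i * n))]
        refine sum_congr rfl fun i _ => ?_
        congr 2
        ring
      rw [h2]
      have h3 := avgAll_abs_le (K := K) h m ((m + 1) ^ (K + 1) * n) (by positivity)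
      have h4 := avgAll_abs_le (K := K) h m ((m + 1) ^ 0 * n) (by positivity)
      exact (abs_sub _ _).trans (by linarith)

def bddSub : Submodule ℝ (ℕ → ℝ) where
  carrier := {f | Bdd f}
  add_mem' := fun hf hg => Bdd.add hf hg
  zero_mem' := Bdd.const 0
  smul_mem' := fun c _ hf => (Bdd.const c).mul hf

lemma exists_tendsto {f : ℕ → ℝ} (hf : Bdd f) :
    ∃ a, Tendsto (fun K => avgAll K K f 1) (hyperfilter ℕ) (𝓝 a) := by
  obtain ⟨C, hC⟩ := hf
  have h : ∀ K, avgAll K K f 1 ∈ Set.Icc (-C) C := fun K =>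
    abs_le.1 (avgAll_abs_le (fun n _ => hC n) K 1 one_pos)
  obtain ⟨a, -, ha⟩ := (isCompact_Icc (a := -C) (b := C)).ultrafilter_le_nhds
    ((hyperfilter ℕ).map fun K => avgAll K K f 1)
    (by rw [le_principal_iff]; exact mem_map.2 (univ_mem' h))
  exact ⟨a, ha⟩

theorem exists_invMean : ∃ E : Mean ℕ, (∀ d, 0 < d → E.Pres (fun n => d * n)) ∧
    (∀ f : ℕ → ℝ, Bdd f → (∀ n, 0 < n → 0 ≤ f n) → 0 ≤ E.m f) := by
  choose lim hlim using fun f : bddSub => exists_tendsto (f := f) f.2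
  let L : bddSub →ₗ[ℝ] ℝ :=
    { toFun := lim
      map_add' := fun f g => by
        refine tendsto_nhds_unique (hlim (f + g)) ?_
        have := (hlim f).add (hlim g)
        simpa [avgAll_add] using this
      map_smul' := fun c f => by
        refine tendsto_nhds_unique (hlim (c • f)) ?_
        have := (hlim f).const_mul c
        simpa [avgAll_smul] using this }
  obtain ⟨m, hm⟩ := L.exists_extend
  have hm' : ∀ f, Bdd f → Tendsto (fun K => avgAll K K f 1) (hyperfilter ℕ) (𝓝 (m f)) := by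
    intro f hf
    have h1 : m f = lim ⟨f, hf⟩ := LinearMap.congr_fun hm ⟨f, hf⟩
    rw [h1]
    exact hlim ⟨f, hf⟩
  have hpos : ∀ f : ℕ → ℝ, Bdd f → (∀ n, 0 < n → 0 ≤ f n) → 0 ≤ m f := by
    intro f hf h0
    refine ge_of_tendsto' (hm' f hf) fun K => ?_
    have h1 := avgAll_le (K := K) (f := (-1 : ℝ) • f) (c := 0)
      (fun n hn => by have := h0 n hn; simp; linarith) K 1 one_pos
    rw [avgAll_smul] at h1
    simpa using h1
  refine ⟨⟨m, fun f hf h0 => hpos f hf fun n _ => h0 n, ?_⟩, fun d hd f hf => ?_, hpos⟩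
  · refine tendsto_nhds_unique (hm' _ (Bdd.const 1)) ?_
    have : ∀ K, avgAll K K (fun _ => (1 : ℝ)) 1 = 1 := by
      intro K
      refine le_antisymm (avgAll_le (fun _ _ => le_rfl) K 1 one_pos) ?_
      have h1 := avgAll_le (K := K) (f := (-1 : ℝ) • fun _ => (1 : ℝ)) (c := -1)
        (fun n hn => by simp) K 1 one_pos
      rw [avgAll_smul] at h1
      simpa using h1
    simp [this]
  · obtain ⟨C, hC⟩ := hf
    have h1 := hm' (fun x => f (d * x)) (Bdd.comp ⟨C, hC⟩ _)
    have h2 := hm' f ⟨C, hC⟩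
    refine tendsto_nhds_unique h1 ?_
    have h3 : Tendsto (fun K : ℕ => avgAll K K f (d * 1) - avgAll K K f 1) (hyperfilter ℕ) (𝓝 0) := by
      refine Tendsto.mono_left ?_ (hyperfilter_le_cofinite.trans Nat.cofinite_eq_atTop.le)
      have h4 : Tendsto (fun K : ℕ => 2 * C / ((K : ℝ) + 1)) atTop (𝓝 0) :=
        Tendsto.div_atTop tendsto_const_nhds
          (tendsto_atTop_add_const_right _ _ tendsto_natCast_atTop_atTop)
      refine squeeze_zero_norm' ?_ h4
      filter_upwards [eventually_ge_atTop d] with K hK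
      exact avgAll_inv (fun n _ => hC n) K d hd hK 1 one_pos
    have h5 := h3.add h2
    simp only [sub_add_cancel, zero_add] at h5
    simpa only [avgAll_dil] using h5

/-- A fixed dilation invariant mean. -/
noncomputable def EE : Mean ℕ := exists_invMean.choose

lemma EE_pres {d : ℕ} (hd : 0 < d) : EE.Pres (fun n => d * n) := exists_invMean.choose_spec.1 d hd

lemma EE_dil {d : ℕ} (hd : 0 < d) {f : ℕ → ℝ} (hf : Bdd f) : EE.m (fun n => f (d * n)) = EE.m f :=
  EE_pres hd f hf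

lemma EE_mono {L : ℕ} (hL : 0 < L) {f g : ℕ → ℝ} (hf : Bdd f) (hg : Bdd g)
    (h : ∀ n, 0 < n → L ∣ n → f n ≤ g n) : EE.m f ≤ EE.m g := by
  have h1 := exists_invMean.choose_spec.2 (fun n => g (L * n) - f (L * n))
    ((hg.comp _).sub (hf.comp _))
    (fun n hn => sub_nonneg.2 (h _ (by positivity) (dvd_mul_right _ _)))
  change 0 ≤ EE.m _ at h1
  rw [EE.sub, EE_dil hL hf, EE_dil hL hg] at h1
  linarith

/-- The mean on pairs (multiplier, scale). -/
noncomputable def MM : Mean (ℕ × ℕ) := EE.prod EE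

lemma MM_pres {a b : ℕ} (ha : 0 < a) (hb : 0 < b) : MM.Pres (fun x => (a * x.1, b * x.2)) := by
  intro f hf
  simp only [MM, Mean.prod_m]
  have h1 : ∀ y, EE.m (fun x => f (a * x, b * y)) = EE.m (fun x => f (x, b * y)) := fun y =>
    EE_dil ha (f := fun x => f (x, b * y)) (hf.comp _)
  simp only [h1]
  exact EE_dil hb (f := fun y => EE.m (fun x => f (x, y))) (EE.bdd_inner hf)

lemma MM_mono' {L : ℕ} (hL : 0 < L) {f g : ℕ × ℕ → ℝ} (hf : Bdd f) (hg : Bdd g)
    (h : ∀ N, 0 < N → L ∣ N → EE.m (fun s => f (s, N)) ≤ EE.m (fun s => g (s, N))) :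
    MM.m f ≤ MM.m g :=
  EE_mono hL (EE.bdd_inner hf) (EE.bdd_inner hg) h

lemma MM_mono {L : ℕ} (hL : 0 < L) {f g : ℕ × ℕ → ℝ} (hf : Bdd f) (hg : Bdd g)
    (h : ∀ s N, 0 < s → 0 < N → L ∣ N → f (s, N) ≤ g (s, N)) : MM.m f ≤ MM.m g :=
  MM_mono' hL hf hg fun N hN hLN =>
    EE_mono one_pos (hf.comp _) (hg.comp _) fun s hs _ => h s N hs hN hLN

end Pool.Agent.Lib.MP_a5a405_co.PR
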