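import Mathlib

/-!
Eighth roots of 16 modulo odd numbers and of 33 modulo powers of two.
-/

namespace Pool.Agent.Lib.MP_a5a405_co.PR

lemma root_prime {p : ℕ} (hp : p.Prime) (h2 : p ≠ 2) : ∃ x : ℤ, (p : ℤ) ∣ x ^ 8 - 16 := by
  have := Fact.mk hp
  have key : ∃ x : ZMod p, x ^ 8 = 16 := by
    have h8 : p % 8 = 1 ∨ p % 8 = 3 ∨ p % 8 = 5 ∨ p % 8 = 7 := by
      have := hp.eq_two_or_odd.resolve_left h2
      omega
    have hA : IsSquare (2 : ZMod p) → ∃ x : ZMod p, x ^ 8 = 16 := by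
      rintro ⟨y, hy⟩
      exact ⟨y, by rw [show y ^ 8 = (y * y) ^ 4 by ring, ← hy]; norm_num⟩
    have hB : IsSquare (-2 : ZMod p) → ∃ x : ZMod p, x ^ 8 = 16 := by
      rintro ⟨y, hy⟩
      exact ⟨y, by rw [show y ^ 8 = (y * y) ^ 4 by ring, ← hy]; norm_num⟩
    have hC : IsSquare (-1 : ZMod p) → ∃ x : ZMod p, x ^ 8 = 16 := by
      rintro ⟨y, hy⟩
      refine ⟨1 + y, ?_⟩
      have h1 : (1 + y) ^ 2 = 2 * y := by linear_combination (-1 : ZMod p) * hy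
      rw [show (1 + y) ^ 8 = ((1 + y) ^ 2) ^ 4 by ring, h1,
        show (2 * y) ^ 4 = 16 * (y * y) ^ 2 by ring, ← hy]
      norm_num
    rcases h8 with h | h | h | h
    · exact hA ((ZMod.exists_sq_eq_two_iff h2).2 (Or.inl h))
    · exact hB ((ZMod.exists_sq_eq_neg_two_iff h2).2 (Or.inr h))
    · exact hC (ZMod.exists_sq_eq_neg_one_iff.2 (by omega))
    · exact hA ((ZMod.exists_sq_eq_two_iff h2).2 (Or.inr h))
  obtain ⟨x, hx⟩ := key
  refine ⟨(x.val : ℤ), (ZMod.intCast_zmod_eq_zero_iff_dvd _ p).1 ?_⟩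
  push_cast
  rw [ZMod.natCast_zmod_val, hx, sub_self]

lemma root_sq {m : ℤ} (hm : Odd m) (h : ∃ x : ℤ, m ∣ x ^ 8 - 16) :
    ∃ x : ℤ, m ^ 2 ∣ x ^ 8 - 16 := by
  obtain ⟨x, f, hf⟩ := h
  have h2 : IsCoprime m 2 := by
    obtain ⟨c, rfl⟩ := hm
    exact ⟨1, -c, by ring⟩
  have h3 : IsCoprime m (x ^ 8) := by
    have : x ^ 8 = 2 ^ 4 + m * f := by linear_combination hf
    rw [this]
    exact (h2.pow_right (n := 4)).add_mul_left_right f
  have h4 : IsCoprime m x := (IsCoprime.pow_right_iff (by norm_num)).1 h3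
  have h5 : IsCoprime m (2 ^ 3 * x ^ 7) := h2.pow_right.mul_right h4.pow_right
  obtain ⟨u, v, huv⟩ := h5
  refine ⟨x - m * f * v, f * u + (f * v) ^ 2 * (28 * x ^ 6 - 56 * x ^ 5 * (m * f * v)
    + 70 * x ^ 4 * (m * f * v) ^ 2 - 56 * x ^ 3 * (m * f * v) ^ 3 + 28 * x ^ 2 * (m * f * v) ^ 4
    - 8 * x * (m * f * v) ^ 5 + (m * f * v) ^ 6), ?_⟩
  linear_combination hf - m * f * huv

lemma root_odd (m : ℕ) (hm : Odd m) : ∃ x : ℤ, (m : ℤ) ∣ x ^ 8 - 16 := by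
  induction m using Nat.recOnPosPrimePosCoprime with
  | zero => simp at hm
  | one => exact ⟨0, by simp⟩
  | prime_pow p n hp hn =>
    have h2 : p ≠ 2 := by
      rintro rfl
      exact (Nat.not_even_iff_odd.2 hm) (Nat.even_pow.2 ⟨even_two, hn.ne'⟩)
    have hodd : Odd (p : ℤ) := by exact_mod_cast hp.odd_of_ne_two h2
    have key : ∀ j : ℕ, ∃ x : ℤ, (p : ℤ) ^ 2 ^ j ∣ x ^ 8 - 16 := by
      intro j
      induction j with
      | zero => simpa using root_prime hp h2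
      | succ j ih =>
        rw [pow_succ, pow_mul]
        exact root_sq hodd.pow ih
    obtain ⟨x, hx⟩ := key n
    refine ⟨x, dvd_trans ?_ hx⟩
    push_cast
    exact pow_dvd_pow _ Nat.lt_two_pow_self.le
  | coprime a b _ _ hab iha ihb =>
    obtain ⟨x, hx⟩ := iha (Nat.odd_mul.1 hm).1
    obtain ⟨y, hy⟩ := ihb (Nat.odd_mul.1 hm).2
    have hco : IsCoprime (a : ℤ) (b : ℤ) := Nat.isCoprime_iff_coprime.2 hab
    obtain ⟨u, v, huv⟩ := hco
    refine ⟨y * u * a + x * v * b, ?_⟩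
    push_cast
    refine IsCoprime.mul_dvd ⟨u, v, huv⟩ ?_ ?_
    · have h1 : (a : ℤ) ∣ (y * u * a + x * v * b) - x :=
        ⟨y * u - x * u, by linear_combination x * huv⟩
      have h2 := h1.trans (sub_dvd_pow_sub_pow _ _ 8)
      simpa using h2.add hx
    · have h1 : (b : ℤ) ∣ (y * u * a + x * v * b) - y :=
        ⟨x * v - y * v, by linear_combination y * huv⟩
      have h2 := h1.trans (sub_dvd_pow_sub_pow _ _ 8)
      simpa using h2.add hy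

lemma root_two (k : ℕ) : ∃ x : ℤ, (2 : ℤ) ^ (k + 5) ∣ (2 * x + 1) ^ 8 - 33 := by
  induction k with
  | zero => exact ⟨0, by norm_num⟩
  | succ k ih =>
    obtain ⟨x, f, hf⟩ := ih
    rcases Int.even_or_odd' f with ⟨c, rfl | rfl⟩
    · exact ⟨x, c, by rw [hf]; ring⟩
    · obtain ⟨e, he⟩ : Odd ((2 * x + 1) ^ 7) := (odd_two_mul_add_one x).pow
      set y := 2 * x + 1 with hy
      set t : ℤ := 2 ^ k with ht
      refine ⟨x + 2 * t, c + e + 1 + t * (7 * y ^ 6 + 56 * y ^ 5 * t + 280 * y ^ 4 * t ^ 2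
        + 896 * y ^ 3 * t ^ 3 + 1792 * y ^ 2 * t ^ 4 + 2048 * y * t ^ 5 + 1024 * t ^ 6), ?_⟩
      have h1 : 2 * (x + 2 * t) + 1 = y + 4 * t := by rw [hy]; ring
      have h2 : (2 : ℤ) ^ (k + 5) = 32 * t := by rw [ht]; ring
      have h3 : (2 : ℤ) ^ (k + 1 + 5) = 64 * t := by rw [ht]; ring
      rw [h2] at hf
      rw [h1, h3]
      linear_combination hf + 32 * t * he

/-- The eighth root that is needed modulo a general modulus. -/
theorem exists_root (K m : ℕ) (hm : Odd m) : ∃ g : ℕ, g.Coprime (2 ^ K * m) ∧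
    g ^ 8 ≡ 33 [MOD 2 ^ K] ∧ g ^ 8 ≡ 16 [MOD m] := by
  obtain ⟨x, hx⟩ := root_odd m hm
  obtain ⟨y, hy⟩ := root_two K
  have hy' : ((2 ^ (K + 1) : ℕ) : ℤ) ∣ (2 * y + 1) ^ 8 - 33 := by
    push_cast
    exact (pow_dvd_pow _ (by omega)).trans hy
  have hco : (2 ^ (K + 1)).Coprime m := Nat.Coprime.pow_left _ (Nat.coprime_two_left.2 hm)
  have hm0 : (m : ℤ) ≠ 0 := by exact_mod_cast hm.pos.ne'
  have key : ∀ (n : ℕ) (z : ℤ) (c : ℕ), 0 < n → (n : ℤ) ∣ z ^ 8 - c → ∃ a : ℕ, a ^ 8 ≡ c [MOD n] := by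
    intro n z c hn h
    refine ⟨(z % n).toNat, (Nat.modEq_iff_dvd.2 ?_).symm⟩
    push_cast
    rw [Int.toNat_of_nonneg (Int.emod_nonneg _ (by exact_mod_cast hn.ne'))]
    have h1 : (n : ℤ) ∣ z % n - z := (Int.mod_modEq z n).symm.dvd
    simpa using (h1.trans (sub_dvd_pow_sub_pow _ _ 8)).add h
  obtain ⟨a, ha⟩ := key _ _ 33 (by positivity) hy'
  obtain ⟨b, hb⟩ := key _ _ 16 hm.pos hx
  obtain ⟨g, hg1, hg2⟩ := Nat.chineseRemainder hco a b
  have h1 : g ^ 8 ≡ 33 [MOD 2 ^ (K + 1)] := (hg1.pow 8).trans ha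
  have h2 : g ^ 8 ≡ 16 [MOD m] := (hg2.pow 8).trans hb
  refine ⟨g, Nat.Coprime.mul_right ?_ ?_, h1.of_dvd (pow_dvd_pow _ (by omega)), h2⟩
  · refine Nat.Coprime.pow_right _ ?_
    have h3 : g ^ 8 ≡ 33 [MOD 2] := h1.of_dvd (dvd_pow_self _ (by omega))
    rw [← Nat.coprime_pow_left_iff (by norm_num : 0 < 8), Nat.coprime_iff_gcd_eq_one,
      h3.gcd_eq]
    norm_num
  · rw [← Nat.coprime_pow_left_iff (by norm_num : 0 < 8), Nat.coprime_iff_gcd_eq_one, h2.gcd_eq]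
    exact Nat.Coprime.pow_left 4 (Nat.coprime_two_left.2 hm)

end Pool.Agent.Lib.MP_a5a405_co.PR
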