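import Pool.Agent.Lib.MP_a5a405_co.Energy
import Pool.Agent.Lib.MP_a5a405_co.Roots

/-!
The equation 16 x + 17 y = w z ^ 8 is partition regular over the positive integers.
-/

open Finset Filter Topology
open scoped Classical

namespace Pool.Agent.Lib.MP_a5a405_co.PR

/-- The averaged third function, evaluated on the cell predicted by the first variable. -/
noncomputable def GG (M : ℕ) (κ : ZMod M) (F : ℕ → ℝ) (S : Finset ℕ) (D B k s n : ℕ) : ℝ :=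
  cav M (16 * B * k) (gAv F S D s) (κ * n, (cell M (B * k) n).2)

lemma GG_mem (M : ℕ) (κ : ZMod M) {F : ℕ → ℝ} (hF : ∀ n, 0 ≤ F n ∧ F n ≤ 1) (S : Finset ℕ)
    (D B k s n : ℕ) : 0 ≤ GG M κ F S D B k s n ∧ GG M κ F S D B k s n ≤ 1 :=
  ce_mem _ _ (gAv_mem hF S D s) _

/-- The main term. -/
noncomputable def mt' (M : ℕ) (κ : ZMod M) (F : ℕ → ℝ) (S : Finset ℕ) (D H q σ d : ℕ)
    (y : ℕ × ℕ) : ℝ :=
  (∑ x ∈ range (H * q * y.2) ×ˢ range (q * y.2),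
    wt q (fun n => od n * F (σ * y.1 * n)) (fun m => F (d * (σ * y.1 * m))) x
      * GG M κ F S D (H * q) y.2 y.1 x.1) / ((H * q * y.2 : ℕ) * y.2)

lemma od_mul_mem {F : ℕ → ℝ} (hF : ∀ n, 0 ≤ F n ∧ F n ≤ 1) (n a : ℕ) :
    0 ≤ od n * F a ∧ od n * F a ≤ 1 :=
  ⟨mul_nonneg (od_mem n).1 (hF a).1, mul_le_one₀ (od_mem n).2 (hF a).1 (hF a).2⟩

lemma mt_mem (M : ℕ) (κ : ZMod M) {F : ℕ → ℝ} (hF : ∀ n, 0 ≤ F n ∧ F n ≤ 1) (S : Finset ℕ)
    (D H : ℕ) {q : ℕ} (hq : 0 < q) (σ d : ℕ) (y : ℕ × ℕ) :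
    0 ≤ mt' M κ F S D H q σ d y ∧ mt' M κ F S D H q σ d y ≤ 1 := by
  unfold mt'
  refine ⟨div_nonneg (sum_nonneg fun x _ => mul_nonneg ?_ (GG_mem M κ hF S _ _ _ _ _).1)
    (by positivity), div_le_one_of_le₀ ?_ (by positivity)⟩
  · unfold wt
    split_ifs
    exacts [mul_nonneg (od_mul_mem hF _ _).1 (hF _).1, le_rfl]
  · rw [← sum_cong_le (k := y.2) hq]
    refine sum_le_sum fun x _ => ?_
    have h1 := abs_wt_le (q := q) (a := fun n => od n * F (σ * y.1 * n))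
      (b := fun m => F (d * (σ * y.1 * m))) (abs_of_mem fun n => od_mul_mem hF n _)
      (fun m => abs_of_mem hF _) x
    have h2 := GG_mem M κ hF S D (H * q) y.2 y.1 x.1
    refine le_trans ?_ h1
    refine (mul_le_mul_of_nonneg_right (le_abs_self _) h2.1).trans ?_
    exact mul_le_of_le_one_right (abs_nonneg _) h2.2

lemma upper {q d H M M' C z D : ℕ} [NeZero M] (hq : 0 < q) (hd : 0 < d)
    (hH : 17 * d ≤ H) (hco : (16 + 17 * d).Coprime q) (hM' : 0 < M') {κ : ZMod M}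
    (hκ : ∀ n m : ℕ, n % q = m % q → ((tau d (n, m) : ℕ) : ZMod M) = κ * n)
    {F : ℕ → ℝ} (hF : ∀ n, 0 ≤ F n ∧ F n ≤ 1) {S : Finset ℕ} (hD : 0 < D) (hS : ∀ p ∈ S, p ∣ D)
    (hΛ : 0 < ∑ p ∈ S, 1 / (p : ℝ))
    (hno : ∀ p ∈ S, ∀ s n m, F (s * (p * z) ^ 8 * n) * F (d * (s * (p * z) ^ 8 * m))
      * F (s * tau d (n, m)) = 0)
    {δ τ ε : ℝ} (hδ : 0 < δ) (hτ : 0 < τ) (hMC : M ≤ C) (hδC : 4 * (M : ℝ) ^ 2 / δ ≤ C)
    (hdvd : ∀ m, 1 ≤ m → m ≤ C → m ∣ M * M') (hC : 14 * D ^ 8 ≤ C)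
    (hbad : MM.m (fun x => if Bad (δ / 2) F S D x then 1 else 0) ≤ δ / 2)
    (hmaj : ∀ s L, 0 < L → D ^ 8 ∣ L → ¬ Bad (δ / 2) F S D (s, L) → ∀ ζ : ℂ, ‖ζ‖ = 1 →
      δ / 2 * L ≤ ‖fs (gAv F S D s) L ζ‖ →
      ∃ m, 1 ≤ m ∧ m ≤ D ^ 8 ∧ ‖ζ ^ m - 1‖ ≤ 14 * (D : ℝ) ^ 8 / L)
    (hinc : MM.m (fun y => inc M M' (fun t => F (y.1 * t)) y.2) ≤ ε) :
    MM.m (mt' M κ F S D H q ((z * D) ^ 8) d) ≤ 2 * M * d / H + τ / 2
      + 16 * ((C / (M * M' : ℕ)) ^ 2 / δ ^ 2) / τ + 16 * δ * q ^ 2 * H + 16 / τ * ε + δ / 2 := by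
  have hM : 0 < M := Nat.pos_of_ne_zero (NeZero.ne M)
  have hH0 : 0 < H := by omega
  set c : ℝ := 2 * M * d / H + τ / 2 + 16 * ((C / (M * M' : ℕ)) ^ 2 / δ ^ 2) / τ
    + 16 * δ * q ^ 2 * H with hc
  set Λ := ∑ p ∈ S, 1 / (p : ℝ) with hΛdef
  have hib : Bdd (fun y : ℕ × ℕ => inc M M' (fun t => F (y.1 * t)) y.2) :=
    Bdd.of_mem fun y => inc_mem M M' (fun _ => hF _) _
  have h1 := MM_mono (L := M ^ 2 * D ^ 8) (by positivity)
    (Bdd.of_mem (mt_mem M κ hF S D H hq ((z * D) ^ 8) d))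
    (g := fun y => c + 16 / τ * ((∑ p ∈ S, inc M M' (fun t => F ((D / p) ^ 8 * y.1 * t))
      (16 * (H * q) * y.2) / p) / Λ)
      + if Bad (δ / 2) F S D (1 * y.1, 16 * (H * q) * y.2) then 1 else 0)
    (((Bdd.const _).add ((Bdd.const _).mul ((Bdd.sum _ fun p => (hib.comp fun y : ℕ × ℕ =>
      ((D / p) ^ 8 * y.1, 16 * (H * q) * y.2)).div_const _).div_const _))).add (bdd_ind _)) (by
      intro s k hs hk hL
      have h2 := inc_gAv M M' (16 * (H * q) * k) F S D s hΛ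
      have h3 := (inc_mem M M' (gAv_mem hF S D s) (16 * (H * q) * k)).1
      simp only [mul_comm s] at h2
      have h4 := mul_le_mul_of_nonneg_left h2 (by positivity : 0 ≤ 16 / τ)
      dsimp only
      split_ifs with hb
      · have h5 := (mt_mem M κ hF S D H hq ((z * D) ^ 8) d (s, k)).2
        have h6 : 0 ≤ c := by positivity
        have h7 := mul_nonneg (by positivity : 0 ≤ 16 / τ) h3
        linarith
      · rw [one_mul] at hb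
        have hL0 : 0 < 16 * (H * q) * k := by positivity
        have h5 := det_main hq hk hd hH hco hM' hκ (a := fun n => od n * F ((z * D) ^ 8 * s * n))
          (b := fun m => F (d * ((z * D) ^ 8 * s * m))) (g := gAv F S D s)
          (fun n => od_mul_mem hF n _) (fun m => hF _) (gAv_mem hF S D s) (fun n m => by
            unfold gAv
            rw [← mul_div_assoc, mul_sum, sum_eq_zero, zero_div]
            intro p hp
            have h6 := hno p hp (s * (D / p) ^ 8) n m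
            have h7 : s * (D / p) ^ 8 * (p * z) ^ 8 = (z * D) ^ 8 * s := by
              rw [mul_assoc, ← mul_pow, ← mul_assoc, Nat.div_mul_cancel (hS p hp)]; ring
            rw [h7] at h6
            rw [← mul_div_assoc, mul_assoc (od n), mul_assoc (od n), h6, mul_zero, zero_div])
          hδ hτ (H * q * k) (16 * (H * q) * k) (by ring) (by ring)
          (((dvd_mul_right _ _).trans hL).mul_left _) hMC hδC hdvd (fun ζ hζ hl => by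
            obtain ⟨m, h6, h7, h8⟩ := hmaj s _ hL0 (((dvd_mul_left _ _).trans hL).mul_left _) hb ζ hζ hl
            refine ⟨m, h6, by omega, h8.trans (div_le_div_of_nonneg_right ?_ (Nat.cast_nonneg _))⟩
            exact_mod_cast hC)
        refine le_trans h5 ?_
        unfold inc at h4
        rw [hc, mul_add, add_div, mul_div_right_comm 16 _ τ]
        unfold inc
        linarith)
  refine h1.trans ?_
  rw [MM.add, MM.add, MM.const, MM.const_mul, MM.div_const, MM.sum,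
    MM_pres one_pos (by positivity) _ (bdd_ind (Bad (δ / 2) F S D))]
  have h2 : ∀ p ∈ S, MM.m (fun y => inc M M' (fun t => F ((D / p) ^ 8 * y.1 * t))
      (16 * (H * q) * y.2) / p) ≤ ε * (1 / p) := by
    intro p hp
    have hp0 : 0 < p := Nat.pos_of_dvd_of_pos (hS p hp) hD
    have h3 : 0 < D / p := Nat.div_pos (Nat.le_of_dvd hD (hS p hp)) hp0
    rw [MM.div_const, MM_pres (a := (D / p) ^ 8) (b := 16 * (H * q)) (by positivity) (by positivity)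
      _ hib, mul_one_div]
    exact div_le_div_of_nonneg_right hinc (Nat.cast_nonneg _)
  have h3 := sum_le_sum h2
  rw [← mul_sum, ← div_le_iff₀ hΛ] at h3
  linarith [mul_le_mul_of_nonneg_left h3 (by positivity : 0 ≤ 16 / τ)]

lemma bdd_mainterm (M : ℕ) (κ : ZMod M) {F : ℕ → ℝ} (hF : ∀ n, 0 ≤ F n ∧ F n ≤ 1) (S : Finset ℕ)
    (D B σ : ℕ) : Bdd fun y : ℕ × ℕ => (∑ n ∈ range (B * y.2), F (σ * y.1 * n)
      * (od n * GG M κ F S D B y.2 y.1 n)) / (B * y.2 : ℕ) := by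
  refine Bdd.of_mem (a := 0) (b := 1) fun y => ?_
  have h2 : ∀ n, 0 ≤ F (σ * y.1 * n) * (od n * GG M κ F S D B y.2 y.1 n)
      ∧ F (σ * y.1 * n) * (od n * GG M κ F S D B y.2 y.1 n) ≤ 1 := by
    intro n
    have h3 := GG_mem M κ hF S D B y.2 y.1 n
    have h4 := mul_nonneg (od_mem n).1 h3.1
    exact ⟨mul_nonneg (hF _).1 h4, mul_le_one₀ (hF _).2 h4 (mul_le_one₀ (od_mem n).2 h3.1 h3.2)⟩
  refine ⟨div_nonneg (sum_nonneg fun n _ => (h2 n).1) (Nat.cast_nonneg _),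
    div_le_one_of_le₀ ?_ (Nat.cast_nonneg _)⟩
  simpa using sum_le_sum (s := range (B * y.2)) fun n _ => (h2 n).2

lemma mainterm {M B z D g : ℕ} [NeZero M] (hM : 2 ∣ M) (hB : 0 < B) {F : ℕ → ℝ}
    (hF : ∀ n, 0 ≤ F n ∧ F n ≤ 1) {S : Finset ℕ} (hD : 0 < D) (hS : ∀ p ∈ S, p ∣ D)
    (hΛ : 0 < ∑ p ∈ S, 1 / (p : ℝ)) {e : ℝ}
    (he : ∀ p ∈ S, e ≤ (OM M).m (fun x => ww F (act 1 ((p * z) ^ 8) 1 x)
      * ww F (act (g ^ 8) 1 16 x))) :
    e ≤ MM.m (fun y => (∑ n ∈ range (B * y.2), F ((z * D) ^ 8 * y.1 * n)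
      * (od n * GG M (g ^ 8 : ℕ) F S D B y.2 y.1 n)) / (B * y.2 : ℕ)) := by
  have hM0 : 0 < M := Nat.pos_of_ne_zero (NeZero.ne M)
  set Λ := ∑ p ∈ S, 1 / (p : ℝ) with hΛdef
  have hwb : Bdd (ww (M := M) F) := Bdd.of_mem (ww_mem hF)
  set φ : ℕ → Om M → ℝ := fun p x => ww F (act 1 ((z * D) ^ 8) B x)
    * ww F (act (g ^ 8) ((D / p) ^ 8) (16 * B) x) with hφ
  have hφb : ∀ p, Bdd (φ p) := fun p => (hwb.comp _).mul (hwb.comp _)
  have hb : Bdd fun x => (∑ p ∈ S, φ p x / p) / Λ :=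
    (Bdd.sum _ fun p => (hφb p).div_const _).div_const _
  have h1 : e ≤ (OM M).m (fun x => (∑ p ∈ S, φ p x / p) / Λ) := by
    rw [Mean.div_const, Mean.sum, le_div_iff₀ hΛ, mul_sum]
    refine sum_le_sum fun p hp => ?_
    have hp0 : 0 < p := Nat.pos_of_dvd_of_pos (hS p hp) hD
    have h3 : 0 < D / p := Nat.div_pos (Nat.le_of_dvd hD (hS p hp)) hp0
    rw [Mean.div_const, mul_one_div]
    refine div_le_div_of_nonneg_right ((he p hp).trans (le_of_eq ?_)) (Nat.cast_nonneg _)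
    rw [← OM_pres (Nat.coprime_one_left M) (pow_pos h3 8) hB _ ((hwb.comp _).mul (hwb.comp _))]
    have h7 : (p * z) ^ 8 * (D / p) ^ 8 = (z * D) ^ 8 := by
      rw [← mul_pow, mul_right_comm, Nat.mul_div_cancel' (hS p hp), mul_comm]
    simp only [act_act, mul_one, one_mul, h7, hφ]
  refine h1.trans ?_
  rw [OM_m]
  refine MM_mono (L := M ^ 2) (by positivity) ((Mean.avg (cells M) (cells_nonempty M)).bdd_inner hb)
    (bdd_mainterm _ _ hF _ _ _ _) ?_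
  rintro s _ hs hN ⟨k, rfl⟩
  have hk : 0 < k := Nat.pos_of_mul_pos_left hN
  have h2 := avg_cells (mul_pos hB hk) (fun n => F ((z * D) ^ 8 * s * n))
    (fun c : ZMod M × ℕ => od c.1.val
      * cav M (16 * B * (M ^ 2 * k)) (gAv F S D s) ((g ^ 8 : ℕ) * c.1, c.2))
  rw [mul_left_comm] at h2
  have h3 : ∀ n, (cell M (B * (M ^ 2 * k)) n).1 = n := fun n => rfl
  simp only [h3, od_val hM] at h2
  dsimp only
  unfold GG
  rw [← h2]
  refine div_le_div_of_nonneg_right (sum_le_sum fun c _ => ?_) (Nat.cast_nonneg _)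
  rw [cav_gAv, ← mul_assoc, ← mul_div_assoc, mul_sum]
  refine div_le_div_of_nonneg_right (sum_le_sum fun p _ => ?_) hΛ.le
  rw [← mul_div_assoc]
  refine div_le_div_of_nonneg_right ?_ (Nat.cast_nonneg _)
  simp only [hφ, ww, act, Nat.cast_one, one_mul, mul_comm _ s]
  refine mul_le_mul (le_of_eq (mul_comm _ _)) (mul_le_of_le_one_left ?_ (od_mem _).2) ?_ ?_
  · exact (ce_mem _ _ (fun _ => hF _) _).1
  · exact mul_nonneg (od_mem _).1 (ce_mem _ _ (fun _ => hF _) _).1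
  · exact mul_nonneg (ce_mem _ _ (fun _ => hF _) _).1 (od_mem _).1

lemma lower {ι : Type} [Fintype ι] [Nonempty ι] {d : ι → ℕ} (M : ℕ) (κ : ZMod M) {F : ℕ → ℝ}
    (hF : ∀ n, 0 ≤ F n ∧ F n ≤ 1) (S : Finset ℕ) (D : ℕ) {H K σ : ℕ} (hH : 0 < H) (hK : 0 < K)
    (hσ : 0 < σ) (hd : ∀ i, d i ≡ 1 [MOD 2 ^ K]) {θ η : ℝ} (hθ : 0 < θ) (hη0 : 0 ≤ η)
    (hη : ∀ e, 0 < e → e ≡ 1 [MOD 2 ^ K] → EE.nrm (fun x => hAv d F (e * x) - hAv d F x) ≤ η) :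
    θ * MM.m (fun y => (∑ n ∈ range (H * 2 ^ K * y.2), F (σ * y.1 * n)
      * (od n * GG M κ F S D (H * 2 ^ K) y.2 y.1 n)) / (H * 2 ^ K * y.2 : ℕ)) - (θ ^ 2 + 3 * η)
      ≤ (∑ j, MM.m (mt' M κ F S D H (2 ^ K) σ (d j))) / Fintype.card ι := by
  have hmtb : ∀ j, Bdd (mt' M κ F S D H (2 ^ K) σ (d j)) := fun j =>
    Bdd.of_mem (mt_mem _ _ hF _ _ _ (by positivity) _ _)
  rw [← MM.sum, ← MM.div_const, ← MM.const_mul, ← MM.const (θ ^ 2 + 3 * η), ← MM.sub]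
  refine MM_mono' (L := 1) one_pos
    (((Bdd.const _).mul (bdd_mainterm _ _ hF _ _ _ _)).sub (Bdd.const _))
    ((Bdd.sum _ hmtb).div_const _) fun k hk _ => ?_
  have h := sum_lower hF hK hd hθ hη0 hη (G := GG M κ F S D (H * 2 ^ K) k)
    (GG_mem _ _ hF _ _ _ _) hσ (N := H * 2 ^ K * k) (by positivity) hk
  simp only [mt']
  exact h

lemma stage_one {ι : Type} [Fintype ι] (F : ι → ℕ → ℝ) (hF : ∀ i n, 0 ≤ F i n ∧ F i n ≤ 1)
    (P : ι → ℕ → Prop) (hP : ∀ i y, P i y → F i y = 1) (hP' : ∀ y, 0 < y → ∃ i, P i y) :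
    ∃ e : ℝ, 0 < e ∧ ∀ (M : ℕ) [NeZero M], 2 ∣ M → ∀ g : ℕ, g.Coprime M →
      ∃ (i : ι) (A : ℕ → Prop), 0 < EE.m (fun y => if A y then 1 else 0) ∧ ∀ y, 0 < y → A y →
        P i y ∧ e ≤ (OM M).m (fun x => ww (F i) (act 1 (y ^ 8) 1 x)
          * ww (F i) (act (g ^ 8) 1 16 x)) := by
  have hFb : ∀ i, Bdd (F i) := fun i => Bdd.of_mem (hF i)
  obtain ⟨μ, hμ⟩ : ∃ μ : ι → ℝ, ∀ i, μ i = EE.m (F i) / 2 := ⟨_, fun _ => rfl⟩
  obtain ⟨I, hI⟩ : ∃ I : Finset ι, ∀ i, i ∈ I ↔ 0 < μ i :=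
    ⟨univ.filter fun i => 0 < μ i, fun i => by simp⟩
  have hμI : ∀ i ∈ I, 0 < μ i := fun i hi => (hI i).1 hi
  obtain ⟨e, he⟩ : ∃ e, e = (∏ i ∈ I, μ i) ^ 2 / 2 := ⟨_, rfl⟩
  have he0 : 0 < e := by have := prod_pos hμI; rw [he]; positivity
  refine ⟨e / 2, by positivity, fun M _ hM2 g hg => ?_⟩
  have hwb : ∀ i, Bdd (ww (M := M) (F i)) := fun i => Bdd.of_mem (ww_mem (hF i))
  obtain ⟨a, b, ha, hb, htr⟩ := transfer hM2 F hF hg (γ := e / 2) (by positivity)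
  have hinv : ∀ i t c, 0 < c → (OM M).m (fun x => ww (F i) (act 1 ((t * c) ^ 8) 1 x)
      * ww (F i) (act 1 (c ^ 8) 1 x)) = (OM M).m (fun x => ww (F i) (act 1 (t ^ 8) 1 x)
      * ww (F i) (act 1 (1 ^ 8) 1 x)) := by
    intro i t c hc
    rw [← OM_pres (Nat.coprime_one_left M) (pow_pos hc 8) one_pos
      (fun x => ww (F i) (act 1 (t ^ 8) 1 x) * ww (F i) (act 1 (1 ^ 8) 1 x))
      (((hwb i).comp _).mul ((hwb i).comp _))]
    simp only [act_act, mul_pow, one_pow, one_mul]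
  obtain ⟨R, hR⟩ : ∃ R : ℕ → Prop, ∀ y, R y ↔ ∀ i ∈ I, e ≤ (OM M).m (fun x =>
    ww (F i) (act 1 (y ^ 8) 1 x) * ww (F i) (act 1 (1 ^ 8) 1 x)) := ⟨_, fun _ => Iff.rfl⟩
  obtain ⟨R', hR'⟩ : ∃ R' : ℕ → Prop, ∀ y, R' y ↔ ∀ i ∈ I, e ≤ (OM M).m (fun x =>
    ww (F i) (act 1 ((y * b) ^ 8) 1 x) * ww (F i) (act 1 (a ^ 8) 1 x)) := ⟨_, fun _ => Iff.rfl⟩
  have h1 := recurrence (OM M) (fun i y x => ww (F i) (act 1 (y ^ 8) 1 x))
    (fun i y x => ww_mem (hF i) _) I μ hμI (fun i _ y hy => by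
      rw [OM_pres (Nat.coprime_one_left M) (pow_pos hy 8) one_pos _ (hwb i), hμ]
      exact ww_mean hM2 (hF i)) hinv R fun y hy => (hR y).2 (he ▸ hy)
  have h2 : 0 < EE.m (fun y => if R' y then 1 else 0) := by
    rw [← EE_dil ha (bdd_ind R')]
    rw [← EE_dil hb (bdd_ind R)] at h1
    refine h1.trans_le (le_of_eq ?_)
    congr 1
    ext t
    congr 1
    simp only [hR, hR', ← hinv _ (b * t) a ha, show b * t * a = a * t * b by ring]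
  obtain ⟨A, hA⟩ : ∃ A : ι → ℕ → Prop, ∀ i y, A i y ↔ P i y ∧ R' y := ⟨_, fun _ _ => Iff.rfl⟩
  obtain ⟨i, hi⟩ : ∃ i, 0 < EE.m (fun y => if A i y then 1 else 0) := by
    by_contra h3
    push Not at h3
    have h4 := EE_mono one_pos (bdd_ind R') (Bdd.sum univ fun i => bdd_ind (A i)) fun y hy _ => by
      obtain ⟨i, hi⟩ := hP' y hy
      refine le_trans ?_ (single_le_sum (f := fun i => if A i y then (1 : ℝ) else 0)
        (fun i _ => by split_ifs <;> simp) (mem_univ i))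
      simp [hA, hi]
    rw [EE.sum] at h4
    linarith [sum_nonpos (s := univ) fun i _ => h3 i]
  have hiI : i ∈ I := by
    rw [hI, hμ]
    refine half_pos (hi.trans_le (EE.mono (bdd_ind _) (hFb i) fun y => ?_))
    split_ifs with h
    · exact (hP i y ((hA i y).1 h).1).ge
    · exact (hF i y).1
  refine ⟨i, A i, hi, fun y hy h => ⟨((hA i y).1 h).1, ?_⟩⟩
  linarith [htr i y hy, (hR' y).1 ((hA i y).1 h).2 i hiI]

lemma stage_two {M K m g : ℕ} [NeZero M] (hK : 0 < K) (hm : Odd m) (hMK : M = 2 ^ K * m)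
    (hg1 : g ^ 8 ≡ 33 [MOD 2 ^ K]) (hg2 : g ^ 8 ≡ 16 [MOD m]) {F : ℕ → ℝ}
    (hF : ∀ n, 0 ≤ F n ∧ F n ≤ 1) {θ : ℝ} (hθ0 : 0 < θ)
    (hsat : ∀ M', 0 < M' → MM.m (fun y => inc M M' (fun t => F (y.1 * t)) y.2) ≤ θ ^ 4 / 128)
    {A : ℕ → Prop} (hA0 : 0 < EE.m (fun y => if A y then 1 else 0))
    (hA : ∀ y, 0 < y → A y →
      4 * θ ≤ (OM M).m (fun x => ww F (act 1 (y ^ 8) 1 x) * ww F (act (g ^ 8) 1 16 x)))
    (hno : ∀ y, 0 < y → A y → ∀ s n n' d,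
      F (s * y ^ 8 * n) * F (d * (s * y ^ 8 * n')) * F (s * tau d (n, n')) = 0) : False := by
  have hM0 : 0 < M := Nat.pos_of_ne_zero (NeZero.ne M)
  have hM2 : 2 ∣ M := hMK ▸ (dvd_pow_self 2 hK.ne').mul_right m
  have hco : (2 ^ K).Coprime m := Nat.Coprime.pow_left _ (Nat.coprime_two_left.2 hm)
  obtain ⟨τ, hτ⟩ : ∃ τ, τ = θ ^ 2 / 2 := ⟨_, rfl⟩
  have hτ0 : 0 < τ := by rw [hτ]; positivity
  obtain ⟨d0, hd1, hd2⟩ := Nat.chineseRemainder hco 1 0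
  obtain ⟨ι, _, _, d, hd, hinvh⟩ := near_inv hF (fun e => e ≡ 1 [MOD 2 ^ K])
    (fun d => d ≡ 1 [MOD 2 ^ K] ∧ m ∣ d) (d0 := d0) ⟨hd1, (Nat.modEq_zero_iff_dvd).1 hd2⟩
    (fun e d h1 h2 => ⟨by simpa using h2.1.mul h1, h2.2.mul_right _⟩) (η := θ ^ 2 / 3) (by positivity)
  have hd0 : ∀ j, 0 < d j := fun j => (pos_of_modEq hK (hd j).1).pos
  obtain ⟨H, hH⟩ := exists_nat_ge (17 * (∑ j, d j : ℕ) + 8 * M * (∑ j, d j : ℕ) / θ ^ 2 + 1)
  have hA1 : (0 : ℝ) ≤ 17 * (∑ j, d j : ℕ) := by positivity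
  have hB : (0 : ℝ) ≤ 8 * M * (∑ j, d j : ℕ) / θ ^ 2 := by positivity
  have hH0 : (0 : ℝ) < H := by linarith
  have hH0' : 0 < H := by exact_mod_cast hH0
  have hdj : ∀ j, (d j : ℝ) ≤ (∑ j, d j : ℕ) := fun j => by
    exact_mod_cast single_le_sum (fun j _ => Nat.zero_le (d j)) (mem_univ j)
  obtain ⟨δ, hδ0, hδ1, hδ2⟩ : ∃ δ : ℝ, 0 < δ ∧ δ ≤ 1 ∧
      16 * δ * ((2 ^ K : ℕ) : ℝ) ^ 2 * H + δ / 2 ≤ θ ^ 2 / 4 := by
    refine ⟨min 1 (θ ^ 2 / 4 / (16 * ((2 ^ K : ℕ) : ℝ) ^ 2 * H + 1)),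
      lt_min one_pos (by positivity), min_le_left _ _, ?_⟩
    have h3 := min_le_right 1 (θ ^ 2 / 4 / (16 * ((2 ^ K : ℕ) : ℝ) ^ 2 * H + 1))
    have h4 : 0 < min 1 (θ ^ 2 / 4 / (16 * ((2 ^ K : ℕ) : ℝ) ^ 2 * H + 1)) :=
      lt_min one_pos (by positivity)
    rw [le_div_iff₀ (by positivity)] at h3
    linarith
  obtain ⟨Λ, hΛ0, hΛ⟩ := major (δ := δ / 2) (by positivity) (by linarith)
  obtain ⟨z, hz, S, hS, hSΛ⟩ := pick hA0 Λ
  obtain ⟨D, hD0, hSD⟩ : ∃ D : ℕ, 0 < D ∧ ∀ p ∈ S, p ∣ D :=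
    ⟨∏ p ∈ S, p, prod_pos fun p hp => (hS p hp).1.pos, fun p hp => dvd_prod_of_mem _ hp⟩
  obtain ⟨hbad, hmaj⟩ := hΛ F (abs_of_mem hF) S D hD0 (fun p hp => ⟨(hS p hp).1, hSD p hp⟩) hSΛ
  obtain ⟨C, hC1, hC2, hC3⟩ : ∃ C : ℕ, 14 * D ^ 8 ≤ C ∧ M ≤ C ∧ 4 * (M : ℝ) ^ 2 / δ ≤ C :=
    ⟨14 * D ^ 8 + M + ⌈4 * (M : ℝ) ^ 2 / δ⌉₊, by omega, by omega,
      (Nat.le_ceil _).trans (Nat.cast_le.2 (by omega))⟩
  obtain ⟨ρ, hρ⟩ : ∃ ρ, ρ = θ ^ 2 * δ ^ 2 * τ / 64 := ⟨_, rfl⟩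
  have hρ0 : 0 < ρ := by rw [hρ]; positivity
  obtain ⟨M', hM'0, hdvd, hCB⟩ : ∃ M' : ℕ, 0 < M' ∧ (∀ n, 1 ≤ n → n ≤ C → n ∣ M * M') ∧
      ((C : ℝ) / (M * M' : ℕ)) ^ 2 ≤ ρ := by
    obtain ⟨B, hB1⟩ := exists_nat_gt (C / √ρ)
    have hB0 : (0 : ℝ) < B := lt_of_le_of_lt (by positivity) hB1
    have hB0' : 0 < B := by exact_mod_cast hB0
    refine ⟨C.factorial * B, mul_pos (Nat.factorial_pos _) hB0',
      fun n h4 h5 => ((Nat.dvd_factorial h4 h5).mul_right _).mul_left _, ?_⟩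
    rw [← Real.sq_sqrt hρ0.le]
    refine pow_le_pow_left₀ (by positivity) ?_ 2
    have h3 : (B : ℝ) ≤ (M * (C.factorial * B) : ℕ) := by
      exact_mod_cast (Nat.le_mul_of_pos_left _ (Nat.factorial_pos _)).trans
        (Nat.le_mul_of_pos_left _ hM0)
    refine (div_le_div_of_nonneg_left (Nat.cast_nonneg _) hB0 h3).trans ?_
    rw [div_lt_iff₀ (Real.sqrt_pos.2 hρ0)] at hB1
    rw [div_le_iff₀ hB0]
    linarith
  have hκ : ∀ j, ∀ n n' : ℕ, n % 2 ^ K = n' % 2 ^ K →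
      ((tau (d j) (n, n') : ℕ) : ZMod M) = ((g ^ 8 : ℕ) : ZMod M) * n := by
    intro j n n' hn
    rw [← Nat.cast_mul, ZMod.natCast_eq_natCast_iff, hMK,
      ← Nat.modEq_and_modEq_iff_modEq_mul hco]
    unfold tau
    constructor
    · refine Nat.ModEq.trans ?_ (hg1.symm.mul_right n)
      have h4 := (((hd j).1.mul_left 17).mul (Nat.ModEq.symm hn)).add_left (16 * n)
      rwa [show 16 * n + 17 * 1 * n = 33 * n by ring] at h4
    · refine Nat.ModEq.trans ?_ (hg2.symm.mul_right n)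
      exact (Nat.modEq_zero_iff_dvd.2 (((hd j).2.mul_left 17).mul_right n')).add_left (16 * n)
  have hup : ∀ j, MM.m (mt' M (g ^ 8 : ℕ) F S D H (2 ^ K) ((z * D) ^ 8) (d j))
      ≤ 5 / 4 * θ ^ 2 := by
    intro j
    have h1 : 17 * d j ≤ H := by
      have : (17 : ℝ) * d j ≤ H := by linarith [hdj j]
      exact_mod_cast this
    have h2 : (16 + 17 * d j).Coprime (2 ^ K) := by
      refine Nat.Coprime.pow_right _ (Nat.coprime_two_right.2 ?_)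
      have := Nat.odd_iff.1 (pos_of_modEq hK (hd j).1)
      rw [Nat.odd_iff]; omega
    have h3 := upper (z := z) (by positivity) (hd0 j) h1 h2 hM'0 (hκ j) hF hD0 hSD
      (hΛ0.trans_le hSΛ)
      (fun p hp s n n' => hno _ (mul_pos (hS p hp).1.pos hz) (hS p hp).2 s n n' _)
      hδ0 hτ0 hC2 hC3 hdvd hC1 hbad hmaj (hsat _ hM'0)
    have h4 : 2 * (M : ℝ) * d j / H ≤ θ ^ 2 / 4 := by
      have h5 : 8 * M * (∑ j, d j : ℕ) / θ ^ 2 ≤ H := by linarith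
      rw [div_le_iff₀ (by positivity)] at h5
      rw [div_le_iff₀ hH0]
      linarith [mul_le_mul_of_nonneg_left (hdj j) (Nat.cast_nonneg (α := ℝ) M)]
    have h5 : 16 * (((C : ℝ) / (M * M' : ℕ)) ^ 2 / δ ^ 2) / τ ≤ θ ^ 2 / 4 := by
      calc _ ≤ 16 * (ρ / δ ^ 2) / τ := by gcongr
        _ = _ := by rw [hρ]; field_simp; norm_num
    have h6 : 16 / τ * (θ ^ 4 / 128) = θ ^ 2 / 4 := by rw [hτ]; field_simp; norm_num
    linarith
  have hmain := mainterm (B := H * 2 ^ K) (z := z) (g := g) hM2 (by positivity) hF hD0 hSD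
    (hΛ0.trans_le hSΛ) fun p hp => hA _ (mul_pos (hS p hp).1.pos hz) (hS p hp).2
  have hlow := lower M (g ^ 8 : ℕ) hF S D hH0' hK (σ := (z * D) ^ 8) (by positivity)
    (fun j => (hd j).1) hθ0 (by positivity) hinvh
  have hc : (0 : ℝ) < Fintype.card ι := by exact_mod_cast Fintype.card_pos
  have h3 := sum_le_sum (s := univ) fun j _ => hup j
  rw [sum_const, card_univ, nsmul_eq_mul, ← div_le_iff₀' hc] at h3
  have h4 := mul_le_mul_of_nonneg_left hmain hθ0.le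
  have h5 := hlow.trans h3
  have h6 := sq_pos_of_pos hθ0
  linarith

theorem partition_regular (r : ℕ) (χ : ℕ → Fin r) : ∃ x y w z : ℕ, 0 < x ∧ 0 < y ∧ 0 < w ∧ 0 < z ∧
    16 * x + 17 * y = w * z ^ 8 ∧ χ x = χ z ∧ χ y = χ z ∧ χ w = χ z := by
  by_contra hcon
  obtain ⟨F, hFdef⟩ : ∃ F : Fin r → ℕ → ℝ, ∀ i n, F i n = if 0 < n ∧ χ n = i then 1 else 0 :=
    ⟨_, fun _ _ => rfl⟩
  have hF : ∀ i n, 0 ≤ F i n ∧ F i n ≤ 1 := fun i n => by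
    rw [hFdef]; split_ifs <;> simp
  obtain ⟨e, he, h1⟩ := stage_one F hF (fun i n => 0 < n ∧ χ n = i)
    (fun i y h => by rw [hFdef, if_pos h]) fun y hy => ⟨_, hy, rfl⟩
  obtain ⟨M, hM0, hM2, hsat⟩ := saturate F hF (ε := (e / 4) ^ 4 / 128) (by positivity)
  have : NeZero M := ⟨hM0.ne'⟩
  obtain ⟨K, m, hm, hMK⟩ := Nat.exists_eq_two_pow_mul_odd hM0.ne'
  have hK : 0 < K := by
    rcases Nat.eq_zero_or_pos K with rfl | h
    · rw [hMK, pow_zero, one_mul] at hM2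
      exact absurd hm (Nat.not_odd_iff_even.2 (even_iff_two_dvd.2 hM2))
    · exact h
  obtain ⟨g, hg, hg1, hg2⟩ := exists_root K m hm
  rw [← hMK] at hg
  obtain ⟨i, A, hA0, hA⟩ := h1 M hM2 g hg
  refine stage_two hK hm hMK hg1 hg2 (hF i) (by positivity : 0 < e / 4) (fun M' h => hsat M' h i)
    hA0 (fun y hy h => by linarith [(hA y hy h).2]) fun y hy h s n n' d => ?_
  by_contra h4
  obtain ⟨h5, h6⟩ := mul_ne_zero_iff.1 h4
  obtain ⟨h4, h5⟩ := mul_ne_zero_iff.1 h5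
  simp only [hFdef, ne_eq, ite_eq_right_iff, one_ne_zero, imp_false, not_not] at h4 h5 h6
  have h8 := (hA y hy h).1.2
  refine hcon ⟨_, _, _, _, h4.1, h5.1, h6.1, hy, ?_, h4.2.trans h8.symm, h5.2.trans h8.symm,
    h6.2.trans h8.symm⟩
  unfold tau
  ring

end Pool.Agent.Lib.MP_a5a405_co.PR
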