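import Pool.Agent.Lib.MP_a5a405_co.TK
import Pool.Agent.Lib.MP_a5a405_co.InvMean

/-!
Large Fourier coefficients of an average of dilates by eighth powers of primes sit on major arcs.
-/

open Finset Complex
open scoped Classical

namespace Pool.Agent.Lib.MP_a5a405_co.PR

def badp (δ : ℝ) (f : ℕ → ℝ) (L p : ℕ) : Prop :=
  ∃ ζ : ℂ, ‖ζ‖ = 1 ∧ δ / 4 * L ≤ ‖fs f L ζ‖ ∧ δ / 64 * L < ‖fs (fun t => f t * dv p t) L ζ‖

lemma tk_spec {δ : ℝ} (hδ : 0 < δ) : ∃ C : ℝ, 0 ≤ C ∧ ∀ (f : ℕ → ℝ), (∀ t, |f t| ≤ 1) →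
    ∀ L, 0 < L → ∀ S : Finset ℕ, (∀ p ∈ S, p.Prime) → (∀ p ∈ S, ∀ q ∈ S, p * q ∣ L) →
    ∑ p ∈ S, (if badp δ f L p then 1 else 0) / (p : ℝ) ≤ C := by
  set R : ℕ := ⌈1792 / δ⌉₊ + 1 with hR
  have hR1 : 1792 / δ ≤ R := by rw [hR]; push_cast; linarith [Nat.le_ceil (1792 / δ)]
  have hR0 : (0 : ℝ) < R := by rw [hR]; positivity
  refine ⟨4 * R / (δ / 4) ^ 2 * (128 / δ) ^ 2, by positivity, fun f hf L hL S hS hdvd => ?_⟩
  have hL' : (0 : ℝ) < L := by exact_mod_cast hL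
  obtain ⟨K, hK, hK1, hK2⟩ := spec_cover hf hL (δ := δ / 4) (R := R) (by positivity)
    (by
      refine le_trans ?_ hR1
      rw [div_le_div_iff₀ (by positivity) hδ]; nlinarith) (by omega)
  have h1 : ∀ p ∈ S, (if badp δ f L p then 1 else 0) / (p : ℝ)
      ≤ ∑ ξ ∈ K, (128 / (δ * L)) ^ 2 * (‖fs (fun t => f t * dv p t) L ξ‖ ^ 2 / p) := by
    intro p hp
    have hp0 : (0 : ℝ) < p := by exact_mod_cast (hS p hp).pos
    split_ifs with hb
    · obtain ⟨ζ, hζ, h2, h3⟩ := hb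
      obtain ⟨ξ, hξ, h4⟩ := hK2 ζ hζ h2
      refine le_trans ?_ (single_le_sum (f := fun ξ => (128 / (δ * L)) ^ 2
        * (‖fs (fun t => f t * dv p t) L ξ‖ ^ 2 / p)) (fun _ _ => by positivity) hξ)
      have h5 := fs_lip hζ (hK1 ξ hξ) (fun t => f t * dv p t) L
      have h6 := sum_abs_dv_le (hS p hp).pos ((dvd_mul_right _ _).trans (hdvd p hp p hp)) hf
      have h7 : (L : ℝ) * ‖ζ - ξ‖ * ∑ t ∈ range L, |f t * dv p t| ≤ L * (7 / (R * L)) * (2 * L) := by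
        gcongr
      have h8 : (L : ℝ) * (7 / (R * L)) * (2 * L) ≤ δ / 128 * L := by
        have : (L : ℝ) * (7 / (R * L)) * (2 * L) = 14 / R * L := by field_simp; ring
        rw [this]
        refine mul_le_mul_of_nonneg_right ?_ hL'.le
        rw [div_le_iff₀ hδ] at hR1
        rw [div_le_div_iff₀ hR0 (by norm_num)]
        linarith
      have h9 := norm_sub_norm_le (fs (fun t => f t * dv p t) L ζ) (fs (fun t => f t * dv p t) L ξ)
      have h10 : δ / 128 * L ≤ ‖fs (fun t => f t * dv p t) L ξ‖ := by linarith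
      have h11 : 1 ≤ 128 / (δ * L) * ‖fs (fun t => f t * dv p t) L ξ‖ := by
        rw [div_mul_eq_mul_div, le_div_iff₀ (by positivity)]
        linarith
      rw [← mul_div_assoc, ← mul_pow]
      exact div_le_div_of_nonneg_right (one_le_pow₀ h11) hp0.le
    · rw [zero_div]
      exact sum_nonneg fun _ _ => by positivity
  refine (sum_le_sum h1).trans ?_
  rw [sum_comm]
  have h2 : ∀ ξ ∈ K, ∑ p ∈ S, (128 / (δ * L)) ^ 2 * (‖fs (fun t => f t * dv p t) L ξ‖ ^ 2 / p)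
      ≤ (128 / δ) ^ 2 := by
    intro ξ hξ
    rw [← mul_sum]
    calc _ ≤ (128 / (δ * L)) ^ 2 * (L : ℝ) ^ 2 :=
          mul_le_mul_of_nonneg_left (tk_fs hL S hS hdvd hf (hK1 ξ hξ)) (by positivity)
      _ = _ := by field_simp
  refine (sum_le_sum h2).trans ?_
  rw [sum_const, nsmul_eq_mul]
  exact mul_le_mul_of_nonneg_right hK (by positivity)

lemma sparse_mass {η J : ℝ} (hη : 0 < η) (hJ : 0 ≤ J) (S : Finset ℕ) : ∀ x : ℝ, 0 < x →
    (∀ p ∈ S, x ≤ p) →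
    (∀ p ∈ S, ((S.filter fun q : ℕ => p ≤ q ∧ (q : ℝ) ≤ (1 + η) * p).card : ℝ) ≤ J) →
    ∑ p ∈ S, 1 / (p : ℝ) ≤ J * (1 + η) / (η * x) := by
  induction S using Finset.strongInduction with
  | H S ih =>
    intro x hx h1 h2
    rcases S.eq_empty_or_nonempty with rfl | hne
    · simp only [sum_empty]; positivity
    set p := S.min' hne with hp
    have hpS : p ∈ S := min'_mem _ _
    have hp0 : (0 : ℝ) < p := hx.trans_le (h1 p hpS)
    set T := S.filter fun q : ℕ => p ≤ q ∧ (q : ℝ) ≤ (1 + η) * p with hT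
    have hpT : p ∈ T := mem_filter.2 ⟨hpS, le_rfl, by nlinarith⟩
    have hsub : T ⊆ S := filter_subset _ _
    have h3 := ih (S \ T) (sdiff_ssubset hsub ⟨p, hpT⟩) ((1 + η) * p) (by positivity)
      (fun q hq => by
        obtain ⟨hq1, hq2⟩ := mem_sdiff.1 hq
        by_contra hc
        exact hq2 (mem_filter.2 ⟨hq1, min'_le _ _ hq1, (not_le.1 hc).le⟩))
      (fun q hq => le_trans (by
        exact_mod_cast card_le_card (filter_subset_filter _ sdiff_subset)) (h2 q (mem_sdiff.1 hq).1))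
    have h4 : ∑ q ∈ T, 1 / (q : ℝ) ≤ J / p := by
      calc _ ≤ ∑ _q ∈ T, 1 / (p : ℝ) := sum_le_sum fun q hq =>
            one_div_le_one_div_of_le hp0 (by exact_mod_cast (mem_filter.1 hq).2.1)
        _ = T.card / p := by simp [div_eq_mul_inv]
        _ ≤ _ := div_le_div_of_nonneg_right (h2 p hpS) hp0.le
    rw [← sum_sdiff hsub]
    calc _ ≤ J * (1 + η) / (η * ((1 + η) * p)) + J / p := add_le_add h3 h4
      _ = J * (1 + η) / (η * p) := by field_simp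
      _ ≤ _ := div_le_div_of_nonneg_left (by positivity) (by positivity)
          (mul_le_mul_of_nonneg_left (h1 p hpS) hη.le)

lemma fs_sub_le {f : ℕ → ℝ} (hf : ∀ t, |f t| ≤ 1) {a b : ℕ} (h : a ≤ b) {ζ : ℂ} (hζ : ‖ζ‖ = 1) :
    ‖fs f b ζ - fs f a ζ‖ ≤ b - a := by
  rw [fs_def, fs_def, ← sum_Ico_eq_sub _ h]
  refine (norm_sum_le _ _).trans ?_
  calc _ ≤ ∑ _t ∈ Ico a b, (1 : ℝ) := sum_le_sum fun t _ => by
        rw [norm_mul, norm_pow, hζ, norm_real]; simpa using hf t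
    _ = _ := by simp [Nat.cast_sub h]

lemma pigeon {δ : ℝ} (hδ : 0 < δ) (hδ1 : δ ≤ 1) : ∃ Λ : ℝ, 0 ≤ Λ ∧ ∀ (f : ℕ → ℝ),
    (∀ t, |f t| ≤ 1) → ∀ L B : ℕ, 0 < L → ∀ S : Finset ℕ, (∀ p ∈ S, 0 < p ∧ p ≤ B ∧ p ^ 8 ∣ L) →
    Λ < ∑ p ∈ S, 1 / (p : ℝ) → ∀ ζ : ℂ, ‖ζ‖ = 1 →
    (∀ p ∈ S, δ * (L / p ^ 8 : ℕ) ≤ ‖fs f (L / p ^ 8) (ζ ^ p ^ 8)‖) →
    ∃ m, 1 ≤ m ∧ m ≤ B ^ 8 ∧ ‖ζ ^ m - 1‖ ≤ 14 * (B : ℝ) ^ 8 / L := by
  set R : ℕ := ⌈28 / δ⌉₊ + 1 with hR
  have hR1 : 28 / δ ≤ R := by rw [hR]; push_cast; linarith [Nat.le_ceil (28 / δ)]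
  have hR0 : (1 : ℝ) ≤ R := by rw [hR]; push_cast; linarith [Nat.cast_nonneg (α := ℝ) ⌈28 / δ⌉₊]
  set η := δ / 32 with hη
  set J : ℝ := 4 * R / (δ / 2) ^ 2 with hJ
  have hη0 : 0 < η := by positivity
  refine ⟨J * (1 + η) / (η * 1), by positivity, fun f hf L B hL S hS hΛ ζ hζ h => ?_⟩
  have hL' : (0 : ℝ) < L := by exact_mod_cast hL
  have h1 : ∃ p ∈ S, J < ((S.filter fun q : ℕ => p ≤ q ∧ (q : ℝ) ≤ (1 + η) * p).card : ℝ) := by
    by_contra hc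
    push Not at hc
    have := sparse_mass hη0 (by positivity) S 1 one_pos
      (fun p hp => by exact_mod_cast (hS p hp).1) hc
    linarith
  obtain ⟨p, hp, hcard⟩ := h1
  set T := S.filter fun q : ℕ => p ≤ q ∧ (q : ℝ) ≤ (1 + η) * p with hT
  have hp0 : (0 : ℝ) < p := by exact_mod_cast (hS p hp).1
  have hcast : ∀ q ∈ S, ((L / q ^ 8 : ℕ) : ℝ) = L / (q : ℝ) ^ 8 := by
    intro q hq
    have : (q : ℝ) ≠ 0 := by exact_mod_cast (hS q hq).1.ne'
    rw [Nat.cast_div (hS q hq).2.2 (by push_cast; positivity)]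
    push_cast; rfl
  set L0 := L / p ^ 8 with hL0
  have hL0c : (L0 : ℝ) = L / (p : ℝ) ^ 8 := hcast p hp
  have hL0p : (0 : ℝ) < L0 := by rw [hL0c]; positivity
  obtain ⟨K, hK, hK1, hK2⟩ := spec_cover hf (L := L0) (by exact_mod_cast hL0p) (δ := δ / 2)
    (R := R) (by positivity)
    (by
      refine le_trans (le_of_eq ?_) hR1
      field_simp; norm_num) (by omega)
  have hbern : (1 + η) ^ 8 * (1 - δ / 4) ≤ 1 := by
    have h1 : 1 + (8 : ℕ) * (-η) ≤ (1 + -η) ^ 8 := one_add_mul_le_pow (by linarith) 8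
    have h2 : (1 + η) ^ 8 * (1 + -η) ^ 8 ≤ 1 := by
      rw [← mul_pow]
      exact pow_le_one₀ (by nlinarith) (by nlinarith)
    have h3 : (1 - δ / 4) = 1 + (8 : ℕ) * (-η) := by rw [hη]; push_cast; ring
    rw [h3]
    exact le_trans (mul_le_mul_of_nonneg_left h1 (by positivity)) h2
  have h2 : ∀ q ∈ T, ∃ ξ ∈ K, ‖ζ ^ q ^ 8 - ξ‖ ≤ 7 / (R * L0) := by
    intro q hq
    obtain ⟨hqS, hpq, hq2⟩ := mem_filter.1 hq
    have hq0 : (0 : ℝ) < q := by exact_mod_cast (hS q hqS).1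
    have hζq : ‖ζ ^ q ^ 8‖ = 1 := by rw [norm_pow, hζ, one_pow]
    refine hK2 _ hζq ?_
    have h3 : L / q ^ 8 ≤ L0 :=
      Nat.div_le_div_left (Nat.pow_le_pow_left hpq 8) (pow_pos (hS p hp).1 8)
    have h4 := fs_sub_le hf h3 hζq
    have h5 := h q hqS
    have h6 : (1 - δ / 4) * L0 ≤ ((L / q ^ 8 : ℕ) : ℝ) := by
      rw [hcast q hqS, hL0c, ← mul_div_assoc, div_le_div_iff₀ (by positivity) (by positivity)]
      have h7 : (q : ℝ) ^ 8 ≤ ((1 + η) * p) ^ 8 := pow_le_pow_left₀ hq0.le hq2 8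
      have h8 : (1 - δ / 4) * (q : ℝ) ^ 8 ≤ (p : ℝ) ^ 8 := by
        calc _ ≤ (1 - δ / 4) * ((1 + η) * p) ^ 8 := mul_le_mul_of_nonneg_left h7 (by linarith)
          _ = (1 + η) ^ 8 * (1 - δ / 4) * (p : ℝ) ^ 8 := by ring
          _ ≤ 1 * (p : ℝ) ^ 8 := mul_le_mul_of_nonneg_right hbern (by positivity)
          _ = _ := one_mul _
      nlinarith
    have h7 := norm_sub_norm_le (fs f (L / q ^ 8) (ζ ^ q ^ 8)) (fs f L0 (ζ ^ q ^ 8))
    rw [norm_sub_rev] at h7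
    nlinarith [mul_le_mul_of_nonneg_left h6 hδ.le, mul_nonneg hδ.le hL0p.le,
      mul_le_mul_of_nonneg_right hδ1 (mul_nonneg hδ.le hL0p.le)]
  choose! ξ hξ hξ' using h2
  obtain ⟨a, ha, b, hb, hab, hξab⟩ := exists_ne_map_eq_of_card_lt_of_maps_to (s := T) (t := K)
    (by exact_mod_cast hK.trans_lt hcard) hξ
  have key : ∀ a ∈ T, ∀ b ∈ T, a < b → ξ a = ξ b →
      ∃ m, 1 ≤ m ∧ m ≤ B ^ 8 ∧ ‖ζ ^ m - 1‖ ≤ 14 * (B : ℝ) ^ 8 / L := by
    intro a ha b hb hab hξab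
    have h3 : a ^ 8 < b ^ 8 := Nat.pow_lt_pow_left hab (by norm_num)
    have hbB := (hS b (mem_filter.1 hb).1).2.1
    refine ⟨b ^ 8 - a ^ 8, by omega, (Nat.sub_le _ _).trans (Nat.pow_le_pow_left hbB 8), ?_⟩
    have h4 : ζ ^ b ^ 8 - ζ ^ a ^ 8 = ζ ^ a ^ 8 * (ζ ^ (b ^ 8 - a ^ 8) - 1) := by
      rw [mul_sub, ← pow_add, Nat.add_sub_cancel' h3.le, mul_one]
    have h5 : ‖ζ ^ (b ^ 8 - a ^ 8) - 1‖ = ‖ζ ^ b ^ 8 - ζ ^ a ^ 8‖ := by
      rw [h4, norm_mul, norm_pow, hζ, one_pow, one_mul]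
    have h6 := norm_sub_le_norm_sub_add_norm_sub (ζ ^ b ^ 8) (ξ b) (ζ ^ a ^ 8)
    have h7 := hξ' a ha
    have h8 := hξ' b hb
    rw [hξab, norm_sub_rev] at h7
    have h9 : 7 / (R * L0 : ℝ) ≤ 7 * (B : ℝ) ^ 8 / L := by
      have h10 : (p : ℝ) ^ 8 ≤ (B : ℝ) ^ 8 :=
        pow_le_pow_left₀ hp0.le (by exact_mod_cast (hS p hp).2.1) 8
      calc 7 / (R * L0 : ℝ) ≤ 7 / (1 * L0) := by gcongr
        _ = 7 * (p : ℝ) ^ 8 / L := by rw [hL0c]; field_simp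
        _ ≤ _ := by gcongr
    have h10 : 14 * (B : ℝ) ^ 8 / L = 2 * (7 * (B : ℝ) ^ 8 / L) := by ring
    rw [h5, h10]
    linarith
  rcases lt_or_gt_of_ne hab with h3 | h3
  · exact key a ha b hb h3 hξab
  · exact key b hb a ha h3 hξab.symm

lemma chain {δ : ℝ} (hδ : 0 < δ) (F : ℕ → ℝ) {σ p L : ℕ} (hp : 0 < p) (hL : p ^ 8 ∣ L)
    (hb : ∀ j < 8, ¬ badp δ (fun t => F (σ * p ^ j * t)) (L / p ^ j) p) {ζ : ℂ} (hζ : ‖ζ‖ = 1)
    (h0 : δ / 2 * L ≤ ‖fs (fun t => F (σ * t)) L ζ‖) (j : ℕ) (hj : j ≤ 8) :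
    (δ / 2 - j * (δ / 64)) * (L / p ^ j : ℕ)
      ≤ ‖fs (fun t => F (σ * p ^ j * t)) (L / p ^ j) (ζ ^ p ^ j)‖ := by
  induction j with
  | zero => simpa using h0
  | succ j ih =>
    have h1 := ih (by omega)
    have h2 : L / p ^ j = p * (L / p ^ (j + 1)) := by
      rw [pow_succ, ← Nat.div_div_eq_div_mul, Nat.mul_div_cancel']
      refine Nat.dvd_div_of_mul_dvd ?_
      rw [← pow_succ]
      exact (pow_dvd_pow p hj).trans hL
    have hζj : ‖ζ ^ p ^ j‖ = 1 := by rw [norm_pow, hζ, one_pow]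
    have hj' : (j : ℝ) ≤ 7 := by exact_mod_cast (by omega : j ≤ 7)
    have h3 : ‖fs (fun t => F (σ * p ^ j * t) * dv p t) (L / p ^ j) (ζ ^ p ^ j)‖
        ≤ δ / 64 * (L / p ^ j : ℕ) := by
      by_contra hc
      refine hb j (by omega) ⟨_, hζj, le_trans ?_ h1, not_le.1 hc⟩
      refine mul_le_mul_of_nonneg_right (by nlinarith) (Nat.cast_nonneg _)
    rw [h2] at h1 h3
    rw [fs_dv hp] at h3
    have h4 : (fun u => F (σ * p ^ j * (p * u))) = fun u => F (σ * p ^ (j + 1) * u) := by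
      ext u; congr 1; ring
    rw [h4, ← pow_mul, ← pow_succ] at h3
    have h5 := norm_sub_norm_le (fs (fun t => F (σ * p ^ j * t)) (p * (L / p ^ (j + 1))) (ζ ^ p ^ j))
      (p * fs (fun u => F (σ * p ^ (j + 1) * u)) (L / p ^ (j + 1)) (ζ ^ p ^ (j + 1)))
    rw [norm_sub_rev, norm_mul, norm_natCast] at h5
    have hp' : (0 : ℝ) < p := by exact_mod_cast hp
    refine le_of_mul_le_mul_left ?_ hp'
    push_cast at h1 h3 ⊢
    nlinarith

/-- The average of dilates. -/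
noncomputable def gAv (F : ℕ → ℝ) (S : Finset ℕ) (D s t : ℕ) : ℝ :=
  (∑ p ∈ S, F (s * (D / p) ^ 8 * t) / p) / ∑ p ∈ S, 1 / (p : ℝ)

def Bad (δ : ℝ) (F : ℕ → ℝ) (S : Finset ℕ) (D : ℕ) (x : ℕ × ℕ) : Prop :=
  δ / 4 * ∑ p ∈ S, 1 / (p : ℝ) < ∑ p ∈ S,
    (if ∃ j < 8, badp δ (fun t => F (x.1 * (D / p) ^ 8 * p ^ j * t)) (x.2 / p ^ j) p then 1 else 0)
      / (p : ℝ)

lemma norm_fs_le {f : ℕ → ℝ} (hf : ∀ t, |f t| ≤ 1) (L : ℕ) {ζ : ℂ} (hζ : ‖ζ‖ = 1) :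
    ‖fs f L ζ‖ ≤ L := by
  simpa [fs_def] using fs_sub_le hf (Nat.zero_le L) hζ

lemma MM_div {a b : ℕ} (ha : 0 < a) (hb : 0 < b) {f : ℕ × ℕ → ℝ} (hf : Bdd f) :
    MM.m (fun x => f (a * x.1, x.2 / b)) = MM.m f := by
  have h1 := MM_pres one_pos hb (fun x => f (a * x.1, x.2 / b)) (hf.comp _)
  have h2 := MM_pres ha one_pos f hf
  simp only [one_mul, Nat.mul_div_cancel_left _ hb] at h1 h2
  rw [← h1, h2]

lemma bdd_ind {α : Type} (P : α → Prop) : Bdd (fun x => if P x then (1 : ℝ) else 0) :=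
  ⟨1, fun x => by dsimp only; split_ifs <;> simp⟩

theorem major {δ : ℝ} (hδ : 0 < δ) (hδ1 : δ ≤ 1) : ∃ Λ : ℝ, 0 < Λ ∧ ∀ (F : ℕ → ℝ),
    (∀ t, |F t| ≤ 1) → ∀ (S : Finset ℕ) (D : ℕ), 0 < D → (∀ p ∈ S, p.Prime ∧ p ∣ D) →
    Λ ≤ ∑ p ∈ S, 1 / (p : ℝ) →
    MM.m (fun x => if Bad δ F S D x then 1 else 0) ≤ δ ∧
    ∀ s L, 0 < L → D ^ 8 ∣ L → ¬ Bad δ F S D (s, L) → ∀ ζ : ℂ, ‖ζ‖ = 1 →
      δ * L ≤ ‖fs (gAv F S D s) L ζ‖ →
      ∃ m, 1 ≤ m ∧ m ≤ D ^ 8 ∧ ‖ζ ^ m - 1‖ ≤ 14 * (D : ℝ) ^ 8 / L := by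
  obtain ⟨C, hC0, hC⟩ := tk_spec hδ
  obtain ⟨Λ1, hΛ0, hΛ1⟩ := pigeon (δ := δ / 4) (by positivity) (by linarith)
  refine ⟨32 * C / δ ^ 2 + 4 * Λ1 / δ + 1, by positivity, fun F hF S D hD hS hΛ => ?_⟩
  set Λ := ∑ p ∈ S, 1 / (p : ℝ) with hΛdef
  have hA : 0 ≤ 32 * C / δ ^ 2 := by positivity
  have hB : 0 ≤ 4 * Λ1 / δ := by positivity
  have hΛp : 0 < Λ := by linarith
  constructor
  · set b : ℕ → ℕ × ℕ → ℝ := fun p x => if badp δ (fun t => F (x.1 * t)) x.2 p then 1 else 0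
      with hb
    have hbb : ∀ p, Bdd (b p) := fun p => bdd_ind _
    have h1 : MM.m (fun x => if Bad δ F S D x then 1 else 0) ≤ MM.m (fun x =>
        4 / (δ * Λ) * ∑ j ∈ range 8, ∑ p ∈ S, b p ((D / p) ^ 8 * p ^ j * x.1, x.2 / p ^ j) / p) := by
      refine MM.mono (bdd_ind _) ((Bdd.const _).mul (Bdd.sum _ fun j => Bdd.sum _ fun p =>
        ((hbb p).comp _).div_const _)) fun x => ?_
      have hnn : ∀ p y, 0 ≤ b p y := fun p y => by rw [hb]; dsimp only; split_ifs <;> simp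
      split_ifs with hx
      · have h2 : δ / 4 * Λ
            ≤ ∑ j ∈ range 8, ∑ p ∈ S, b p ((D / p) ^ 8 * p ^ j * x.1, x.2 / p ^ j) / p := by
          refine hx.le.trans ?_
          rw [sum_comm]
          refine sum_le_sum fun p _ => ?_
          rw [← sum_div]
          refine div_le_div_of_nonneg_right ?_ (Nat.cast_nonneg _)
          split_ifs with h3
          · obtain ⟨j, hj, h3⟩ := h3
            refine le_trans ?_ (single_le_sum (f := fun j =>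
              b p ((D / p) ^ 8 * p ^ j * x.1, x.2 / p ^ j)) (fun _ _ => hnn _ _) (mem_range.2 hj))
            rw [hb]
            dsimp only
            rw [if_pos]
            convert h3 using 4
            ring
          · exact sum_nonneg fun _ _ => hnn _ _
        calc (1 : ℝ) = 4 / (δ * Λ) * (δ / 4 * Λ) := by field_simp
          _ ≤ _ := mul_le_mul_of_nonneg_left h2 (by positivity)
      · exact mul_nonneg (by positivity) (sum_nonneg fun _ _ => sum_nonneg fun _ _ =>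
          div_nonneg (hnn _ _) (Nat.cast_nonneg _))
    refine h1.trans ?_
    rw [MM.const_mul, MM.sum]
    have h2 : ∀ j ∈ range 8,
        MM.m (fun x => ∑ p ∈ S, b p ((D / p) ^ 8 * p ^ j * x.1, x.2 / p ^ j) / p) ≤ C := by
      intro j _
      have h3 : MM.m (fun x => ∑ p ∈ S, b p ((D / p) ^ 8 * p ^ j * x.1, x.2 / p ^ j) / p)
          = MM.m (fun x => ∑ p ∈ S, b p x / p) := by
        rw [MM.sum, MM.sum]
        refine sum_congr rfl fun p hp => ?_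
        have hp0 := (hS p hp).1.pos
        have h4 : 0 < D / p := Nat.div_pos (Nat.le_of_dvd hD (hS p hp).2) hp0
        rw [MM.div_const, MM.div_const, MM_div (by positivity) (by positivity) (hbb p)]
      rw [h3, ← MM.const C]
      refine MM_mono (L := D * D) (by positivity) (Bdd.sum _ fun p => (hbb p).div_const _)
        (Bdd.const _) fun s N _ hN hDN => ?_
      exact hC (fun t => F (s * t)) (fun t => hF _) N hN S (fun p hp => (hS p hp).1)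
        fun p hp q hq => (mul_dvd_mul (hS p hp).2 (hS q hq).2).trans hDN
    have h3 := sum_le_sum h2
    simp only [sum_const, card_range, nsmul_eq_mul] at h3
    refine (mul_le_mul_of_nonneg_left h3 (by positivity)).trans ?_
    rw [div_mul_eq_mul_div, div_le_iff₀ (by positivity)]
    have h4 : 32 * C / δ ^ 2 ≤ Λ := by linarith
    rw [div_le_iff₀ (by positivity)] at h4
    push_cast
    nlinarith
  · intro s L hL hDL hbad ζ hζ hlarge
    have hL' : (0 : ℝ) < L := by exact_mod_cast hL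
    set φ : ℕ → ℕ → ℝ := fun p t => F (s * (D / p) ^ 8 * t) with hφ
    set T := S.filter fun p => δ / 2 * L ≤ ‖fs (φ p) L ζ‖ ∧
      ¬ ∃ j < 8, badp δ (fun t => F (s * (D / p) ^ 8 * p ^ j * t)) (L / p ^ j) p with hT
    have h1 : fs (gAv F S D s) L ζ = (∑ p ∈ S, fs (φ p) L ζ / p) / Λ := by
      simp only [fs_def, gAv, ← hΛdef, hφ, sum_div]
      rw [sum_comm]
      refine sum_congr rfl fun t _ => ?_
      push_cast
      rw [sum_mul]
      exact sum_congr rfl fun p _ => by ring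
    have h2 : δ * L * Λ ≤ ∑ p ∈ S, ‖fs (φ p) L ζ‖ / p := by
      rw [h1, norm_div, norm_real, Real.norm_of_nonneg hΛp.le, le_div_iff₀ hΛp] at hlarge
      refine hlarge.trans ((norm_sum_le _ _).trans (le_of_eq ?_))
      exact sum_congr rfl fun p _ => by rw [norm_div, norm_natCast]
    have h3 : ∑ p ∈ S, ‖fs (φ p) L ζ‖ / p ≤ ∑ p ∈ S, (δ / 2 * L * (1 / p) + L *
        ((if ∃ j < 8, badp δ (fun t => F (s * (D / p) ^ 8 * p ^ j * t)) (L / p ^ j) p then 1 else 0)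
          / (p : ℝ)) + L * (if p ∈ T then 1 / (p : ℝ) else 0)) := by
      refine sum_le_sum fun p hp => ?_
      have hp0 : (0 : ℝ) < p := by exact_mod_cast (hS p hp).1.pos
      have h4 : ‖fs (φ p) L ζ‖ ≤ L := norm_fs_le (fun t => hF _) L hζ
      have h5 : ‖fs (φ p) L ζ‖ / p ≤ L * (1 / p) := by
        rw [mul_one_div]; exact div_le_div_of_nonneg_right h4 hp0.le
      have h6 : 0 ≤ δ / 2 * L * (1 / p) := by positivity
      have h7 : 0 ≤ (L : ℝ) * (1 / p) := by positivity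
      split_ifs with h8 h9 h9
      · linarith
      · linarith
      · simp only [zero_div]; linarith
      · have h10 : ‖fs (φ p) L ζ‖ < δ / 2 * L := by
          by_contra hc
          exact h9 (mem_filter.2 ⟨hp, not_lt.1 hc, h8⟩)
        simp only [zero_div, mul_zero, add_zero, mul_one_div]
        exact div_le_div_of_nonneg_right h10.le hp0.le
    rw [sum_add_distrib, sum_add_distrib, ← mul_sum, ← mul_sum, ← mul_sum, sum_ite_mem,
      inter_eq_right.2 (filter_subset _ _), ← hΛdef] at h3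
    have h4 := not_lt.1 hbad
    rw [← hΛdef] at h4
    dsimp only at h4
    have h5 : δ / 4 * Λ ≤ ∑ p ∈ T, 1 / (p : ℝ) := by
      refine le_of_mul_le_mul_left ?_ hL'
      nlinarith [mul_le_mul_of_nonneg_left h4 hL'.le]
    have h6 : Λ1 < δ / 4 * Λ := by
      have h7 : 4 * Λ1 / δ < Λ := by linarith
      rw [div_lt_iff₀ hδ] at h7
      linarith
    refine hΛ1 (fun t => F (s * D ^ 8 * t)) (fun t => hF _) L D hL T (fun p hp => ?_)
      (h6.trans_le h5) ζ hζ fun p hp => ?_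
    · have hp' := hS p (mem_filter.1 hp).1
      exact ⟨hp'.1.pos, Nat.le_of_dvd hD hp'.2, (pow_dvd_pow_of_dvd hp'.2 8).trans hDL⟩
    · obtain ⟨hpS, hp1, hp2⟩ := mem_filter.1 hp
      have hp' := hS p hpS
      have h7 := chain hδ F (σ := s * (D / p) ^ 8) hp'.1.pos
        ((pow_dvd_pow_of_dvd hp'.2 8).trans hDL) (fun j hj hb => hp2 ⟨j, hj, hb⟩) hζ hp1 8 le_rfl
      have h8 : s * (D / p) ^ 8 * p ^ 8 = s * D ^ 8 := by
        rw [mul_assoc, ← mul_pow, Nat.div_mul_cancel hp'.2]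
      rw [h8] at h7
      refine le_trans (mul_le_mul_of_nonneg_right ?_ (Nat.cast_nonneg _)) h7
      push_cast
      linarith

end Pool.Agent.Lib.MP_a5a405_co.PR
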