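import Mathlib

/-!
Means: positive normalised linear functionals on bounded real functions, and a mean on the natural
numbers that is invariant under all dilations.
-/

open Finset Filter Topology

namespace Pool.Agent.Lib.MP_a5a405_co.PR

@[fun_prop]
def Bdd {α : Type} (f : α → ℝ) : Prop := ∃ C : ℝ, ∀ x, |f x| ≤ C

section bdd
variable {α β : Type}

@[fun_prop]
lemma Bdd.const (c : ℝ) : Bdd (fun _ : α => c) := ⟨|c|, fun _ => le_rfl⟩

@[fun_prop]
lemma Bdd.add {f g : α → ℝ} (hf : Bdd f) (hg : Bdd g) : Bdd (fun x => f x + g x) := by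
  obtain ⟨C, hC⟩ := hf
  obtain ⟨D, hD⟩ := hg
  exact ⟨C + D, fun x => (abs_add_le _ _).trans (add_le_add (hC x) (hD x))⟩

@[fun_prop]
lemma Bdd.neg {f : α → ℝ} (hf : Bdd f) : Bdd (fun x => - f x) := by
  obtain ⟨C, hC⟩ := hf
  exact ⟨C, fun x => by simpa using hC x⟩

@[fun_prop]
lemma Bdd.sub {f g : α → ℝ} (hf : Bdd f) (hg : Bdd g) : Bdd (fun x => f x - g x) := by
  simpa [sub_eq_add_neg] using hf.add hg.neg

@[fun_prop]
lemma Bdd.mul {f g : α → ℝ} (hf : Bdd f) (hg : Bdd g) : Bdd (fun x => f x * g x) := by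
  obtain ⟨C, hC⟩ := hf
  obtain ⟨D, hD⟩ := hg
  refine ⟨C * D, fun x => ?_⟩
  rw [abs_mul]
  exact mul_le_mul (hC x) (hD x) (abs_nonneg _) ((abs_nonneg _).trans (hC x))

@[fun_prop]
lemma Bdd.div_const {f : α → ℝ} (hf : Bdd f) (c : ℝ) : Bdd (fun x => f x / c) := by
  simpa [div_eq_mul_inv] using hf.mul (Bdd.const c⁻¹)

@[fun_prop]
lemma Bdd.pow {f : α → ℝ} (hf : Bdd f) (n : ℕ) : Bdd (fun x => f x ^ n) := by
  induction n with
  | zero => simpa using Bdd.const (α := α) 1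
  | succ n ih => simpa [pow_succ] using ih.mul hf

@[fun_prop]
lemma Bdd.abs {f : α → ℝ} (hf : Bdd f) : Bdd (fun x => |f x|) := by
  obtain ⟨C, hC⟩ := hf
  exact ⟨C, fun x => by simpa using hC x⟩

@[fun_prop]
lemma Bdd.sum {ι : Type} (s : Finset ι) {f : ι → α → ℝ} (hf : ∀ i, Bdd (f i)) :
    Bdd (fun x => ∑ i ∈ s, f i x) := by
  classical
  induction s using Finset.induction_on with
  | empty => simpa using Bdd.const (α := α) 0
  | insert a s ha ih =>
    simp only [sum_insert ha]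
    exact (hf a).add ih

lemma Bdd.comp {f : β → ℝ} (hf : Bdd f) (g : α → β) : Bdd (fun x => f (g x)) := by
  obtain ⟨C, hC⟩ := hf
  exact ⟨C, fun x => hC _⟩

lemma Bdd.of_mem {f : α → ℝ} {a b : ℝ} (h : ∀ x, a ≤ f x ∧ f x ≤ b) : Bdd f :=
  ⟨max |a| |b|, fun x => abs_le_max_abs_abs (h x).1 (h x).2⟩

lemma Bdd.of_abs_le {f : α → ℝ} {C : ℝ} (h : ∀ x, |f x| ≤ C) : Bdd f := ⟨C, h⟩

end bdd

/-- A positive normalised linear functional. -/
structure Mean (α : Type) where
  m : (α → ℝ) →ₗ[ℝ] ℝ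
  nonneg : ∀ f, Bdd f → (∀ x, 0 ≤ f x) → 0 ≤ m f
  one : m (fun _ => 1) = 1

namespace Mean
variable {α β : Type} (E : Mean α)

lemma add (f g : α → ℝ) : E.m (fun x => f x + g x) = E.m f + E.m g := E.m.map_add f g

lemma sub (f g : α → ℝ) : E.m (fun x => f x - g x) = E.m f - E.m g := E.m.map_sub f g

lemma const_mul (c : ℝ) (f : α → ℝ) : E.m (fun x => c * f x) = c * E.m f := E.m.map_smul c f

lemma mul_const (c : ℝ) (f : α → ℝ) : E.m (fun x => f x * c) = E.m f * c := by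
  simp only [mul_comm _ c]; exact E.const_mul c f

lemma div_const (c : ℝ) (f : α → ℝ) : E.m (fun x => f x / c) = E.m f / c := by
  simp only [div_eq_mul_inv]; exact E.mul_const _ f

lemma const (c : ℝ) : E.m (fun _ => c) = c := by
  have := E.const_mul c (fun _ => 1)
  simpa [E.one] using this

lemma sum {ι : Type} (s : Finset ι) (f : ι → α → ℝ) :
    E.m (fun x => ∑ i ∈ s, f i x) = ∑ i ∈ s, E.m (f i) := by
  rw [← map_sum]
  congr 1
  ext x
  simp

lemma mono {f g : α → ℝ} (hf : Bdd f) (hg : Bdd g) (h : ∀ x, f x ≤ g x) : E.m f ≤ E.m g := by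
  have := E.nonneg (fun x => g x - f x) (hg.sub hf) (fun x => sub_nonneg.2 (h x))
  rw [E.sub] at this
  linarith

lemma le_const {f : α → ℝ} (hf : Bdd f) {c : ℝ} (h : ∀ x, f x ≤ c) : E.m f ≤ c := by
  simpa [E.const] using E.mono hf (Bdd.const c) h

lemma const_le {f : α → ℝ} (hf : Bdd f) {c : ℝ} (h : ∀ x, c ≤ f x) : c ≤ E.m f := by
  simpa [E.const] using E.mono (Bdd.const c) hf h

lemma abs_le_const {f : α → ℝ} {c : ℝ} (h : ∀ x, |f x| ≤ c) : |E.m f| ≤ c :=
  abs_le.2 ⟨E.const_le ⟨c, h⟩ fun x => (abs_le.1 (h x)).1, E.le_const ⟨c, h⟩ fun x => (abs_le.1 (h x)).2⟩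

lemma abs_le {f : α → ℝ} (hf : Bdd f) : |E.m f| ≤ E.m (fun x => |f x|) := by
  rw [_root_.abs_le]
  constructor
  · have := E.mono (f := fun x => -1 * |f x|) (by fun_prop) hf (fun x => by simpa using neg_abs_le (f x))
    rw [E.const_mul] at this
    linarith
  · exact E.mono hf hf.abs fun x => le_abs_self _

/-- Cauchy-Schwarz. -/
lemma cs {f g : α → ℝ} (hf : Bdd f) (hg : Bdd g) :
    (E.m (fun x => f x * g x)) ^ 2 ≤ E.m (fun x => f x ^ 2) * E.m (fun x => g x ^ 2) := by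
  have h : ∀ t : ℝ, 0 ≤ E.m (fun x => f x ^ 2) * (t * t) + 2 * E.m (fun x => f x * g x) * t
      + E.m (fun x => g x ^ 2) := by
    intro t
    have h1 := E.nonneg (fun x => (t * f x + g x) ^ 2) (by fun_prop) (fun x => sq_nonneg _)
    have h2 : (fun x => (t * f x + g x) ^ 2)
        = fun x => (t * t) * f x ^ 2 + ((2 * t) * (f x * g x) + g x ^ 2) := by
      ext x; ring
    rw [h2, E.add, E.add, E.const_mul, E.const_mul] at h1
    linarith
  have := discrim_le_zero h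
  rw [discrim] at this
  nlinarith

/-- The seminorm attached to a mean. -/
noncomputable def nrm (f : α → ℝ) : ℝ := Real.sqrt (E.m (fun x => f x ^ 2))

lemma nrm_nonneg (f : α → ℝ) : 0 ≤ E.nrm f := Real.sqrt_nonneg _

lemma sq_nonneg' {f : α → ℝ} (hf : Bdd f) : 0 ≤ E.m (fun x => f x ^ 2) :=
  E.nonneg _ (hf.pow 2) fun _ => sq_nonneg _

lemma nrm_sq {f : α → ℝ} (hf : Bdd f) : E.nrm f ^ 2 = E.m (fun x => f x ^ 2) :=
  Real.sq_sqrt (E.sq_nonneg' hf)

lemma abs_mul_le {f g : α → ℝ} (hf : Bdd f) (hg : Bdd g) :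
    |E.m (fun x => f x * g x)| ≤ E.nrm f * E.nrm g := by
  refine abs_le_of_sq_le_sq ?_ (mul_nonneg (E.nrm_nonneg _) (E.nrm_nonneg _))
  rw [mul_pow, E.nrm_sq hf, E.nrm_sq hg]
  exact E.cs hf hg

lemma nrm_le_of_abs_le {f : α → ℝ} {c : ℝ} (hc : 0 ≤ c) (h : ∀ x, |f x| ≤ c) : E.nrm f ≤ c := by
  rw [nrm, Real.sqrt_le_left hc]
  exact E.le_const (Bdd.pow ⟨c, h⟩ 2) fun x => sq_le_sq' (_root_.abs_le.1 (h x)).1 (_root_.abs_le.1 (h x)).2

lemma abs_le_nrm {f : α → ℝ} (hf : Bdd f) : E.m (fun x => |f x|) ≤ E.nrm f := by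
  have h := E.abs_mul_le hf.abs (Bdd.const 1)
  have h1 : E.nrm (fun _ => (1 : ℝ)) ≤ 1 := E.nrm_le_of_abs_le zero_le_one (by simp)
  have h2 : E.nrm (fun x => |f x|) = E.nrm f := by simp [nrm]
  simp only [mul_one, h2] at h
  nlinarith [le_abs_self (E.m fun x => |f x|), E.nrm_nonneg f]

lemma nrm_add_le {f g : α → ℝ} (hf : Bdd f) (hg : Bdd g) :
    E.nrm (fun x => f x + g x) ≤ E.nrm f + E.nrm g := by
  refine abs_le_of_sq_le_sq' ?_ (add_nonneg (E.nrm_nonneg _) (E.nrm_nonneg _)) |>.2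
  rw [E.nrm_sq (hf.add hg), add_sq, E.nrm_sq hf, E.nrm_sq hg]
  have h2 : (fun x => (f x + g x) ^ 2) = fun x => f x ^ 2 + (2 * (f x * g x) + g x ^ 2) := by
    ext x; ring
  rw [h2, E.add, E.add, E.const_mul]
  nlinarith [le_abs_self (E.m fun x => f x * g x), E.abs_mul_le hf hg]

lemma nrm_sub_le {f g h : α → ℝ} (hf : Bdd f) (hg : Bdd g) (hh : Bdd h) :
    E.nrm (fun x => f x - h x) ≤ E.nrm (fun x => f x - g x) + E.nrm (fun x => g x - h x) := by
  have := E.nrm_add_le (hf.sub hg) (hg.sub hh)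
  simpa using this

lemma nrm_sub_comm (f g : α → ℝ) :
    E.nrm (fun x => f x - g x) = E.nrm (fun x => g x - f x) := by
  simp only [nrm]
  congr 2
  ext x; ring

/-- A map that preserves the mean of bounded functions. -/
def Pres (τ : α → α) : Prop := ∀ f, Bdd f → E.m (fun x => f (τ x)) = E.m f

lemma Pres.nrm {E : Mean α} {τ : α → α} (h : E.Pres τ) {f : α → ℝ} (hf : Bdd f) :
    E.nrm (fun x => f (τ x)) = E.nrm f := by
  simp only [Mean.nrm]
  rw [h (fun x => f x ^ 2) (hf.pow 2)]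

lemma Pres.comp {E : Mean α} {τ σ : α → α} (h : E.Pres τ) (h' : E.Pres σ) :
    E.Pres (fun x => τ (σ x)) := fun f hf => by
  rw [h' (fun x => f (τ x)) (hf.comp τ), h f hf]

/-- Iterated mean: first in the first variable, then in the second. -/
noncomputable def prod (E : Mean α) (E' : Mean β) : Mean (α × β) where
  m :=
    { toFun := fun f => E'.m (fun y => E.m (fun x => f (x, y)))
      map_add' := fun f g => by
        simp only [Pi.add_apply, E.add, E'.add]
      map_smul' := fun c f => by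
        simp only [Pi.smul_apply, smul_eq_mul, E.const_mul, E'.const_mul, RingHom.id_apply] }
  nonneg := fun f hf h0 => by
    obtain ⟨C, hC⟩ := hf
    refine E'.nonneg _ ⟨C, fun y => E.abs_le_const fun x => hC _⟩ fun y => ?_
    exact E.nonneg _ ⟨C, fun x => hC _⟩ fun x => h0 _
  one := by
    change E'.m (fun _ => E.m (fun _ => 1)) = 1
    simp [E.one, E'.one]

lemma prod_m (E : Mean α) (E' : Mean β) (f : α × β → ℝ) :
    (E.prod E').m f = E'.m (fun y => E.m (fun x => f (x, y))) := rfl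

lemma bdd_inner (E : Mean α) {f : α × β → ℝ} (hf : Bdd f) :
    Bdd (fun y => E.m (fun x => f (x, y))) := by
  obtain ⟨C, hC⟩ := hf
  exact ⟨C, fun y => E.abs_le_const fun x => hC _⟩

/-- The average over a nonempty finite set. -/
noncomputable def avg (s : Finset α) (hs : s.Nonempty) : Mean α where
  m :=
    { toFun := fun f => (∑ x ∈ s, f x) / s.card
      map_add' := fun f g => by simp [sum_add_distrib, add_div]
      map_smul' := fun c f => by simp [← mul_sum, mul_div_assoc] }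
  nonneg := fun f _ h0 => div_nonneg (sum_nonneg fun x _ => h0 x) (Nat.cast_nonneg _)
  one := by
    have : (s.card : ℝ) ≠ 0 := by exact_mod_cast hs.card_pos.ne'
    simp [this]

lemma avg_m (s : Finset α) (hs : s.Nonempty) (f : α → ℝ) :
    (avg s hs).m f = (∑ x ∈ s, f x) / s.card := rfl

end Mean

end Pool.Agent.Lib.MP_a5a405_co.PR
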