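import Mathlib

/-!
None of 16, 17, 33 is the eighth power of a rational number.
-/

namespace Pool.Agent.Lib.MP_a5a405_co.PR

lemma not_pow_eight {q : ℚ} {c : ℕ} (h1 : 1 < c) (h2 : c < 256) : q ^ 8 ≠ c := by
  intro h
  have h3 : (q ^ 8).den = 1 := by rw [h]; simp
  rw [Rat.den_pow, pow_eq_one_iff_of_nonneg (Nat.zero_le _) (by norm_num)] at h3
  have h4 : (q ^ 8).num = c := by rw [h]; simp
  rw [Rat.num_pow] at h4
  have h5 : q.num.natAbs ^ 8 = c := by
    rw [← Int.natAbs_pow, h4, Int.natAbs_natCast]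
  rcases Nat.lt_or_ge q.num.natAbs 2 with h6 | h6
  · have := Nat.pow_le_pow_left (Nat.lt_succ_iff.1 h6) 8
    omega
  · have := Nat.pow_le_pow_left h6 8
    omega

end Pool.Agent.Lib.MP_a5a405_co.PR
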