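import Pool.Agent.Lib.MP_a5a405_co.Major

/-!
Simultaneous multiplicative recurrence, selection of a multiplier with many primes, and nearly
invariant averages of dilates.
-/

open Finset Filter Topology
open scoped Classical

namespace Pool.Agent.Lib.MP_a5a405_co.PR

lemma exists_tensor {Ω ι : Type} (E : Mean Ω) (w : ι → ℕ → Ω → ℝ) (hw : ∀ i y, Bdd (w i y))
    (I : Finset ι) : ∃ (Ω' : Type) (E' : Mean Ω') (X : ℕ → Ω' → ℝ), (∀ y, Bdd (X y)) ∧
      (∀ y y', E'.m (fun x => X y x * X y' x) = ∏ i ∈ I, E.m (fun x => w i y x * w i y' x)) ∧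
      ∀ y, E'.m (X y) = ∏ i ∈ I, E.m (w i y) := by
  induction I using Finset.induction_on with
  | empty => exact ⟨Ω, E, fun _ _ => 1, fun _ => Bdd.const _, by simp [E.one], by simp [E.one]⟩
  | insert i I hi ih =>
    obtain ⟨Ω', E', X, hX, h1, h2⟩ := ih
    refine ⟨Ω × Ω', E.prod E', fun y x => w i y x.1 * X y x.2,
      fun y => ((hw i y).comp _).mul ((hX y).comp _), fun y y' => ?_, fun y => ?_⟩
    · rw [prod_insert hi, ← h1, Mean.prod_m, ← E'.const_mul]
      congr 1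
      ext b
      rw [← E.mul_const]
      congr 1
      ext a
      ring
    · rw [prod_insert hi, ← h2, Mean.prod_m, ← E'.const_mul]
      congr 1
      ext b
      rw [← E.mul_const]

lemma exists_chain {R : ℕ → Prop} (hR : EE.m (fun y => if R y then 1 else 0) ≤ 0) (J : ℕ) :
    ∃ y : ℕ → ℕ, (∀ j, 0 < y j) ∧ ∀ j j', j < j' → j' < J → ∃ t, ¬ R t ∧ y j' = t * y j := by
  induction J with
  | zero => exact ⟨fun _ => 1, fun _ => one_pos, fun _ _ _ h => absurd h (Nat.not_lt_zero _)⟩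
  | succ J ih =>
    obtain ⟨y, hy, hc⟩ := ih
    set Y := ∏ j ∈ range J, y j with hY
    have hY0 : 0 < Y := prod_pos fun j _ => hy j
    have hd : ∀ j ∈ range J, y j ∣ Y := fun j hj => dvd_prod_of_mem _ hj
    obtain ⟨t, ht, h1⟩ : ∃ t, 0 < t ∧ ∀ j ∈ range J, ¬ R (Y / y j * t) := by
      by_contra hcon
      push Not at hcon
      have h2 := EE_mono one_pos (Bdd.const 1) (Bdd.sum (range J) fun j =>
        bdd_ind fun t => R (Y / y j * t)) fun t ht _ => by
          obtain ⟨j, hj, h3⟩ := hcon t ht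
          refine le_trans ?_ (single_le_sum (f := fun j => if R (Y / y j * t) then (1 : ℝ) else 0)
            (fun j _ => by split_ifs <;> simp) hj)
          rw [if_pos h3]
      rw [EE.const, EE.sum] at h2
      have h3 : ∀ j ∈ range J, EE.m (fun t => if R (Y / y j * t) then (1 : ℝ) else 0) ≤ 0 := by
        intro j hj
        rw [EE_dil (Nat.div_pos (Nat.le_of_dvd hY0 (hd j hj)) (hy j)) (bdd_ind R)]
        exact hR
      linarith [sum_nonpos h3]
    refine ⟨Function.update y J (t * Y), fun j => ?_, fun j j' hj hj' => ?_⟩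
    · by_cases h : j = J
      · subst h; simp [ht, hY0]
      · simp [h, hy j]
    · rw [Function.update_of_ne (by omega : j ≠ J)]
      by_cases h : j' = J
      · subst h
        refine ⟨_, h1 j (mem_range.2 hj), ?_⟩
        rw [Function.update_self, mul_right_comm, Nat.div_mul_cancel (hd j (mem_range.2 hj)),
          mul_comm]
      · rw [Function.update_of_ne h]
        exact hc j j' hj (by omega)

theorem recurrence {Ω ι : Type} (E : Mean Ω) (w : ι → ℕ → Ω → ℝ)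
    (hw : ∀ i y x, 0 ≤ w i y x ∧ w i y x ≤ 1) (I : Finset ι) (μ : ι → ℝ) (hμ : ∀ i ∈ I, 0 < μ i)
    (hm : ∀ i ∈ I, ∀ y, 0 < y → μ i ≤ E.m (w i y))
    (hinv : ∀ i t c, 0 < c →
      E.m (fun x => w i (t * c) x * w i c x) = E.m (fun x => w i t x * w i 1 x)) (R : ℕ → Prop)
    (hR : ∀ y, (∀ i ∈ I, (∏ i ∈ I, μ i) ^ 2 / 2 ≤ E.m (fun x => w i y x * w i 1 x)) → R y) :
    0 < EE.m (fun y => if R y then 1 else 0) := by
  by_contra hcon
  have hb : ∀ i y, Bdd (w i y) := fun i y => Bdd.of_mem (hw i y)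
  set e := (∏ i ∈ I, μ i) ^ 2 / 2 with he
  have he0 : 0 < e := by have := prod_pos hμ; positivity
  obtain ⟨J, hJ⟩ := exists_nat_gt (1 / e)
  obtain ⟨y, hy, hc⟩ := exists_chain (not_lt.1 hcon) J
  obtain ⟨Ω', E', X, hX, h1, h2⟩ := exists_tensor E w hb I
  have hc01 : ∀ i a b, 0 ≤ E.m (fun x => w i a x * w i b x) ∧ E.m (fun x => w i a x * w i b x) ≤ 1 :=
    fun i a b => ⟨E.const_le ((hb _ _).mul (hb _ _)) fun x => mul_nonneg (hw _ _ _).1 (hw _ _ _).1,
      E.le_const ((hb _ _).mul (hb _ _)) fun x => mul_le_one₀ (hw _ _ _).2 (hw _ _ _).1 (hw _ _ _).2⟩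
  have h3 : ∀ j j', j < j' → j' < J → E'.m (fun x => X (y j') x * X (y j) x) ≤ e := by
    intro j j' hj hj'
    obtain ⟨t, ht, h4⟩ := hc j j' hj hj'
    replace ht := mt (hR t) ht
    push Not at ht
    obtain ⟨i, hi, ht⟩ := ht
    rw [h1, ← mul_prod_erase I _ hi, h4, hinv i t _ (hy j)]
    exact (mul_le_of_le_one_right (hc01 _ _ _).1
      (prod_le_one (fun i _ => (hc01 _ _ _).1) fun i _ => (hc01 _ _ _).2)).trans ht.le
  have h4 : ∀ j ∈ range J, ∑ j' ∈ range J, E'.m (fun x => X (y j) x * X (y j') x) ≤ 1 + J * e := by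
    intro j hj
    have h5 : ∀ j' ∈ range J, E'.m (fun x => X (y j) x * X (y j') x)
        ≤ (if j = j' then 1 else 0) + e := by
      intro j' hj'
      rcases lt_trichotomy j j' with h | h | h
      · rw [if_neg h.ne, zero_add]
        simpa only [mul_comm] using h3 j j' h (mem_range.1 hj')
      · rw [if_pos h, h1]
        linarith [prod_le_one (s := I) (fun i _ => (hc01 i (y j) (y j')).1)
          fun i _ => (hc01 i (y j) (y j')).2]
      · rw [if_neg h.ne', zero_add]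
        exact h3 j' j h (mem_range.1 hj)
    simpa [sum_add_distrib, mem_range.1 hj] using sum_le_sum h5
  have h5 := E'.cs (Bdd.sum (range J) fun j => hX (y j)) (Bdd.const 1)
  simp only [mul_one, E'.one, sq, sum_mul_sum, E'.sum] at h5
  have h6 : ∀ j ∈ range J, ∏ i ∈ I, μ i ≤ E'.m (X (y j)) := fun j _ => by
    rw [h2]
    exact prod_le_prod (fun i hi => (hμ i hi).le) fun i hi => hm i hi _ (hy j)
  have h7 := sum_le_sum h6
  have h8 := sum_le_sum h4
  simp only [sum_const, card_range, nsmul_eq_mul] at h7 h8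
  rw [← sum_mul_sum] at h5
  have h9 : (0 : ℝ) < J := (by positivity : 0 < 1 / e).trans hJ
  have h10 := mul_self_le_mul_self (mul_pos h9 (prod_pos hμ)).le h7
  rw [div_lt_iff₀ he0] at hJ
  have h11 : (J : ℝ) * (∏ i ∈ I, μ i) * (J * ∏ i ∈ I, μ i) = J * (J * (2 * e)) := by
    rw [he]; ring
  nlinarith

theorem pick {A : ℕ → Prop} (hA : 0 < EE.m (fun y => if A y then 1 else 0)) (Λ : ℝ) :
    ∃ z, 0 < z ∧ ∃ S : Finset ℕ, (∀ p ∈ S, p.Prime ∧ A (p * z)) ∧ Λ ≤ ∑ p ∈ S, 1 / (p : ℝ) := by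
  set ρ := EE.m (fun y => if A y then 1 else 0) with hρ
  obtain ⟨u, hu⟩ : ∃ u : Finset ℕ,
      Λ / ρ < ∑ p ∈ u, Set.indicator {p | p.Prime} (fun n : ℕ => (1 : ℝ) / n) p := by
    by_contra hcon
    push Not at hcon
    exact not_summable_one_div_on_primes (summable_of_sum_le
      (fun p => Set.indicator_nonneg (fun _ _ => by positivity) p) hcon)
  set S := u.filter Nat.Prime with hS
  have h1 : Λ < ρ * ∑ p ∈ S, 1 / (p : ℝ) := by
    rw [div_lt_iff₀ hA, mul_comm] at hu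
    rw [hS, sum_filter]
    simpa [Set.indicator_apply] using hu
  by_contra hcon
  push Not at hcon
  have h2 := EE_mono one_pos (Bdd.sum S fun p => (bdd_ind fun z => A (p * z)).div_const (p : ℝ))
    (Bdd.const Λ) fun z hz _ => by
      refine le_trans (le_of_eq ?_) (hcon z hz (S.filter fun p => A (p * z))
        fun p hp => ⟨(mem_filter.1 (mem_filter.1 hp).1).2, (mem_filter.1 hp).2⟩).le
      rw [sum_filter (fun p => A (p * z))]
      exact sum_congr rfl fun p _ => by split_ifs <;> simp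
  rw [EE.const, EE.sum] at h2
  have h3 : ∀ p ∈ S, EE.m (fun z => (if A (p * z) then (1 : ℝ) else 0) / p) = ρ * (1 / p) := by
    intro p hp
    rw [EE.div_const, EE_dil (mem_filter.1 hp).2.pos (bdd_ind A), mul_one_div]
  rw [sum_congr rfl h3, ← mul_sum] at h2
  linarith

/-- The average of finitely many dilates. -/
noncomputable def hAv {ι : Type} [Fintype ι] (d : ι → ℕ) (F : ℕ → ℝ) (x : ℕ) : ℝ :=
  (∑ i, F (d i * x)) / Fintype.card ι

lemma hAv_mem {ι : Type} [Fintype ι] (d : ι → ℕ) {F : ℕ → ℝ} (hF : ∀ n, 0 ≤ F n ∧ F n ≤ 1)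
    (x : ℕ) : 0 ≤ hAv d F x ∧ hAv d F x ≤ 1 := by
  unfold hAv
  refine ⟨div_nonneg (sum_nonneg fun i _ => (hF _).1) (Nat.cast_nonneg _),
    div_le_one_of_le₀ ?_ (Nat.cast_nonneg _)⟩
  simpa using sum_le_sum (s := univ) fun i _ => (hF (d i * x)).2

theorem near_inv {F : ℕ → ℝ} (hF : ∀ n, 0 ≤ F n ∧ F n ≤ 1) (Γ Γ' : ℕ → Prop) {d0 : ℕ}
    (h0 : Γ' d0) (hmul : ∀ e d, Γ e → Γ' d → Γ' (d * e)) {η : ℝ} (hη : 0 < η) :
    ∃ (ι : Type) (_ : Fintype ι) (_ : Nonempty ι) (d : ι → ℕ), (∀ i, Γ' (d i)) ∧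
      ∀ e, 0 < e → Γ e → EE.nrm (fun x => hAv d F (e * x) - hAv d F x) ≤ η := by
  set V : Set ℝ := {v | ∃ (ι : Type) (_ : Fintype ι) (_ : Nonempty ι) (d : ι → ℕ),
    (∀ i, Γ' (d i)) ∧ v = EE.m (fun x => hAv d F x ^ 2)} with hV
  have hne : V.Nonempty := ⟨_, Unit, inferInstance, inferInstance, fun _ => d0, fun _ => h0, rfl⟩
  have hbdd : BddBelow V := ⟨0, by
    rintro _ ⟨ι, _, _, d, -, rfl⟩
    exact EE.sq_nonneg' (Bdd.of_mem (hAv_mem d hF))⟩
  obtain ⟨_, ⟨ι, _, _, d, hd, rfl⟩, hv⟩ := exists_lt_of_csInf_lt hne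
    (lt_add_of_pos_right (sInf V) (by positivity : 0 < η ^ 2 / 4))
  refine ⟨ι, inferInstance, inferInstance, d, hd, fun e he hΓ => ?_⟩
  have hb : Bdd (hAv d F) := Bdd.of_mem (hAv_mem d hF)
  have h1 := csInf_le hbdd ⟨ι ⊕ ι, inferInstance, inferInstance, Sum.elim d (fun i => d i * e),
    by rintro (i | i); exacts [hd i, hmul e _ hΓ (hd i)], rfl⟩
  have h2 : ∀ x, hAv (Sum.elim d (fun i => d i * e)) F x = (hAv d F x + hAv d F (e * x)) / 2 := by
    intro x
    have : (Fintype.card ι : ℝ) ≠ 0 := by exact_mod_cast Fintype.card_ne_zero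
    simp only [hAv, Fintype.sum_sum_type, Sum.elim_inl, Sum.elim_inr, Fintype.card_sum, mul_assoc]
    push_cast
    field_simp
    ring
  simp only [h2] at h1
  have h3 := EE_dil he (hb.pow 2)
  rw [Mean.nrm, Real.sqrt_le_left hη.le]
  have h4 : (fun x => (hAv d F (e * x) - hAv d F x) ^ 2) = fun x => 2 * hAv d F (e * x) ^ 2
      + 2 * hAv d F x ^ 2 - 4 * ((hAv d F x + hAv d F (e * x)) / 2) ^ 2 := by
    ext x; ring
  rw [h4, EE.sub, EE.add, EE.const_mul, EE.const_mul, EE.const_mul, h3]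
  linarith

end Pool.Agent.Lib.MP_a5a405_co.PR
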