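import Pool.Agent.Lib.MP_a5a405_co.Count
import Pool.Agent.Lib.MP_a5a405_co.Couple
import Pool.Agent.Lib.MP_a5a405_co.Recur

/-!
The space of (cell, multiplier, scale), the three commuting actions on it, and the transfer of the
action of residue and scale to a multiplicative dilation.
-/

open Finset Filter Topology
open scoped Classical

namespace Pool.Agent.Lib.MP_a5a405_co.PR

abbrev Om (M : ℕ) : Type := (ZMod M × ℕ) × (ℕ × ℕ)

noncomputable def OM (M : ℕ) [NeZero M] : Mean (Om M) :=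
  (Mean.avg (cells M) (cells_nonempty M)).prod MM

def act {M : ℕ} (u a b : ℕ) (x : Om M) : Om M := ((u * x.1.1, x.1.2), (a * x.2.1, b * x.2.2))

lemma act_act {M : ℕ} (u a b u' a' b' : ℕ) (x : Om M) :
    act u a b (act u' a' b' x) = act (u * u') (a * a') (b * b') x := by
  simp [act, mul_assoc]

lemma OM_m (M : ℕ) [NeZero M] (f : Om M → ℝ) :
    (OM M).m f = MM.m (fun y => (∑ c ∈ cells M, f (c, y)) / (cells M).card) := rfl

lemma OM_pres {M : ℕ} [NeZero M] {u a b : ℕ} (hu : u.Coprime M) (ha : 0 < a) (hb : 0 < b) :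
    (OM M).Pres (act u a b) := by
  intro f hf
  have hu' : IsUnit (u : ZMod M) := (ZMod.isUnit_iff_coprime u M).2 hu
  refine Eq.trans ?_ (MM_pres ha hb _ ((Mean.avg (cells M) (cells_nonempty M)).bdd_inner hf))
  rw [OM_m]
  congr 1
  ext y
  rw [Mean.avg_m]
  congr 1
  unfold cells
  rw [sum_product, sum_product]
  exact Equiv.sum_comp hu'.unit.mulLeft fun r => ∑ j ∈ range M, f ((r, j), (a * y.1, b * y.2))

lemma OM_mono {M : ℕ} [NeZero M] {L : ℕ} (hL : 0 < L) {f g : Om M → ℝ} (hf : Bdd f) (hg : Bdd g)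
    (h : ∀ r j s N, j < M → 0 < s → 0 < N → L ∣ N → f ((r, j), (s, N)) ≤ g ((r, j), (s, N))) :
    (OM M).m f ≤ (OM M).m g :=
  MM_mono hL ((Mean.avg (cells M) (cells_nonempty M)).bdd_inner hf)
    ((Mean.avg (cells M) (cells_nonempty M)).bdd_inner hg) fun s N hs hN hLN =>
      div_le_div_of_nonneg_right (sum_le_sum fun c hc =>
        h c.1 c.2 s N (mem_range.1 (mem_product.1 hc).2) hs hN hLN) (Nat.cast_nonneg _)

/-- The indicator of odd numbers. -/
noncomputable def od (n : ℕ) : ℝ := if Odd n then 1 else 0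

lemma od_mem (n : ℕ) : 0 ≤ od n ∧ od n ≤ 1 := by unfold od; split_ifs <;> simp

lemma od_val {M : ℕ} (hM : 2 ∣ M) (n : ℕ) : od (n : ZMod M).val = od n := by
  unfold od
  rw [ZMod.val_natCast]
  simp only [Nat.odd_iff, Nat.mod_mod_of_dvd n hM]

lemma od_mul {M : ℕ} [NeZero M] (hM : 2 ∣ M) {u : ℕ} (hu : u.Coprime M) (r : ZMod M) :
    od ((u : ZMod M) * r).val = od r.val := by
  have h1 : Odd u := Nat.coprime_two_right.1 (hu.coprime_dvd_right hM)
  have h2 : (u : ZMod M) * r = ((u * r.val : ℕ) : ZMod M) := by simp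
  rw [h2, od_val hM]
  simp [od, Nat.odd_mul, h1]

noncomputable def ww {M : ℕ} (F : ℕ → ℝ) (x : Om M) : ℝ :=
  od x.1.1.val * cav M x.2.2 (fun t => F (x.2.1 * t)) x.1

lemma ww_mem {M : ℕ} {F : ℕ → ℝ} (hF : ∀ n, 0 ≤ F n ∧ F n ≤ 1) (x : Om M) :
    0 ≤ ww F x ∧ ww F x ≤ 1 := by
  have h := ce_mem (range x.2.2) (cell M x.2.2) (f := fun t => F (x.2.1 * t)) (fun t => hF _) x.1
  exact ⟨mul_nonneg (od_mem _).1 h.1, mul_le_one₀ (od_mem _).2 h.1 h.2⟩

lemma abs_ce_le' {α κ : Type} (X : Finset α) (π : α → κ) {f : α → ℝ} {C : ℝ} (hC : 0 ≤ C)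
    (hf : ∀ x, |f x| ≤ C) (c : κ) : |ce X π f c| ≤ C := by
  unfold ce
  rw [abs_div, Nat.abs_cast]
  refine div_le_of_le_mul₀ (Nat.cast_nonneg _) hC ((abs_sum_le_sum_abs _ _).trans ?_)
  simpa [mul_comm] using sum_le_sum (s := X.filter (π · = c)) fun x _ => hf x

lemma abs_of_mem {α : Type} {F : α → ℝ} (hF : ∀ n, 0 ≤ F n ∧ F n ≤ 1) (n : α) : |F n| ≤ 1 := by
  rw [abs_of_nonneg (hF n).1]; exact (hF n).2

lemma ww_tk {M : ℕ} [NeZero M] (hM : 2 ∣ M) {F : ℕ → ℝ} (hF : ∀ n, 0 ≤ F n ∧ F n ≤ 1)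
    (P : Finset ℕ) (hP : ∀ p ∈ P, p.Prime ∧ p.Coprime M) :
    ∑ p ∈ P, (OM M).m (fun x => (ww F (act 1 p 1 x) - ww F (act p 1 p x)) ^ 2) / p ≤ 1 := by
  have hM0 : 0 < M := Nat.pos_of_ne_zero (NeZero.ne M)
  set c : ℕ → Om M → ℝ := fun p x => cav M x.2.2 (fun t => F (x.2.1 * t) * dv p t) x.1 with hc
  have hcb : ∀ p, Bdd (c p) := fun p => ⟨p + 1, fun x => abs_ce_le' _ _ (by positivity) (fun t => by
    rw [abs_mul]
    refine (mul_le_of_le_one_left (abs_nonneg _) (abs_of_mem hF _)).trans ?_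
    unfold dv
    refine (abs_sub _ _).trans ?_
    split_ifs <;> simp) _⟩
  have hwb : Bdd (ww (M := M) F) := Bdd.of_mem (ww_mem hF)
  have h1 : ∀ p ∈ P, (OM M).m (fun x => (ww F (act 1 p 1 x) - ww F (act p 1 p x)) ^ 2) / p
      ≤ (OM M).m (fun x => c p x ^ 2 / p) := by
    intro p hp
    have hp0 := (hP p hp).1.pos
    rw [Mean.div_const, ← OM_pres (hP p hp).2 one_pos hp0 _ ((hcb p).pow 2)]
    refine div_le_div_of_nonneg_right ?_ (Nat.cast_nonneg _)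
    refine OM_mono (L := M ^ 2) (by positivity) (((hwb.comp _).sub (hwb.comp _)).pow 2)
      (((hcb p).comp _).pow 2) ?_
    rintro r j s _ hj hs hN ⟨k, rfl⟩
    have hk : 0 < k := Nat.pos_of_mul_pos_left hN
    have h2 := cav_dil hk hp0 ((ZMod.isUnit_iff_coprime p M).2 (hP p hp).2) r hj
      (fun t => F (s * t))
    simp only [ww, act, hc, od_mul hM (hP p hp).2, Nat.cast_one, one_mul]
    rw [← h2, ← mul_sub, mul_pow]
    simp only [mul_left_comm s p, mul_assoc]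
    exact mul_le_of_le_one_left (sq_nonneg _) (pow_le_one₀ (od_mem _).1 (od_mem _).2)
  refine (sum_le_sum h1).trans ?_
  rw [← Mean.sum, ← (OM M).const 1]
  have hD : 0 < ∏ p ∈ P, p := prod_pos fun p hp => (hP p hp).1.pos
  refine OM_mono (L := M ^ 2 * ((∏ p ∈ P, p) * ∏ p ∈ P, p)) (by positivity)
    (Bdd.sum _ fun p => ((hcb p).pow 2).div_const _) (Bdd.const _) ?_
  rintro r j s _ hj hs hN ⟨k, rfl⟩
  have hk : 0 < k := Nat.pos_of_mul_pos_left hN
  simp only [hc, mul_assoc (M ^ 2)]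
  exact tk_fib (by positivity) P
    (fun p hp => ⟨(hP p hp).1, (ZMod.isUnit_iff_coprime p M).2 (hP p hp).2⟩)
    (fun p hp q hq => (mul_dvd_mul (dvd_prod_of_mem _ hp) (dvd_prod_of_mem _ hq)).mul_right _)
    r hj fun t => abs_of_mem hF _

lemma ww_close {M : ℕ} [NeZero M] {F : ℕ → ℝ} (hF : ∀ n, 0 ≤ F n ∧ F n ≤ 1) (u c : ℕ) {a b : ℕ}
    (ha : 0 < a) (hab : a ≤ b) {η : ℝ} (hη : 0 ≤ η) (hb : (b : ℝ) ≤ (1 + η) * a) :
    (OM M).nrm (fun x => ww F (act u c a x) - ww F (act u c b x)) ≤ (2 * M + 1) * η := by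
  have hM0 : 0 < M := Nat.pos_of_ne_zero (NeZero.ne M)
  have hwb : Bdd (ww (M := M) F) := Bdd.of_mem (ww_mem hF)
  rw [Mean.nrm, Real.sqrt_le_left (by positivity), ← (OM M).const (_ ^ 2)]
  refine OM_mono (L := M ^ 2) (by positivity) (((hwb.comp _).sub (hwb.comp _)).pow 2)
    (Bdd.const _) ?_
  rintro r j s _ hj hs hN ⟨k, rfl⟩
  have hk : 0 < k := Nat.pos_of_mul_pos_left hN
  have h := cav_close (a := a * k) (b := b * k) (η := η) (by positivity) (Nat.mul_le_mul_right _ hab)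
    (by push_cast; rw [← mul_assoc]; exact mul_le_mul_of_nonneg_right hb (Nat.cast_nonneg _))
    ((u : ZMod M) * r) hj (f := fun t => F (c * s * t)) fun t => abs_of_mem hF _
  simp only [ww, act, mul_left_comm _ (M ^ 2)]
  rw [← mul_sub, mul_pow]
  refine (mul_le_of_le_one_left (sq_nonneg _) (pow_le_one₀ (od_mem _).1 (od_mem _).2)).trans ?_
  exact sq_le_sq' (abs_le.1 h).1 (abs_le.1 h).2

lemma sum_od (k : ℕ) : ∑ n ∈ range (2 * k), od n = k := by
  induction k with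
  | zero => simp
  | succ k ih =>
    rw [mul_add, mul_one, sum_range_succ, sum_range_succ, ih]
    simp [od]

lemma ww_mean {M : ℕ} [NeZero M] (hM : 2 ∣ M) {F : ℕ → ℝ} (hF : ∀ n, 0 ≤ F n ∧ F n ≤ 1) :
    EE.m F / 2 ≤ (OM M).m (ww F) := by
  have hM0 : 0 < M := Nat.pos_of_ne_zero (NeZero.ne M)
  have hwb : Bdd (ww (M := M) F) := Bdd.of_mem (ww_mem hF)
  rw [OM_m, ← MM.const (EE.m F / 2)]
  refine MM_mono' (L := M ^ 2) (by positivity) (Bdd.const _)
    ((Mean.avg (cells M) (cells_nonempty M)).bdd_inner hwb) ?_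
  rintro _ hN ⟨k, rfl⟩
  have hk : 0 < k := Nat.pos_of_mul_pos_left hN
  have h1 : ∀ s, (∑ c ∈ cells M, ww F (c, (s, M ^ 2 * k))) / (cells M).card
      = (∑ n ∈ range (M ^ 2 * k), F (n * s) * od n) / (M ^ 2 * k : ℕ) := by
    intro s
    have h2 := avg_cells hk (fun t => F (s * t)) (fun c : ZMod M × ℕ => od c.1.val)
    simp only [cell, od_val hM] at h2
    simp only [mul_comm _ s, ← h2, ww, mul_comm (od _)]
  simp only [h1]
  rw [EE.const, EE.div_const, EE.sum]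
  have h2 : ∀ n ∈ range (M ^ 2 * k), EE.m (fun s => F (n * s) * od n) = EE.m F * od n := by
    intro n _
    rw [EE.mul_const]
    rcases Nat.eq_zero_or_pos n with rfl | hn
    · simp [od]
    · rw [EE_dil hn (Bdd.of_mem hF)]
  rw [sum_congr rfl h2, ← mul_sum]
  obtain ⟨l, hl⟩ : 2 ∣ M ^ 2 * k := (hM.trans (dvd_pow_self M two_ne_zero)).mul_right k
  have hl0 : (0 : ℝ) < l := by exact_mod_cast (by omega : 0 < l)
  rw [hl, sum_od]
  push_cast
  exact le_of_eq (by field_simp)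

theorem transfer {ι : Type} [Fintype ι] {M : ℕ} [NeZero M] (hM : 2 ∣ M) (F : ι → ℕ → ℝ)
    (hF : ∀ i n, 0 ≤ F i n ∧ F i n ≤ 1) {g : ℕ} (hg : g.Coprime M) {γ : ℝ} (hγ : 0 < γ) :
    ∃ a b : ℕ, 0 < a ∧ 0 < b ∧ ∀ i z, 0 < z →
      (OM M).m (fun x => ww (F i) (act 1 ((z * b) ^ 8) 1 x) * ww (F i) (act 1 (a ^ 8) 1 x)) - γ
        ≤ (OM M).m (fun x => ww (F i) (act 1 (z ^ 8) 1 x) * ww (F i) (act (g ^ 8) 1 16 x)) := by
  have hM0 : 0 < M := Nat.pos_of_ne_zero (NeZero.ne M)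
  have hwb : ∀ i, Bdd (ww (M := M) (F i)) := fun i => Bdd.of_mem (ww_mem (hF i))
  set V : ι → ℕ → ℕ → Om M → ℝ := fun i a b x => ww (F i) (act b a b x) with hV
  have hVb : ∀ i a b, Bdd (V i a b) := fun i a b => (hwb i).comp _
  have hinv : ∀ i a b a' b' c d, 0 < c → 0 < d → d.Coprime M →
      (OM M).m (fun x => (V i (a * c) (b * d) x - V i (a' * c) (b' * d) x) ^ 2)
        = (OM M).m (fun x => (V i a b x - V i a' b' x) ^ 2) := by
    intro i a b a' b' c d hc hd hdM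
    rw [← OM_pres hdM hc hd _ (((hVb i a b).sub (hVb i a' b')).pow 2)]
    simp only [hV, act_act]
  set η := γ / 2 / (2 * M + 1) with hη
  have hη0 : 0 < η := by positivity
  obtain ⟨a, b, ha, hb, hbM, hab, h1, h2, h3⟩ := couple_mean (OM M) V hVb hM0 hinv
    (fun i P hP => ww_tk hM (hF i) P hP) hg hη0 (by positivity : 0 < γ / 16)
  have haM : a.Coprime M := by
    rw [Nat.coprime_iff_gcd_eq_one, hab.gcd_eq]
    exact Nat.Coprime.mul_left hg hbM
  refine ⟨a, b, ha, hb, fun i z hz => ?_⟩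
  have h4 : ∀ n : ℕ, (OM M).nrm (fun x => V i (a ^ n) (b ^ n) x - V i (b ^ n) (a ^ n) x)
      ≤ n * (γ / 16) := by
    intro n
    induction n with
    | zero => simp [Mean.nrm, Mean.const]
    | succ n ih =>
      have h5 := (OM M).nrm_sub_le (hVb i (a ^ (n + 1)) (b ^ (n + 1))) (hVb i (b * a ^ n) (a * b ^ n))
        (hVb i (b ^ (n + 1)) (a ^ (n + 1)))
      have h6 := hinv i a b b a (a ^ n) (b ^ n) (by positivity) (by positivity) (hbM.pow_left n)
      have h7 := hinv i (a ^ n) (b ^ n) (b ^ n) (a ^ n) b a hb ha haM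
      have h8 := h3 i
      simp only [← pow_succ'] at h6
      simp only [← pow_succ, mul_comm (a ^ n) b, mul_comm (b ^ n) a] at h7
      unfold Mean.nrm at h5 h8 ih ⊢
      rw [h6, h7] at h5
      push_cast
      linarith
  have h5 := ww_close (M := M) (hF i) (a ^ 8) (b ^ 8) (a := 16 * b ^ 8) (b := a ^ 8) (by positivity) h1
    hη0.le (by exact_mod_cast h2)
  have h6 : (2 * M + 1) * η = γ / 2 := by rw [hη]; field_simp
  have h7 := (OM M).nrm_sub_le (hVb i (a ^ 8) (b ^ 8)) (hVb i (b ^ 8) (a ^ 8))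
    ((hwb i).comp (act (a ^ 8) (b ^ 8) (16 * b ^ 8)))
  rw [(OM M).nrm_sub_comm (V i (b ^ 8) (a ^ 8))] at h7
  have h8 := h4 8
  rw [← OM_pres (hbM.pow_left 8) one_pos (pow_pos hb 8) _ (((hwb i).comp _).mul ((hwb i).comp _)),
    ← OM_pres (hbM.pow_left 8) (pow_pos hb 8) (pow_pos hb 8)
      (fun x => ww (F i) (act 1 (z ^ 8) 1 x) * ww (F i) (act (g ^ 8) 1 16 x))
      (((hwb i).comp _).mul ((hwb i).comp _))]
  have h9 : ∀ x : Om M, act (g ^ 8 * b ^ 8) (b ^ 8) (16 * b ^ 8) x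
      = act (a ^ 8) (b ^ 8) (16 * b ^ 8) x := by
    intro x
    unfold act
    rw [← mul_pow, (ZMod.natCast_eq_natCast_iff _ _ _).2 (hab.pow 8)]
  simp only [act_act, one_mul, mul_one, mul_pow, h9]
  have h10 := (OM M).abs_mul_le ((hwb i).comp (act (b ^ 8) (z ^ 8 * b ^ 8) (b ^ 8)))
    ((hVb i (a ^ 8) (b ^ 8)).sub ((hwb i).comp (act (a ^ 8) (b ^ 8) (16 * b ^ 8))))
  have h11 := (OM M).nrm_le_of_abs_le zero_le_one
    fun x => abs_of_mem (ww_mem (hF i)) (act (b ^ 8) (z ^ 8 * b ^ 8) (b ^ 8) x)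
  simp only [mul_sub, Mean.sub] at h10
  have h12 := mul_le_of_le_one_left ((OM M).nrm_nonneg fun x => V i (a ^ 8) (b ^ 8) x
    - ww (F i) (act (a ^ 8) (b ^ 8) (16 * b ^ 8) x)) h11
  have h13 := (abs_le.1 h10).2
  simp only [hV] at h7 h8 h12 h13
  push_cast at h8
  linarith

end Pool.Agent.Lib.MP_a5a405_co.PR
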