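import Pool.Agent.Lib.MP_a5a405_co.Fourier

/-!
Bessel's inequality and the dual Turan-Kubilius inequality with exact independence.
-/

open Finset Complex

namespace Pool.Agent.Lib.MP_a5a405_co.PR

lemma bessel {α ι : Type} [DecidableEq ι] (X : Finset α) (S : Finset ι) (e : ι → α → ℝ)
    (a : α → ℝ) (n : ι → ℝ) (hn : ∀ i ∈ S, 0 < n i)
    (horth : ∀ i ∈ S, ∀ j ∈ S, ∑ x ∈ X, e i x * e j x = if i = j then n i else 0) :
    ∑ i ∈ S, (∑ x ∈ X, a x * e i x) ^ 2 / n i ≤ ∑ x ∈ X, a x ^ 2 := by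
  set β : ι → ℝ := fun i => ∑ x ∈ X, a x * e i x with hβ
  set c : ι → ℝ := fun i => β i / n i with hc
  have h0 : 0 ≤ ∑ x ∈ X, (a x - ∑ i ∈ S, c i * e i x) ^ 2 := sum_nonneg fun _ _ => sq_nonneg _
  have h1 : ∑ x ∈ X, a x * ∑ i ∈ S, c i * e i x = ∑ i ∈ S, β i ^ 2 / n i := by
    simp only [mul_sum]
    rw [sum_comm]
    refine sum_congr rfl fun i _ => ?_
    have : ∑ x ∈ X, a x * (c i * e i x) = c i * β i := by
      rw [hβ, mul_sum]
      exact sum_congr rfl fun x _ => by ring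
    rw [this, hc]; ring
  have h2 : ∑ x ∈ X, (∑ i ∈ S, c i * e i x) ^ 2 = ∑ i ∈ S, β i ^ 2 / n i := by
    simp only [sq, sum_mul_sum]
    rw [sum_comm]
    refine sum_congr rfl fun i hi => ?_
    rw [sum_comm]
    have h3 : ∀ j ∈ S, ∑ x ∈ X, c i * e i x * (c j * e j x) = if i = j then c i * c j * n i else 0 := by
      intro j hj
      have : ∑ x ∈ X, c i * e i x * (c j * e j x) = c i * c j * ∑ x ∈ X, e i x * e j x := by
        rw [mul_sum]
        exact sum_congr rfl fun x _ => by ring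
      rw [this, horth i hi j hj]
      split_ifs <;> simp
    rw [sum_congr rfl h3, sum_ite_eq, if_pos hi, hc]
    have := (hn i hi).ne'
    field_simp
  have h3 : ∑ x ∈ X, (a x - ∑ i ∈ S, c i * e i x) ^ 2
      = ∑ x ∈ X, a x ^ 2 - 2 * ∑ x ∈ X, a x * ∑ i ∈ S, c i * e i x
        + ∑ x ∈ X, (∑ i ∈ S, c i * e i x) ^ 2 := by
    rw [mul_sum, ← sum_sub_distrib, ← sum_add_distrib]
    exact sum_congr rfl fun x _ => by ring
  rw [h3, h1, h2] at h0
  linarith

/-- The centred divisibility weight. -/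
noncomputable def dv (p t : ℕ) : ℝ := (if p ∣ t then (p : ℝ) else 0) - 1

lemma sum_ind (X : Finset ℕ) (p : ℕ) (c : ℝ) :
    ∑ t ∈ X, (if p ∣ t then c else 0) = c * (X.filter (p ∣ ·)).card := by
  rw [← sum_filter]; simp [mul_comm]

lemma tk (X S : Finset ℕ) {k : ℝ} (hk : 0 < k) (hS : ∀ p ∈ S, p.Prime) (hX : (X.card : ℝ) = k)
    (h1 : ∀ p ∈ S, ((X.filter (p ∣ ·)).card : ℝ) = k / p)
    (h2 : ∀ p ∈ S, ∀ q ∈ S, p ≠ q → ((X.filter (p * q ∣ ·)).card : ℝ) = k / (p * q))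
    (a : ℕ → ℝ) :
    ∑ p ∈ S, (∑ t ∈ X, a t * dv p t) ^ 2 / p ≤ k * ∑ t ∈ X, a t ^ 2 := by
  have hp1 : ∀ p ∈ S, (1 : ℝ) < p := fun p hp => by exact_mod_cast (hS p hp).one_lt
  have h := bessel X S dv a (fun p => ((p : ℝ) - 1) * k)
    (fun p hp => mul_pos (by linarith [hp1 p hp]) hk) (by
      intro p hp q hq
      have hp0 : (p : ℝ) ≠ 0 := by linarith [hp1 p hp]
      have hq0 : (q : ℝ) ≠ 0 := by linarith [hp1 q hq]
      have h3 : ∀ t ∈ X, dv p t * dv q t = (if p ∣ t ∧ q ∣ t then (p : ℝ) * q else 0)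
          - (if p ∣ t then (p : ℝ) else 0) - (if q ∣ t then (q : ℝ) else 0) + 1 := by
        intro t _
        unfold dv
        by_cases hp' : p ∣ t <;> by_cases hq' : q ∣ t <;> simp [hp', hq'] <;> ring
      rw [sum_congr rfl h3, sum_add_distrib, sum_sub_distrib, sum_sub_distrib, sum_ind, sum_ind,
        h1 p hp, h1 q hq]
      simp only [sum_const, nsmul_eq_mul, mul_one, hX]
      split_ifs with hpq
      · subst hpq
        simp only [and_self]
        rw [sum_ind, h1 p hp]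
        field_simp
        ring
      · have hco : p.Coprime q := (Nat.coprime_primes (hS p hp) (hS q hq)).2 hpq
        have h4 : ∀ t, (p ∣ t ∧ q ∣ t) ↔ p * q ∣ t := fun t =>
          ⟨fun h => hco.mul_dvd_of_dvd_of_dvd h.1 h.2,
            fun h => ⟨(dvd_mul_right _ _).trans h, (dvd_mul_left _ _).trans h⟩⟩
        simp only [h4]
        rw [sum_ind, h2 p hp q hq hpq]
        field_simp
        ring)
  have h5 := mul_le_mul_of_nonneg_left h hk.le
  refine le_trans ?_ h5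
  rw [mul_sum]
  refine sum_le_sum fun p hp => ?_
  have h6 := hp1 p hp
  have : k * ((∑ t ∈ X, a t * dv p t) ^ 2 / ((p - 1) * k)) = (∑ t ∈ X, a t * dv p t) ^ 2 / (p - 1) := by
    field_simp
  rw [this]
  exact div_le_div_of_nonneg_left (sq_nonneg _) (by linarith) (by linarith)

lemma card_range_dvd {L d : ℕ} (hd : 0 < d) (h : d ∣ L) :
    (((range L).filter (d ∣ ·)).card : ℝ) = L / d := by
  obtain ⟨k, rfl⟩ := h
  have h1 : (range (d * k)).filter (d ∣ ·) = (range k).image (d * ·) := by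
    ext t
    simp only [mem_filter, mem_range, mem_image]
    constructor
    · rintro ⟨h1, c, rfl⟩
      exact ⟨c, lt_of_mul_lt_mul_left h1 (Nat.zero_le _), rfl⟩
    · rintro ⟨c, hc, rfl⟩
      exact ⟨Nat.mul_lt_mul_of_pos_left hc hd, dvd_mul_right _ _⟩
  rw [h1, card_image_of_injective _ (mul_right_injective₀ hd.ne'), card_range]
  have : (d : ℝ) ≠ 0 := by positivity
  push_cast
  field_simp

lemma sum_range_dvd {β : Type} [AddCommMonoid β] {k d : ℕ} (hd : 0 < d) (F : ℕ → β) :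
    ∑ t ∈ range (d * k), (if d ∣ t then F t else 0) = ∑ u ∈ range k, F (d * u) := by
  rw [← sum_filter]
  symm
  refine sum_bij (fun u _ => d * u) ?_ ?_ ?_ (fun _ _ => rfl)
  · intro u hu
    exact mem_filter.2 ⟨mem_range.2 (Nat.mul_lt_mul_of_pos_left (mem_range.1 hu) hd),
      dvd_mul_right _ _⟩
  · intro u _ v _ h
    exact mul_left_cancel₀ hd.ne' h
  · intro t ht
    obtain ⟨h1, c, rfl⟩ := mem_filter.1 ht
    exact ⟨c, mem_range.2 (lt_of_mul_lt_mul_left (mem_range.1 h1) (Nat.zero_le _)), rfl⟩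

/-- Complex form on a full interval. -/
lemma tk_fs {L : ℕ} (hL : 0 < L) (S : Finset ℕ) (hS : ∀ p ∈ S, p.Prime)
    (hdvd : ∀ p ∈ S, ∀ q ∈ S, p * q ∣ L) {f : ℕ → ℝ} (hf : ∀ t, |f t| ≤ 1) {ζ : ℂ}
    (hζ : ‖ζ‖ = 1) :
    ∑ p ∈ S, ‖fs (fun t => f t * dv p t) L ζ‖ ^ 2 / p ≤ (L : ℝ) ^ 2 := by
  have hL' : (0 : ℝ) < L := by exact_mod_cast hL
  have key := fun a => tk (range L) S hL' hS (by simp)
    (fun p hp => card_range_dvd (hS p hp).pos ((dvd_mul_right _ _).trans (hdvd p hp p hp)))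
    (fun p hp q hq _ => by
      have := card_range_dvd (mul_pos (hS p hp).pos (hS q hq).pos) (hdvd p hp q hq)
      simpa using this) a
  have h1 := key fun t => f t * (ζ ^ t).re
  have h2 := key fun t => f t * (ζ ^ t).im
  have h3 : ∀ p ∈ S, ‖fs (fun t => f t * dv p t) L ζ‖ ^ 2 / p
      = (∑ t ∈ range L, f t * (ζ ^ t).re * dv p t) ^ 2 / p
        + (∑ t ∈ range L, f t * (ζ ^ t).im * dv p t) ^ 2 / p := by
    intro p _
    rw [← add_div, Complex.sq_norm, normSq_apply, fs_def, re_sum, im_sum]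
    congr 2
    · rw [sq]
      congr 1 <;> exact sum_congr rfl fun t _ => by rw [re_ofReal_mul]; ring
    · rw [sq]
      congr 1 <;> exact sum_congr rfl fun t _ => by rw [im_ofReal_mul]; ring
  rw [sum_congr rfl h3, sum_add_distrib]
  have h4 : ∑ t ∈ range L, (f t * (ζ ^ t).re) ^ 2 + ∑ t ∈ range L, (f t * (ζ ^ t).im) ^ 2 ≤ L := by
    rw [← sum_add_distrib]
    refine le_trans (sum_le_sum fun t _ => ?_) (sum_sq_le hf L)
    have h5 : (ζ ^ t).re ^ 2 + (ζ ^ t).im ^ 2 = 1 := by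
      have : ‖ζ ^ t‖ ^ 2 = 1 := by rw [norm_pow, hζ]; simp
      rw [Complex.sq_norm, normSq_apply] at this
      linarith
    apply le_of_eq
    calc _ = f t ^ 2 * ((ζ ^ t).re ^ 2 + (ζ ^ t).im ^ 2) := by ring
      _ = _ := by rw [h5, mul_one]
  nlinarith

lemma fs_dv {p k : ℕ} (hp : 0 < p) (f : ℕ → ℝ) (ζ : ℂ) :
    fs (fun t => f t * dv p t) (p * k) ζ
      = p * fs (fun u => f (p * u)) k (ζ ^ p) - fs f (p * k) ζ := by
  simp only [fs_def]
  rw [mul_sum]
  have h := sum_range_dvd (k := k) hp (fun t => (p : ℂ) * ((f t : ℂ) * ζ ^ t))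
  simp only [← pow_mul]
  rw [← h, ← sum_sub_distrib]
  refine sum_congr rfl fun t _ => ?_
  unfold dv
  split_ifs <;> push_cast <;> ring

lemma sum_abs_dv_le {p L : ℕ} (hp : 0 < p) (h : p ∣ L) {f : ℕ → ℝ} (hf : ∀ t, |f t| ≤ 1) :
    ∑ t ∈ range L, |f t * dv p t| ≤ 2 * L := by
  have h1 : ∀ t ∈ range L, |f t * dv p t| ≤ (if p ∣ t then (p : ℝ) else 0) + 1 := by
    intro t _
    rw [abs_mul]
    refine (mul_le_of_le_one_left (abs_nonneg _) (hf t)).trans ?_
    unfold dv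
    refine (abs_sub _ _).trans ?_
    split_ifs <;> simp
  refine (sum_le_sum h1).trans ?_
  rw [sum_add_distrib, sum_ind, card_range_dvd hp h]
  have : (p : ℝ) ≠ 0 := by positivity
  simp only [sum_const, card_range, nsmul_eq_mul, mul_one]
  rw [mul_div_cancel₀ _ this]
  linarith

end Pool.Agent.Lib.MP_a5a405_co.PR
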